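import Pool.Graph.R_seed8.R377.KusminLandau
import Pool.Agent.H502.XQ.D13

/-!
# The second derivative test for sequences
-/

set_option autoImplicit false

open Finset

namespace Pool.Agent.H502.XR

open Pool.Agent.H502.XQ

lemma E_eq (x : ℝ) : E x = Pool.Agent.R377.KL.e x := rfl

lemma E_sub_int (x : ℝ) (n : ℤ) : E (x - n) = E x := Pool.Agent.R377.KL.e_sub_int x n

/-- Kusmin–Landau, differences to the right of an integer -/
lemma kl_right (x : ℕ → ℝ) (m : ℤ) (n : ℕ) {δ : ℝ} (hδ : 0 < δ)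
    (hmono : ∀ k, k + 1 < n → x (k + 1) - x k ≤ x (k + 2) - x (k + 1))
    (hlo : ∀ k < n, m + δ ≤ x (k + 1) - x k) (hhi : ∀ k < n, x (k + 1) - x k ≤ m + 3 / 4) :
    ‖∑ k ∈ range n, E (x k)‖ ≤ 2 + 1 / (Real.pi * δ) := by
  have h := Pool.Agent.R377.KL.kl (fun k => x k - ((m * k : ℤ) : ℝ)) n δ hδ ?_ ?_ ?_
  · have e : ∀ k ∈ range n, Pool.Agent.R377.KL.e (x k - ((m * k : ℤ) : ℝ)) = E (x k) := by
      intro k _
      rw [← E_eq, E_sub_int]
    rw [sum_congr rfl e] at h
    exact h
  · intro k hk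
    have := hmono k hk
    push_cast
    linarith
  · intro k hk
    have := hlo k hk
    push_cast
    linarith
  · intro k hk
    have := hhi k hk
    push_cast
    linarith

/-- Kusmin–Landau, differences to the left of an integer -/
lemma kl_left (x : ℕ → ℝ) (m : ℤ) (n : ℕ) {δ : ℝ} (hδ : 0 < δ)
    (hmono : ∀ k, k + 1 < n → x (k + 1) - x k ≤ x (k + 2) - x (k + 1))
    (hlo : ∀ k < n, m - 3 / 4 ≤ x (k + 1) - x k) (hhi : ∀ k < n, x (k + 1) - x k ≤ m - δ) :
    ‖∑ k ∈ range n, E (x k)‖ ≤ 3 + 1 / (Real.pi * δ) := by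
  have hp : 0 < 1 / (Real.pi * δ) := by have := Real.pi_pos; positivity
  rcases n with _ | p
  · simp only [range_zero, sum_empty, norm_zero]
    linarith
  rw [← sum_range_reflect, sum_range_succ]
  have h := kl_right (fun i => x (p - i) ) (-m) p hδ ?_ ?_ ?_
  · have e : ∀ i ∈ range p, E (x (p + 1 - 1 - i)) = E (x (p - i)) := by
      intro i _
      rw [Nat.add_sub_cancel]
    rw [sum_congr rfl e]
    refine (norm_add_le _ _).trans ?_
    rw [norm_E]
    linarith
  · intro i hi
    obtain ⟨j, hj⟩ : ∃ j, p = i + 2 + j := ⟨p - (i + 2), by omega⟩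
    have e1 : p - i = j + 2 := by omega
    have e2 : p - (i + 1) = j + 1 := by omega
    have e3 : p - (i + 2) = j := by omega
    simp only [e1, e2, e3]
    have := hmono j (by omega)
    linarith
  · intro i hi
    obtain ⟨j, hj⟩ : ∃ j, p = i + 1 + j := ⟨p - (i + 1), by omega⟩
    have e1 : p - i = j + 1 := by omega
    have e2 : p - (i + 1) = j := by omega
    simp only [e1, e2]
    have := hhi j (by omega)
    push_cast
    linarith
  · intro i hi
    obtain ⟨j, hj⟩ : ∃ j, p = i + 1 + j := ⟨p - (i + 1), by omega⟩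
    have e1 : p - i = j + 1 := by omega
    have e2 : p - (i + 1) = j := by omega
    simp only [e1, e2]
    have := hlo j (by omega)
    push_cast
    linarith

/-- splitting at a threshold -/
lemma split_at (d : ℕ → ℝ) (n : ℕ) (hd : ∀ k, k + 1 < n → d k ≤ d (k + 1)) (θ : ℝ) :
    ∃ p ≤ n, (∀ k < p, d k < θ) ∧ ∀ k, p ≤ k → k < n → θ ≤ d k := by
  induction n with
  | zero => exact ⟨0, le_rfl, fun k hk => absurd hk (Nat.not_lt_zero k), fun k _ hk => absurd hk (Nat.not_lt_zero k)⟩
  | succ n ih =>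
    obtain ⟨p, hp, h1, h2⟩ := ih (fun k hk => hd k (by omega))
    by_cases hn : d n < θ
    · refine ⟨n + 1, le_rfl, ?_, fun k h3 h4 => absurd h4 (by omega)⟩
      intro k hk
      rcases Nat.lt_succ_iff_lt_or_eq.mp hk with h | h
      · by_cases h5 : k < p
        · exact h1 k h5
        · exfalso
          have h6 : θ ≤ d (n - 1) := h2 (n - 1) (by omega) (by omega)
          have h7 := hd (n - 1) (by omega)
          rw [Nat.sub_add_cancel (by omega)] at h7
          linarith
      · rw [h]; exact hn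
    · push Not at hn
      refine ⟨p, by omega, h1, ?_⟩
      intro k h3 h4
      rcases Nat.lt_succ_iff_lt_or_eq.mp h4 with h | h
      · exact h2 k h3 h
      · rw [h]; exact hn

/-- the growth of the differences -/
lemma growth (x : ℕ → ℝ) {l : ℝ} (n : ℕ)
    (h : ∀ k, k + 1 < n → l ≤ x (k + 2) - 2 * x (k + 1) + x k) (k : ℕ) (hk : k < n) :
    k * l ≤ (x (k + 1) - x k) - (x 1 - x 0) := by
  induction k with
  | zero => simp
  | succ k ih =>
    have h1 := ih (by omega)
    have h2 := h k (by omega)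
    push_cast
    linarith

lemma growth' (x : ℕ → ℝ) {u : ℝ} (n : ℕ)
    (h : ∀ k, k + 1 < n → x (k + 2) - 2 * x (k + 1) + x k ≤ u) (k : ℕ) (hk : k < n) :
    (x (k + 1) - x k) - (x 1 - x 0) ≤ k * u := by
  induction k with
  | zero => simp
  | succ k ih =>
    have h1 := ih (by omega)
    have h2 := h k (by omega)
    push_cast
    linarith

/-- few differences in a short interval -/
lemma short_piece (x : ℕ → ℝ) {l δ c : ℝ} (hl : 0 < l) (hδ : 0 ≤ δ) (n : ℕ)
    (h : ∀ k, k + 1 < n → l ≤ x (k + 2) - 2 * x (k + 1) + x k)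
    (h1 : ∀ k < n, c ≤ x (k + 1) - x k) (h2 : ∀ k < n, x (k + 1) - x k ≤ c + δ) :
    ‖∑ k ∈ range n, E (x k)‖ ≤ δ / l + 1 := by
  have h0 : ‖∑ k ∈ range n, E (x k)‖ ≤ n := by
    refine (norm_sum_le _ _).trans ?_
    simp only [norm_E, sum_const, card_range, nsmul_eq_mul, mul_one, le_refl]
  refine h0.trans ?_
  rcases n with _ | p
  · have h3 : 0 ≤ δ / l := by positivity
    simp only [Nat.cast_zero]
    linarith
  have h3 := growth x (p + 1) h p (by omega)
  have h4 := h1 0 (by omega)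
  have h5 := h2 p (by omega)
  have h6 : p * l ≤ δ := by
    simp only [zero_add] at h4
    linarith
  have h7 : (p : ℝ) ≤ δ / l := by
    rw [le_div_iff₀ hl]; exact h6
  push_cast
  linarith

end Pool.Agent.H502.XR
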