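import Pool.Agent.H502.XR.E9

/-!
# The second range without the logarithm
-/

set_option autoImplicit false

open Finset

namespace Pool.Agent.H502.XR

open Pool.Agent.H502.XQ

lemma log_sq_le {h : ℝ} (hh : 1 ≤ h) : (1 + Real.log h) ^ 2 ≤ 4 * h := by
  have h0 : 0 < h := by linarith
  have h1 : 0 < √h := Real.sqrt_pos.mpr h0
  have h2 : Real.log h = 2 * Real.log (√h) := by
    rw [Real.log_sqrt h0.le]
    ring
  have h3 := Real.log_le_sub_one_of_pos h1
  have h4 : 0 ≤ Real.log h := Real.log_nonneg hh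
  have h5 : 1 + Real.log h ≤ 2 * √h := by linarith
  have h6 : √h ^ 2 = h := Real.sq_sqrt h0.le
  nlinarith

lemma eta_le {η θ : ℝ} (hη : 0 < η) (hθ : 0 ≤ θ) (hθ1 : θ ≤ 1) : min 1 η ≤ η ^ θ := by
  rcases le_total 1 η with h | h
  · exact (min_le_left _ _).trans (Real.one_le_rpow h hθ)
  · refine (min_le_right _ _).trans ?_
    calc η = η ^ (1 : ℝ) := (Real.rpow_one η).symm
      _ ≤ η ^ θ := Real.rpow_le_rpow_of_exponent_ge hη h hθ1

/-- **The second range without the logarithm** -/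
theorem main_nolog (P : ℕ) (hP : 2 ≤ P) (η : ℝ) (hη : 0 < η) :
    ∃ c : ℝ, 0 < c ∧ ∃ N₀ : ℝ, 16 ≤ N₀ ∧ ∀ N F : ℝ, N₀ ≤ N → N₀ * N ≤ F →
      N * Real.log N ^ 2 ≤ F ^ (1 - 1 / (P : ℝ)) → ∀ f₀ : ℝ → ℝ,
      ∃ w : ℝ → ℝ, ContDiff ℝ ((⊤ : ℕ∞) : WithTop ℕ∞) w ∧
        (∀ p ≤ P, ∀ x ∈ Set.Icc N (2 * N), |iteratedDeriv p w x| ≤ η * F / N ^ p) ∧
        ∃ N' : ℝ, N ≤ N' ∧ N' ≤ 2 * N ∧
          c * size P N F ≤ ‖∑ n ∈ Icc ⌈N⌉₊ ⌊N'⌋₊, E (f₀ n + w n)‖ := by
  obtain ⟨M, hM1, hM⟩ := psi_bound P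
  have hM0 : 0 < M := by linarith
  have hP0 : (0 : ℝ) < P := by exact_mod_cast (by omega : 0 < P)
  set η₁ : ℝ := min 1 η with hη₁
  have hη₁0 : 0 < η₁ := by positivity
  set K₃ : ℝ := 6 + 64 / η₁ with hK₃
  have hK₃0 : 0 < K₃ := by positivity
  set K₂ : ℝ := 7 + (M / η) ^ (1 / (P : ℝ)) with hK₂
  have hK₂0 : 0 < K₂ := by positivity
  refine ⟨√(1 / (4096 * 32 * K₃ * K₂)), by positivity, 16 + 16 / η + 16 ^ P * (M / η), by
    have : 0 < 16 / η + 16 ^ P * (M / η) := by positivity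
    linarith, ?_⟩
  intro N F hN hF hlogF f₀
  have hpos1 : 0 < 16 / η := by positivity
  have hpos2 : 0 < 16 ^ P * (M / η) := by positivity
  have hN16 : 16 ≤ N := by linarith
  have hN0 : 0 < N := by linarith
  have hF16 : 16 * N ≤ F := le_trans (mul_le_mul_of_nonneg_right (by linarith) hN0.le) hF
  have hFη : 16 / η * N ≤ F := le_trans (mul_le_mul_of_nonneg_right (by linarith) hN0.le) hF
  have hFM : 16 ^ P * (M / η) * N ≤ F := le_trans (mul_le_mul_of_nonneg_right (by linarith) hN0.le) hF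
  have hF0 : 0 < F := by linarith
  have hFM' : 16 ^ P * (M / η) ≤ F := by
    refine le_trans ?_ hFM
    exact le_mul_of_one_le_right hpos2.le (by linarith)
  set κ : ℝ := N * (M / (η * F)) ^ (1 / (P : ℝ)) with hκ
  have hκ0 : 0 < κ := by positivity
  set h : ℕ := max 4 (max ⌈κ⌉₊ ⌈N ^ 2 / F⌉₊) with hh
  have hh4 : 4 ≤ h := le_max_left _ _
  have hh0 : (0 : ℝ) < h := by exact_mod_cast (by omega : 0 < h)
  have hhκ : κ ≤ h := (Nat.le_ceil κ).trans (by exact_mod_cast (le_max_left _ _).trans (le_max_right _ _))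
  have hq1 : (⌈κ⌉₊ : ℝ) < κ + 1 := Nat.ceil_lt_add_one hκ0.le
  have hq2 : (⌈N ^ 2 / F⌉₊ : ℝ) < N ^ 2 / F + 1 := Nat.ceil_lt_add_one (by positivity)
  have hnf0 : 0 ≤ N ^ 2 / F := by positivity
  have hhle : (h : ℝ) ≤ 6 + κ + N ^ 2 / F := by
    rw [hh]
    push_cast
    refine max_le (by linarith) (max_le (by linarith) (by linarith))
  have hκN : (M / (η * F)) ^ (1 / (P : ℝ)) ≤ 1 / 16 := by
    have h1 : M / (η * F) ≤ (1 / 16) ^ P := by
      rw [div_le_iff₀ (by positivity), one_div, inv_pow]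
      rw [inv_mul_eq_div, le_div_iff₀ (by positivity)]
      have h2 : 16 ^ P * (M / η) * η ≤ F * η := mul_le_mul_of_nonneg_right hFM' hη.le
      have h3 : 16 ^ P * (M / η) * η = M * 16 ^ P := by field_simp
      linarith
    calc (M / (η * F)) ^ (1 / (P : ℝ)) ≤ ((1 / 16 : ℝ) ^ P) ^ (1 / (P : ℝ)) := by
          apply Real.rpow_le_rpow (by positivity) h1 (by positivity)
      _ = 1 / 16 := by
          rw [one_div (P : ℝ)]
          exact Real.pow_rpow_inv_natCast (by norm_num) (by omega)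
  have hκN2 : κ ≤ N / 16 := by
    rw [hκ]
    nlinarith
  have hFN2 : N ^ 2 / F ≤ N / 16 := by
    rw [div_le_div_iff₀ hF0 (by norm_num)]
    nlinarith
  have hhN : (h : ℝ) ≤ N / 4 := by
    rw [hh]
    push_cast
    refine max_le (by linarith) (max_le (by linarith) (by linarith))
  have hder := der_cond (by omega : 1 ≤ P) hη hN0 hF0 hM0 hh0 hhκ hhN
  set B : ℝ := min 1 (η * F / (16 * N ^ 2)) with hB
  have hB0 : 0 < B := by positivity
  have hB1 : B ≤ η * F / (16 * N ^ 2) := min_le_right _ _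
  set R : ℕ := ⌈4 * B * (h : ℝ) ^ 2⌉₊ + 1 with hR
  have hR0 : 0 < R := by omega
  have hRh : 4 * B * (h : ℝ) ^ 2 ≤ R := by
    rw [hR]
    push_cast
    have := Nat.le_ceil (4 * B * (h : ℝ) ^ 2)
    linarith
  obtain ⟨J, hJh1, hJh3, hJ3⟩ := windows hN0 (by omega : 0 < h) hhN
  obtain ⟨a, ha, b, hb, S, hS⟩ := core hB0 (q := 2 * h) J ⌈N⌉₊ hR0 hRh (by omega) le_rfl hh4 f₀
  apply build hη hN16 hF0 hFη hM0 hM hh4 hder hB0 hB1 a b (by omega : 0 < 2 * h) ha hR0 hb S hJh1 hJh3 f₀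
  refine le_trans ?_ hS
  -- the size
  set ℓ : ℝ := 1 + Real.log h with hℓ
  have hh1 : (1 : ℝ) ≤ h := by exact_mod_cast (by omega : 1 ≤ h)
  have hlog1 : 0 ≤ Real.log h := Real.log_nonneg hh1
  have hlogN : 1 ≤ Real.log N := by
    rw [Real.le_log_iff_exp_le hN0]
    have := Real.exp_one_lt_d9
    linarith
  have hℓ2 : ℓ ≤ 2 * Real.log N := by
    have : Real.log h ≤ Real.log N := Real.log_le_log hh0 (by linarith)
    linarith
  have hℓ0 : 0 ≤ ℓ := by linarith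
  have hℓB : ℓ ^ 2 ≤ (4 + 64 / η₁) * (h * B) := by
    rcases le_total 1 (η * F / (16 * N ^ 2)) with hc | hc
    · have hB' : B = 1 := min_eq_left hc
      rw [hB', mul_one]
      have e1 := log_sq_le hh1
      have e2 : 0 ≤ 64 / η₁ * h := by positivity
      nlinarith
    · have hB' : B = η * F / (16 * N ^ 2) := min_eq_right hc
      have hθ0 : 0 ≤ 1 - 1 / (P : ℝ) := by
        have : 1 / (P : ℝ) ≤ 1 := by
          rw [div_le_one hP0]
          exact_mod_cast (by omega : 1 ≤ P)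
        linarith
      have hθ1 : 1 - 1 / (P : ℝ) ≤ 1 := by
        have : 0 ≤ 1 / (P : ℝ) := by positivity
        linarith
      have e1 : (η * F) ^ (1 - 1 / (P : ℝ)) / N ≤ κ * (η * F / N ^ 2) := by
        have h1 : (η * F) ^ (1 - 1 / (P : ℝ)) = (1 / (η * F)) ^ (1 / (P : ℝ)) * (η * F) := by
          rw [Real.rpow_sub (by positivity), Real.rpow_one, Real.div_rpow (by norm_num) (by positivity),
            Real.one_rpow]
          ring
        have h2 : (1 / (η * F)) ^ (1 / (P : ℝ)) ≤ (M / (η * F)) ^ (1 / (P : ℝ)) := by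
          apply Real.rpow_le_rpow (by positivity) (by gcongr) (by positivity)
        calc (η * F) ^ (1 - 1 / (P : ℝ)) / N = (1 / (η * F)) ^ (1 / (P : ℝ)) * (η * F) / N := by rw [h1]
          _ ≤ (M / (η * F)) ^ (1 / (P : ℝ)) * (η * F) / N := by gcongr
          _ = κ * (η * F / N ^ 2) := by rw [hκ]; field_simp
      have e2 : η₁ * Real.log N ^ 2 ≤ (η * F) ^ (1 - 1 / (P : ℝ)) / N := by
        rw [le_div_iff₀ hN0, Real.mul_rpow hη.le hF0.le]
        have h3 := eta_le hη hθ0 hθ1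
        calc η₁ * Real.log N ^ 2 * N = η₁ * (N * Real.log N ^ 2) := by ring
          _ ≤ η ^ (1 - 1 / (P : ℝ)) * F ^ (1 - 1 / (P : ℝ)) := by gcongr
      have e3 : η₁ * Real.log N ^ 2 ≤ 16 * (h * B) := by
        calc η₁ * Real.log N ^ 2 ≤ κ * (η * F / N ^ 2) := e2.trans e1
          _ ≤ h * (η * F / N ^ 2) := by gcongr
          _ = 16 * (h * B) := by rw [hB']; field_simp
      have e4 : ℓ ^ 2 ≤ 4 * Real.log N ^ 2 := by nlinarith
      have e5 : Real.log N ^ 2 ≤ 16 / η₁ * (h * B) := by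
        rw [div_mul_eq_mul_div, le_div_iff₀ hη₁0]
        linarith
      have e6 : 64 / η₁ * (h * B) = 4 * (16 / η₁ * (h * B)) := by ring
      have e7 : 0 ≤ 4 * (h * B) := by positivity
      nlinarith
  set X : ℝ := 2 * h + ℓ ^ 2 / B with hX
  have hX0 : 0 < X := by positivity
  have hX1 : X ≤ K₃ * h := by
    have e1 : ℓ ^ 2 / B ≤ (4 + 64 / η₁) * h := by
      rw [div_le_iff₀ hB0]
      linarith
    have e2 : K₃ * h = 2 * h + (4 + 64 / η₁) * h := by rw [hK₃]; ring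
    linarith
  set s : ℝ := √(32 * X) with hs
  have hs0 : 0 < s := by positivity
  have hs2 : s ^ 2 = 32 * X := Real.sq_sqrt (by positivity)
  obtain ⟨m0, m1, m2, m3⟩ := size_sq (P := P) hN0 hF0
  set m : ℝ := size P N F with hm
  have hmh : m ^ 2 * h ≤ N ^ 2 * K₂ := by
    have e1 : m ^ 2 * κ ≤ N ^ 2 * (M / η) ^ (1 / (P : ℝ)) := by
      calc m ^ 2 * κ ≤ (N * F ^ (1 / (P : ℝ))) * κ := by gcongr
        _ = N ^ 2 * (F ^ (1 / (P : ℝ)) * (M / (η * F)) ^ (1 / (P : ℝ))) := by rw [hκ]; ring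
        _ = N ^ 2 * (M / η) ^ (1 / (P : ℝ)) := by
            rw [← Real.mul_rpow hF0.le (by positivity)]
            congr 2
            field_simp
    have e2 : m ^ 2 * (N ^ 2 / F) ≤ N ^ 2 := by
      calc m ^ 2 * (N ^ 2 / F) ≤ F * (N ^ 2 / F) := by gcongr
        _ = N ^ 2 := by field_simp
    calc m ^ 2 * h ≤ m ^ 2 * (6 + κ + N ^ 2 / F) := by gcongr
      _ = 6 * m ^ 2 + m ^ 2 * κ + m ^ 2 * (N ^ 2 / F) := by ring
      _ ≤ 6 * N ^ 2 + N ^ 2 * (M / η) ^ (1 / (P : ℝ)) + N ^ 2 := by linarith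
      _ = N ^ 2 * K₂ := by rw [hK₂]; ring
  set c : ℝ := √(1 / (4096 * 32 * K₃ * K₂)) with hc
  have hc0 : 0 < c := by positivity
  have hc2 : c ^ 2 = 1 / (4096 * 32 * K₃ * K₂) := Real.sq_sqrt (by positivity)
  have hfin : c * m * (64 * s) ≤ N := by
    rw [← sq_le_sq₀ (by positivity) (by positivity)]
    calc (c * m * (64 * s)) ^ 2 = c ^ 2 * m ^ 2 * (4096 * s ^ 2) := by ring
      _ = c ^ 2 * m ^ 2 * (4096 * (32 * X)) := by rw [hs2]
      _ ≤ c ^ 2 * m ^ 2 * (4096 * (32 * (K₃ * h))) := by gcongr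
      _ = c ^ 2 * (4096 * 32 * K₃) * (m ^ 2 * h) := by ring
      _ ≤ c ^ 2 * (4096 * 32 * K₃) * (N ^ 2 * K₂) := by gcongr
      _ = N ^ 2 := by
          rw [hc2]
          field_simp
  calc c * m ≤ N / (64 * s) := by
        rw [le_div_iff₀ (by positivity)]
        exact hfin
    _ = (1 / 8) * ((N / (4 * h)) * ((h : ℝ) / (2 * s))) := by
        field_simp
        ring
    _ ≤ (1 / 8) * (J * ((h : ℝ) / (2 * s))) := by gcongr

end Pool.Agent.H502.XR
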