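import Pool.Agent.H502.XR.E10

/-!
# The first range: windows, pointwise bound, one linear twist
-/

set_option autoImplicit false

open Finset

namespace Pool.Agent.H502.XR

open Pool.Agent.H502.XQ

/-- One linear twist for all windows, given the pointwise bound. -/
lemma choose_lin {H q : ℕ} (J : ℕ) (hq : 0 < q) (hH : H ≤ q) (U : ℕ → ℕ → ℂ)
    (hU2 : ∀ j, (H : ℝ) ≤ ∑ i ∈ range H, ‖U j i‖ ^ 2) {Z : ℝ} (hZ : 0 < Z)
    (hZ2 : ∀ j < J, ∀ a < q, ‖∑ i ∈ range H, U j i * E (a * ((i : ℝ) / q))‖ ≤ Z) :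
    ∃ a < q, J * (H / Z) ≤ ∑ j ∈ range J, ‖∑ i ∈ range H, U j i * E (a * ((i : ℝ) / q))‖ := by
  by_contra hcon
  push Not at hcon
  have hq1 : (0 : ℝ) < q := by exact_mod_cast hq
  set D : ℕ → ℕ → ℝ := fun j a => ‖∑ i ∈ range H, U j i * E (a * ((i : ℝ) / q))‖ with hD
  have h5 : ∀ j ∈ range J, (q : ℝ) * (H / Z) ≤ ∑ a ∈ range q, D j a := by
    intro j hj
    have e1 : ∑ a ∈ range q, D j a ^ 2 / Z ≤ ∑ a ∈ range q, D j a := by
      apply sum_le_sum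
      intro a ha
      have h1 : D j a ≤ Z := hZ2 j (mem_range.mp hj) a (mem_range.mp ha)
      have h2 : 0 ≤ D j a := norm_nonneg _
      rw [div_le_iff₀ hZ]
      nlinarith
    refine le_trans ?_ e1
    have h4 : ∑ a ∈ range q, D j a ^ 2 = q * ∑ i ∈ range H, ‖U j i‖ ^ 2 := parseval hq hH (U j)
    rw [← sum_div, h4, ← mul_div_assoc]
    have := hU2 j
    gcongr
  have h6 : (J : ℝ) * (q * (H / Z)) ≤ ∑ a ∈ range q, ∑ j ∈ range J, D j a := by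
    calc (J : ℝ) * (q * (H / Z)) = ∑ _j ∈ range J, (q : ℝ) * (H / Z) := by
          rw [sum_const, card_range, nsmul_eq_mul]
      _ ≤ ∑ j ∈ range J, ∑ a ∈ range q, D j a := sum_le_sum h5
      _ = _ := sum_comm
  have h7 : ∑ a ∈ range q, ∑ j ∈ range J, D j a < ∑ _a ∈ range q, J * (H / Z) := by
    apply sum_lt_sum_of_nonempty (nonempty_range_iff.mpr hq.ne')
    intro a ha
    exact hcon a (mem_range.mp ha)
  simp only [sum_const, card_range, nsmul_eq_mul] at h7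
  have h8 : (q : ℝ) * (J * (H / Z)) = J * (q * (H / Z)) := by ring
  linarith

/-- the second differences of the bump -/
lemma bump_diff {h : ℕ} (hh : 0 < h) {M : ℝ} (hM : ∀ x, |iteratedDeriv 2 psi x| ≤ M) (i : ℕ) :
    |psi (((i + 2 : ℕ) : ℝ) / h) - 2 * psi (((i + 1 : ℕ) : ℝ) / h) + psi ((i : ℝ) / h)| ≤ (h : ℝ)⁻¹ ^ 2 * M := by
  have hcd : ContDiff ℝ 2 (fun x : ℝ => psi ((h : ℝ)⁻¹ * (x - 0))) := by
    have h1 : (2 : WithTop ℕ∞) ≤ ((⊤ : ℕ∞) : WithTop ℕ∞) := by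
      have : ((2 : ℕ∞) : WithTop ℕ∞) ≤ ((⊤ : ℕ∞) : WithTop ℕ∞) := WithTop.coe_le_coe.mpr le_top
      exact this
    exact contDiff_piece (h : ℝ) 0 _ h1
  have h2 := second_diff' (f := fun x : ℝ => psi ((h : ℝ)⁻¹ * (x - 0))) (a := i) (b := (i : ℝ) + 2)
    (l := -((h : ℝ)⁻¹ ^ 2 * M)) (u := (h : ℝ)⁻¹ ^ 2 * M) hcd.contDiffOn ?_ (i : ℝ) le_rfl le_rfl
  · obtain ⟨h3, h4⟩ := h2
    have e0 : (h : ℝ)⁻¹ * ((i : ℝ) - 0) = (i : ℝ) / h := by rw [sub_zero, inv_mul_eq_div]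
    have e1 : (h : ℝ)⁻¹ * ((i : ℝ) + 1 - 0) = ((i + 1 : ℕ) : ℝ) / h := by
      push_cast; rw [sub_zero, inv_mul_eq_div]
    have e2 : (h : ℝ)⁻¹ * ((i : ℝ) + 2 - 0) = ((i + 2 : ℕ) : ℝ) / h := by
      push_cast; rw [sub_zero, inv_mul_eq_div]
    simp only [e0, e1, e2] at h3 h4
    rw [abs_le]
    exact ⟨h3, h4⟩
  · intro x hx
    rw [iteratedDerivWithin_eq_iteratedDeriv (n := 2) (uniqueDiffOn_Icc (by linarith))
      hcd.contDiffAt ⟨hx.1.le, hx.2.le⟩, deriv_piece]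
    have h5 := hM ((h : ℝ)⁻¹ * (x - 0))
    have h6 : 0 ≤ (h : ℝ)⁻¹ ^ 2 := by positivity
    rw [abs_le] at h5
    constructor
    · nlinarith [h5.1]
    · nlinarith [h5.2]

/-- **The pointwise bound in a window** -/
lemma window_le {N L A B M : ℝ} (hN : 0 < N) (hL : 0 < L) (hA : 0 < A) (hB : 0 < B) {h : ℕ} (hh : 0 < h)
    (hM : ∀ x, |iteratedDeriv 2 psi x| ≤ M) (hML : (h : ℝ)⁻¹ ^ 2 * M ≤ A * L)
    {f₀ : ℝ → ℝ} (hf : ContDiffOn ℝ 2 f₀ (Set.Icc N (2 * N)))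
    (hd : ∀ x ∈ Set.Ioo N (2 * N), A * L ≤ -(iteratedDerivWithin 2 f₀ (Set.Icc N (2 * N)) x) ∧
        -(iteratedDerivWithin 2 f₀ (Set.Icc N (2 * N)) x) ≤ B * L)
    {l : ℝ} (hl : 0 < l) (hl1 : l ≤ 1) (hlL : l ≤ A * L / 2)
    (m : ℕ) (hm1 : N ≤ m) (hm2 : (m : ℝ) + h ≤ 2 * N) (α ε : ℝ) (hε0 : 0 ≤ ε) (hε : ε ≤ 1 / 2) :
    ‖∑ i ∈ range h, E (f₀ ((m + i : ℕ) : ℝ) + α * i + ε * psi ((i : ℝ) / h))‖ ≤
      ((A + B) * L * h + 2) * (11 / √l) := by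
  rw [norm_sum_neg]
  apply second_test hl hl1 (by positivity)
  intro k hk
  have hk2 : ((k + 2 : ℕ) : ℝ) ≤ h := by exact_mod_cast (by omega : k + 2 ≤ h)
  push_cast at hk2
  have h1 := second_diff' (f := fun x => -(f₀ x)) (l := A * L) (u := B * L) hf.neg ?_
    ((m + k : ℕ) : ℝ) (by push_cast; have : (0 : ℝ) ≤ k := Nat.cast_nonneg _; linarith) (by push_cast; linarith)
  · have h2 := bump_diff hh hM k
    rw [abs_le] at h2
    obtain ⟨h3, h4⟩ := h1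
    obtain ⟨h5, h6⟩ := h2
    have e1 : ((m + (k + 2) : ℕ) : ℝ) = ((m + k : ℕ) : ℝ) + 2 := by push_cast; ring
    have e2 : ((m + (k + 1) : ℕ) : ℝ) = ((m + k : ℕ) : ℝ) + 1 := by push_cast; ring
    simp only [e1, e2]
    have hAL : 0 < A * L := by positivity
    set z := psi (((k + 2 : ℕ) : ℝ) / h) - 2 * psi (((k + 1 : ℕ) : ℝ) / h) + psi ((k : ℝ) / h) with hz
    have h7 : ε * z ≤ A * L / 2 := by nlinarith
    have h8 : -(A * L / 2) ≤ ε * z := by nlinarith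
    have e3 : -(f₀ (((m + k : ℕ) : ℝ) + 2) + α * ((k + 2 : ℕ) : ℝ) + ε * psi (((k + 2 : ℕ) : ℝ) / h)) -
        2 * -(f₀ (((m + k : ℕ) : ℝ) + 1) + α * ((k + 1 : ℕ) : ℝ) + ε * psi (((k + 1 : ℕ) : ℝ) / h)) +
        -(f₀ ((m + k : ℕ) : ℝ) + α * (k : ℝ) + ε * psi ((k : ℝ) / h)) =
        (-(f₀ (((m + k : ℕ) : ℝ) + 2)) - 2 * -(f₀ (((m + k : ℕ) : ℝ) + 1)) + -(f₀ ((m + k : ℕ) : ℝ))) - ε * z := by
      rw [hz]
      push_cast
      ring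
    rw [e3]
    constructor
    · linarith
    · nlinarith
  · intro z hz
    have e : iteratedDerivWithin 2 (fun x => - f₀ x) (Set.Icc N (2 * N)) z =
        - iteratedDerivWithin 2 f₀ (Set.Icc N (2 * N)) z :=
      iteratedDerivWithin_neg (n := 2) (f := f₀) (s := Set.Icc N (2 * N)) (x := z)
    rw [e]
    exact hd z hz

end Pool.Agent.H502.XR
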