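import Pool.Agent.H502.XR.E11

/-!
# The first range
-/

set_option autoImplicit false

open Finset

namespace Pool.Agent.H502.XR

open Pool.Agent.H502.XQ

/-- **The first range without the logarithm** -/
theorem first_range (P : ℕ) (hP : 2 ≤ P) (A B K η : ℝ) (hA : 0 < A) (hB : 0 < B) (hK : 1 ≤ K) (hη : 0 < η)
    (hηA : η ≤ A) :
    ∃ c : ℝ, 0 < c ∧ ∃ N₀ : ℝ, 16 ≤ N₀ ∧ ∀ N F : ℝ, N₀ ≤ N → N₀ * N ≤ F →
      F ^ (1 - 1 / (P : ℝ)) ≤ K * N → ∀ f₀ : ℝ → ℝ, ContDiffOn ℝ 2 f₀ (Set.Icc N (2 * N)) →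
      (∀ x ∈ Set.Ioo N (2 * N), A * (F / N ^ 2) ≤ -(iteratedDerivWithin 2 f₀ (Set.Icc N (2 * N)) x) ∧
        -(iteratedDerivWithin 2 f₀ (Set.Icc N (2 * N)) x) ≤ B * (F / N ^ 2)) →
      ∃ w : ℝ → ℝ, ContDiff ℝ ((⊤ : ℕ∞) : WithTop ℕ∞) w ∧
        (∀ p ≤ P, ∀ x ∈ Set.Icc N (2 * N), |iteratedDeriv p w x| ≤ η * F / N ^ p) ∧
        ∃ N' : ℝ, N ≤ N' ∧ N' ≤ 2 * N ∧
          c * √F ≤ ‖∑ n ∈ Icc ⌈N⌉₊ ⌊N'⌋₊, E (f₀ n + w n)‖ := by
  obtain ⟨M, hM1, hM⟩ := psi_bound P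
  have hM0 : 0 < M := by linarith
  have hP0 : (0 : ℝ) < P := by exact_mod_cast (by omega : 0 < P)
  have hP2 : (2 : ℝ) ≤ P := by exact_mod_cast hP
  have hK0 : 0 < K := by linarith
  set K₁ : ℝ := 6 * K ^ 2 + K * (M / η) ^ (1 / (P : ℝ)) + 1 with hK₁
  have hK₁0 : 0 < K₁ := by positivity
  set a₀ : ℝ := A / (2 * K ^ 2 * (1 + A)) with ha₀
  have ha₀0 : 0 < a₀ := by positivity
  set Z₁ : ℝ := 22 * ((A + B) * K₁ + 2) / √a₀ with hZ₁
  have hZ₁0 : 0 < Z₁ := by positivity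
  refine ⟨1 / (32 * Z₁), by positivity, 16 + 16 / η + 16 ^ P * (M / η), by
    have : 0 < 16 / η + 16 ^ P * (M / η) := by positivity
    linarith, ?_⟩
  intro N F hN hF hFK f₀ hf₀ hd
  have hpos1 : 0 < 16 / η := by positivity
  have hpos2 : 0 < 16 ^ P * (M / η) := by positivity
  have hN16 : 16 ≤ N := by linarith
  have hN0 : 0 < N := by linarith
  have hF16 : 16 * N ≤ F := le_trans (mul_le_mul_of_nonneg_right (by linarith) hN0.le) hF
  have hFη : 16 / η * N ≤ F := le_trans (mul_le_mul_of_nonneg_right (by linarith) hN0.le) hF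
  have hFM : 16 ^ P * (M / η) * N ≤ F := le_trans (mul_le_mul_of_nonneg_right (by linarith) hN0.le) hF
  have hF0 : 0 < F := by linarith
  have hF1 : 1 ≤ F := by linarith
  have hFM' : 16 ^ P * (M / η) ≤ F := by
    refine le_trans ?_ hFM
    exact le_mul_of_one_le_right hpos2.le (by linarith)
  set κ : ℝ := N * (M / (η * F)) ^ (1 / (P : ℝ)) with hκ
  have hκ0 : 0 < κ := by positivity
  set h : ℕ := max 4 (max ⌈κ⌉₊ ⌈N ^ 2 / F⌉₊) with hh
  have hh4 : 4 ≤ h := le_max_left _ _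
  have hh0' : 0 < h := by omega
  have hh0 : (0 : ℝ) < h := by exact_mod_cast hh0'
  have hhκ : κ ≤ h := (Nat.le_ceil κ).trans (by exact_mod_cast (le_max_left _ _).trans (le_max_right _ _))
  have hq1 : (⌈κ⌉₊ : ℝ) < κ + 1 := Nat.ceil_lt_add_one hκ0.le
  have hq2 : (⌈N ^ 2 / F⌉₊ : ℝ) < N ^ 2 / F + 1 := Nat.ceil_lt_add_one (by positivity)
  have hnf0 : 0 < N ^ 2 / F := by positivity
  have hhle : (h : ℝ) ≤ 6 + κ + N ^ 2 / F := by
    rw [hh]
    push_cast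
    refine max_le (by linarith) (max_le (by linarith) (by linarith))
  have hκN : (M / (η * F)) ^ (1 / (P : ℝ)) ≤ 1 / 16 := by
    have h1 : M / (η * F) ≤ (1 / 16) ^ P := by
      rw [div_le_iff₀ (by positivity), one_div, inv_pow]
      rw [inv_mul_eq_div, le_div_iff₀ (by positivity)]
      have h2 : 16 ^ P * (M / η) * η ≤ F * η := mul_le_mul_of_nonneg_right hFM' hη.le
      have h3 : 16 ^ P * (M / η) * η = M * 16 ^ P := by field_simp
      linarith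
    calc (M / (η * F)) ^ (1 / (P : ℝ)) ≤ ((1 / 16 : ℝ) ^ P) ^ (1 / (P : ℝ)) := by
          apply Real.rpow_le_rpow (by positivity) h1 (by positivity)
      _ = 1 / 16 := by
          rw [one_div (P : ℝ)]
          exact Real.pow_rpow_inv_natCast (by norm_num) (by omega)
  have hκN2 : κ ≤ N / 16 := by
    rw [hκ]
    nlinarith
  have hFN2 : N ^ 2 / F ≤ N / 16 := by
    rw [div_le_div_iff₀ hF0 (by norm_num)]
    nlinarith
  have hhN : (h : ℝ) ≤ N / 4 := by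
    rw [hh]
    push_cast
    refine max_le (by linarith) (max_le (by linarith) (by linarith))
  have hder := der_cond (by omega : 1 ≤ P) hη hN0 hF0 hM0 hh0 hhκ hhN
  obtain ⟨J, hJh1, hJh3, hJ3⟩ := windows hN0 hh0' hhN
  -- sizes
  set L : ℝ := F / N ^ 2 with hL
  have hL0 : 0 < L := by positivity
  have hsF : √F ≤ K * N := by
    refine le_trans ?_ hFK
    rw [Real.sqrt_eq_rpow]
    apply Real.rpow_le_rpow_of_exponent_le hF1
    have : 1 / (P : ℝ) ≤ 1 / 2 := by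
      apply one_div_le_one_div_of_le (by norm_num) hP2
    linarith
  have hFK2 : F ≤ K ^ 2 * N ^ 2 := by
    have h1 : √F ^ 2 = F := Real.sq_sqrt hF0.le
    have h2 : 0 ≤ √F := Real.sqrt_nonneg _
    rw [← h1, ← mul_pow]
    exact pow_le_pow_left₀ h2 hsF 2
  have hLK : L ≤ K ^ 2 := by
    rw [hL, div_le_iff₀ (by positivity)]
    exact hFK2
  have hNF : 1 ≤ K ^ 2 * (N ^ 2 / F) := by
    rw [← mul_div_assoc, le_div_iff₀ hF0]
    linarith
  have hκK : κ ≤ K * (M / η) ^ (1 / (P : ℝ)) * (N ^ 2 / F) := by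
    have e1 : (M / (η * F)) ^ (1 / (P : ℝ)) = (M / η) ^ (1 / (P : ℝ)) * (F ^ (1 - 1 / (P : ℝ)) / F) := by
      rw [Real.rpow_sub hF0, Real.rpow_one, ← div_div, Real.div_rpow (by positivity) hF0.le]
      field_simp
    rw [hκ, e1]
    calc N * ((M / η) ^ (1 / (P : ℝ)) * (F ^ (1 - 1 / (P : ℝ)) / F)) ≤
        N * ((M / η) ^ (1 / (P : ℝ)) * (K * N / F)) := by gcongr
      _ = K * (M / η) ^ (1 / (P : ℝ)) * (N ^ 2 / F) := by ring
  have hhK : (h : ℝ) ≤ K₁ * (N ^ 2 / F) := by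
    have e1 : K₁ * (N ^ 2 / F) = 6 * (K ^ 2 * (N ^ 2 / F)) + K * (M / η) ^ (1 / (P : ℝ)) * (N ^ 2 / F) +
      N ^ 2 / F := by rw [hK₁]; ring
    linarith
  have hLh : L * h ≤ K₁ := by
    calc L * h ≤ L * (K₁ * (N ^ 2 / F)) := by gcongr
      _ = K₁ := by rw [hL]; field_simp
  have hsL : √L = √F / N := by
    rw [hL, Real.sqrt_div hF0.le, Real.sqrt_sq hN0.le]
  have hsF0 : 0 < √F := Real.sqrt_pos.mpr hF0
  set l : ℝ := a₀ * L with hl
  have hl0 : 0 < l := by positivity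
  have hl1 : l ≤ 1 := by
    calc l ≤ a₀ * K ^ 2 := by rw [hl]; gcongr
      _ = A / (2 * (1 + A)) := by rw [ha₀]; field_simp
      _ ≤ 1 := by rw [div_le_one (by positivity)]; linarith
  have hlL : l ≤ A * L / 2 := by
    have e1 : a₀ ≤ A / 2 := by
      rw [ha₀]
      apply div_le_div_of_nonneg_left hA.le (by norm_num)
      have : 1 ≤ K ^ 2 := one_le_pow₀ hK
      nlinarith
    rw [hl]
    nlinarith
  set Z : ℝ := Z₁ * (N / √F) with hZ
  have hZ0 : 0 < Z := by positivity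
  have hZ2 : ((A + B) * L * h + 2) * (11 / √l) ≤ Z / 2 := by
    have e1 : √l = √a₀ * (√F / N) := by rw [hl, Real.sqrt_mul ha₀0.le, hsL]
    have e2 : (A + B) * L * h ≤ (A + B) * K₁ := by
      rw [mul_assoc]
      gcongr
    calc ((A + B) * L * h + 2) * (11 / √l) ≤ ((A + B) * K₁ + 2) * (11 / √l) := by gcongr
      _ = Z / 2 := by
          rw [e1, hZ, hZ₁]
          field_simp
          ring
  have hM2 : ∀ x, |iteratedDeriv 2 psi x| ≤ M := fun x => hM 2 hP x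
  have hML : (h : ℝ)⁻¹ ^ 2 * M ≤ A * L := by
    refine (hder 2 hP).trans ?_
    rw [hL, mul_div_assoc]
    gcongr
  have hN1 : (⌈N⌉₊ : ℝ) < N + 1 := Nat.ceil_lt_add_one hN0.le
  obtain ⟨a, ha, hab⟩ := choose_lin (H := h) (q := h) J hh0' le_rfl
    (fun j i => (E (psi ((i : ℝ) / h) / 2) - 1) * E (f₀ ((⌈N⌉₊ + (j * h + i) : ℕ) : ℝ)))
    (fun j => by
      refine (sum_u hh4).trans (le_of_eq ?_)
      apply sum_congr rfl
      intro i _
      rw [norm_mul, norm_E, mul_one]) hZ0 (fun j hj a _ => by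
      have hm1 : N ≤ ((⌈N⌉₊ + j * h : ℕ) : ℝ) := by
        push_cast
        have := Nat.le_ceil N
        have : (0 : ℝ) ≤ (j : ℝ) * h := by positivity
        linarith
      have hm2 : ((⌈N⌉₊ + j * h : ℕ) : ℝ) + h ≤ 2 * N := by
        push_cast
        have e1 : ((j : ℝ) + 1) * h ≤ J * h := by
          have : (j : ℝ) + 1 ≤ J := by exact_mod_cast hj
          gcongr
        linarith
      have w1 := window_le hN0 hL0 hA hB hh0' hM2 hML hf₀ hd hl0 hl1 hlL (⌈N⌉₊ + j * h) hm1 hm2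
        ((a : ℝ) / (h : ℝ)) (1 / 2) (by norm_num) le_rfl
      have w2 := window_le hN0 hL0 hA hB hh0' hM2 hML hf₀ hd hl0 hl1 hlL (⌈N⌉₊ + j * h) hm1 hm2
        ((a : ℝ) / (h : ℝ)) 0 le_rfl (by norm_num)
      have e2 : ∑ i ∈ range h, (E (psi ((i : ℝ) / h) / 2) - 1) * E (f₀ ((⌈N⌉₊ + (j * h + i) : ℕ) : ℝ)) *
          E (a * ((i : ℝ) / (h : ℝ))) =
          ∑ i ∈ range h, E (f₀ ((⌈N⌉₊ + j * h + i : ℕ) : ℝ) + (a : ℝ) / (h : ℝ) * i + 1 / 2 * psi ((i : ℝ) / h)) -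
          ∑ i ∈ range h, E (f₀ ((⌈N⌉₊ + j * h + i : ℕ) : ℝ) + (a : ℝ) / (h : ℝ) * i + 0 * psi ((i : ℝ) / h)) := by
        rw [← sum_sub_distrib]
        apply sum_congr rfl
        intro i _
        rw [← add_assoc, zero_mul, add_zero, E_add, E_add, sub_mul, sub_mul, one_mul]
        rw [show (1 / 2 : ℝ) * psi ((i : ℝ) / h) = psi ((i : ℝ) / h) / 2 by ring,
          show (a : ℝ) * ((i : ℝ) / (h : ℝ)) = (a : ℝ) / (h : ℝ) * i by ring]
        ring
      rw [e2]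
      refine (norm_sub_le _ _).trans ?_
      linarith)
  have hB₀ : 0 < η * F / (16 * N ^ 2) := by positivity
  obtain ⟨S, hS⟩ := core_gen (V := J * (h / Z)) (B := η * F / (16 * N ^ 2)) (R := 1) (h := h) (q := h) J ⌈N⌉₊ hh0'
    f₀ a 0 (by
      refine hab.trans (le_of_eq ?_)
      apply sum_congr rfl
      intro j _
      congr 1
      apply sum_congr rfl
      intro i _
      rw [Nat.cast_zero, zero_mul, E_zero, mul_one])
  apply build hη hN16 hF0 hFη hM0 hM hh4 hder hB₀ le_rfl a 0 hh0' ha one_pos one_pos S hJh1 hJh3 f₀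
  refine le_trans ?_ hS
  have hJh : N / 4 ≤ J * h := by
    calc N / 4 = N / (4 * h) * h := by field_simp
      _ ≤ J * h := by gcongr
  calc 1 / (32 * Z₁) * √F = 1 / 8 * (N / 4 / Z) := by
        rw [hZ]
        field_simp
        norm_num
    _ ≤ 1 / 8 * (J * h / Z) := by gcongr
    _ = 1 / 8 * (J * (h / Z)) := by ring

end Pool.Agent.H502.XR
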