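import Pool.Agent.H502.XR.E10

/-!
# From perturbations of the model to the class
-/

set_option autoImplicit false

open Finset

namespace Pool.Agent.H502.XR

open Pool.Agent.H502.XQ

lemma class_of {P : ℕ} {s η δ N y : ℝ} (hs : 0 < s) (hη : 0 < η) (hN0 : 0 < N) (hy : 0 < y)
    (hδ : δ ≤ η * ((min s 1) ^ P * 2 ^ (-s - (P : ℝ))))
    {w : ℝ → ℝ} (hw : ContDiff ℝ ((⊤ : ℕ∞) : WithTop ℕ∞) w)
    (hwd : ∀ p ≤ P, ∀ x ∈ Set.Icc N (2 * N), |iteratedDeriv p w x| ≤ δ * (y * N ^ (-s) * N) / N ^ p) :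
    ClassP N P s y η (fun x => model s y x + w x) := by
  have hm0 : 0 < min s 1 := by positivity
  have hNs : 0 < N ^ (-s) := Real.rpow_pos_of_pos hN0 _
  refine ⟨?_, ?_⟩
  · intro x hx
    exact ((model_contDiffAt s y (hN0.trans_le hx.1) _).add hw.contDiffAt).contDiffWithinAt
  · intro p hp x hx
    have hx0 : 0 < x := hN0.trans_le hx.1
    have hle : ((p + 1 : ℕ) : WithTop ℕ∞) ≤ ((⊤ : ℕ∞) : WithTop ℕ∞) := by exact_mod_cast le_top
    have hcw : ContDiffAt ℝ ((p + 1 : ℕ) : WithTop ℕ∞) w x := hw.contDiffAt.of_le hle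
    have hcm : ContDiffAt ℝ ((p + 1 : ℕ) : WithTop ℕ∞) (model s y) x := model_contDiffAt s y hx0 _
    rw [iteratedDerivWithin_eq_iteratedDeriv (uniqueDiffOn_Icc (by linarith)) (hcm.add hcw) hx,
      iteratedDeriv_fun_add hcm hcw, model_iter s y p x hx0, add_sub_cancel_left]
    refine (hwd (p + 1) (by omega) x hx).trans ?_
    have h1 : δ * (y * N ^ (-s) * N) / N ^ (p + 1) = δ * (y * N ^ (-s - (p : ℝ))) := by
      rw [Real.rpow_sub hN0, Real.rpow_natCast]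
      field_simp
      ring
    rw [h1]
    have h2 : (2 * N) ^ (-s - (p : ℝ)) ≤ x ^ (-s - (p : ℝ)) := by
      apply Real.rpow_le_rpow_of_nonpos hx0 hx.2
      have : (0 : ℝ) ≤ p := Nat.cast_nonneg _
      linarith
    rw [Real.mul_rpow (by norm_num) hN0.le] at h2
    have h3 : (2 : ℝ) ^ (-s - (P : ℝ)) ≤ 2 ^ (-s - (p : ℝ)) := by
      apply Real.rpow_le_rpow_of_exponent_le (by norm_num)
      have : (p : ℝ) ≤ P := by exact_mod_cast hp.le
      linarith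
    have h4 := poch_ge hs hp.le
    have hpoch : 0 < poch s p := lt_of_lt_of_le (by positivity) h4
    have hNp : 0 < N ^ (-s - (p : ℝ)) := Real.rpow_pos_of_pos hN0 _
    calc δ * (y * N ^ (-s - (p : ℝ))) ≤ (η * ((min s 1) ^ P * 2 ^ (-s - (P : ℝ)))) * (y * N ^ (-s - (p : ℝ))) := by
          gcongr
      _ ≤ (η * (poch s p * 2 ^ (-s - (p : ℝ)))) * (y * N ^ (-s - (p : ℝ))) := by gcongr
      _ = η * (poch s p * y * (2 ^ (-s - (p : ℝ)) * N ^ (-s - (p : ℝ)))) := by ring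
      _ ≤ η * (poch s p * y * x ^ (-s - (p : ℝ))) := by gcongr

/-- the second derivative of the model -/
lemma model_second {s : ℝ} (hs : 0 < s) {N y : ℝ} (hN0 : 0 < N) (hy : 0 < y) :
    ∀ x ∈ Set.Ioo N (2 * N),
      s * 2 ^ (-s - 1) * (y * N ^ (-s) * N / N ^ 2) ≤ -(iteratedDerivWithin 2 (model s y) (Set.Icc N (2 * N)) x) ∧
        -(iteratedDerivWithin 2 (model s y) (Set.Icc N (2 * N)) x) ≤ s * (y * N ^ (-s) * N / N ^ 2) := by
  intro x hx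
  have hx0 : 0 < x := hN0.trans hx.1
  have hcm : ContDiffAt ℝ (2 : WithTop ℕ∞) (model s y) x := model_contDiffAt s y hx0 _
  rw [iteratedDerivWithin_eq_iteratedDeriv (n := 2) (uniqueDiffOn_Icc (by linarith)) (by exact_mod_cast hcm)
    ⟨hx.1.le, hx.2.le⟩, model_iter s y 1 x hx0]
  have hp : poch s 1 = s := by simp [poch]
  rw [hp]
  have h3 : N ^ (-s - 1) = N ^ (-s) / N := by
    rw [Real.rpow_sub hN0, Real.rpow_one]
  have h4 : y * N ^ (-s) * N / N ^ 2 = y * N ^ (-s - 1) := by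
    rw [h3]; field_simp
  rw [h4]
  have h5 : x ^ (-s - 1) ≤ N ^ (-s - 1) := Real.rpow_le_rpow_of_nonpos hN0 hx.1.le (by linarith)
  have h6 : (2 * N) ^ (-s - 1) ≤ x ^ (-s - 1) := Real.rpow_le_rpow_of_nonpos hx0 hx.2.le (by linarith)
  rw [Real.mul_rpow (by norm_num) hN0.le] at h6
  have hsy : 0 < s * y := by positivity
  have h8 : s * y * (2 ^ (-s - 1) * N ^ (-s - 1)) ≤ s * y * x ^ (-s - 1) := mul_le_mul_of_nonneg_left h6 hsy.le
  have h9 : s * y * x ^ (-s - 1) ≤ s * y * N ^ (-s - 1) := mul_le_mul_of_nonneg_left h5 hsy.le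
  push_cast
  constructor
  · nlinarith
  · nlinarith

/-- **The class: the second range without the logarithm** -/
theorem class_nolog (P : ℕ) (hP : 2 ≤ P) (s η : ℝ) (hs : 0 < s) (hη : 0 < η) :
    ∃ c : ℝ, 0 < c ∧ ∃ N₀ : ℝ, 16 ≤ N₀ ∧ ∀ N y : ℝ, N₀ ≤ N → N₀ ≤ y * N ^ (-s) →
      N * Real.log N ^ 2 ≤ (y * N ^ (-s) * N) ^ (1 - 1 / (P : ℝ)) →
      ∃ f : ℝ → ℝ, ClassP N P s y η f ∧ ∃ N' : ℝ, N ≤ N' ∧ N' ≤ 2 * N ∧
        c * size P N (y * N ^ (-s) * N) ≤ ‖∑ n ∈ Icc ⌈N⌉₊ ⌊N'⌋₊, E (f n)‖ := by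
  have hm0 : 0 < min s 1 := by positivity
  obtain ⟨c, hc, N₀, hN₀, h⟩ := main_nolog P hP (η * ((min s 1) ^ P * 2 ^ (-s - (P : ℝ)))) (by positivity)
  refine ⟨c, hc, N₀, hN₀, ?_⟩
  intro N y hN hL hlog
  have hN0 : 0 < N := by linarith
  have hNs : 0 < N ^ (-s) := Real.rpow_pos_of_pos hN0 _
  have hy : 0 < y := pos_of_mul_pos_left (by linarith : 0 < y * N ^ (-s)) hNs.le
  obtain ⟨w, hw, hwd, N', h1, h2, h3⟩ := h N (y * N ^ (-s) * N) hN (mul_le_mul_of_nonneg_right hL hN0.le) hlog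
    (model s y)
  exact ⟨_, class_of hs hη hN0 hy le_rfl hw hwd, N', h1, h2, h3⟩

end Pool.Agent.H502.XR
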