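import Pool.Agent.H502.XR.E12
import Pool.Agent.H502.XR.E13

/-!
# The exact order of the largest sums in the class
-/

set_option autoImplicit false

open Finset

namespace Pool.Agent.H502.XR

open Pool.Agent.H502.XQ

/-- **The class: the first range without the logarithm** -/
theorem class_first (P : ℕ) (hP : 2 ≤ P) (s η K : ℝ) (hs : 0 < s) (hη : 0 < η) (hK : 1 ≤ K) :
    ∃ c : ℝ, 0 < c ∧ ∃ N₀ : ℝ, 16 ≤ N₀ ∧ ∀ N y : ℝ, N₀ ≤ N → N₀ ≤ y * N ^ (-s) →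
      (y * N ^ (-s) * N) ^ (1 - 1 / (P : ℝ)) ≤ K * N →
      ∃ f : ℝ → ℝ, ClassP N P s y η f ∧ ∃ N' : ℝ, N ≤ N' ∧ N' ≤ 2 * N ∧
        c * √(y * N ^ (-s) * N) ≤ ‖∑ n ∈ Icc ⌈N⌉₊ ⌊N'⌋₊, E (f n)‖ := by
  have hm0 : 0 < min s 1 := by positivity
  obtain ⟨c, hc, N₀, hN₀, h⟩ := first_range P hP (s * 2 ^ (-s - 1)) s K
    (min (s * 2 ^ (-s - 1)) (η * ((min s 1) ^ P * 2 ^ (-s - (P : ℝ))))) (by positivity) hs hK (by positivity)
    (min_le_left _ _)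
  refine ⟨c, hc, N₀, hN₀, ?_⟩
  intro N y hN hL hF
  have hN0 : 0 < N := by linarith
  have hNs : 0 < N ^ (-s) := Real.rpow_pos_of_pos hN0 _
  have hy : 0 < y := pos_of_mul_pos_left (by linarith : 0 < y * N ^ (-s)) hNs.le
  have hmc : ContDiffOn ℝ 2 (model s y) (Set.Icc N (2 * N)) := by
    intro x hx
    exact (model_contDiffAt s y (hN0.trans_le hx.1) _).contDiffWithinAt
  obtain ⟨w, hw, hwd, N', h1, h2, h3⟩ := h N (y * N ^ (-s) * N) hN (mul_le_mul_of_nonneg_right hL hN0.le) hF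
    (model s y) hmc (model_second hs hN0 hy)
  exact ⟨_, class_of hs hη hN0 hy (min_le_right _ _) hw hwd, N', h1, h2, h3⟩

lemma min_le_size_two {N F : ℝ} (hN : 0 < N) (hF : 0 < F) : size 2 N F = min (√F) N := by
  unfold size
  have h1 : min (√F) N ≤ √N * F ^ (1 / (2 * ((2 : ℕ) : ℝ))) := by
    have e0 : 0 ≤ min (√F) N := by positivity
    rw [← sq_le_sq₀ e0 (by positivity)]
    have e1 : (√N * F ^ (1 / (2 * ((2 : ℕ) : ℝ)))) ^ 2 = N * √F := by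
      rw [mul_pow, Real.sq_sqrt hN.le, ← Real.rpow_natCast, ← Real.rpow_mul hF.le, Real.sqrt_eq_rpow]
      norm_num
    rw [e1, sq, mul_comm N]
    exact mul_le_mul (min_le_left _ _) (min_le_right _ _) e0 (Real.sqrt_nonneg _)
  apply le_antisymm
  · exact le_min ((min_le_left _ _).trans (min_le_left _ _)) (min_le_right _ _)
  · exact le_min (le_min (min_le_left _ _) h1) (min_le_right _ _)

/-- **`P = 2`: the exact order is `min (√F) N`** -/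
theorem lower_two (s η : ℝ) (hs : 0 < s) (hη : 0 < η) :
    ∃ c : ℝ, 0 < c ∧ ∃ N₀ : ℝ, 16 ≤ N₀ ∧ ∀ N y : ℝ, N₀ ≤ N → N₀ ≤ y * N ^ (-s) →
      ∃ f : ℝ → ℝ, ClassP N 2 s y η f ∧ ∃ N' : ℝ, N ≤ N' ∧ N' ≤ 2 * N ∧
        c * min (√(y * N ^ (-s) * N)) N ≤ ‖∑ n ∈ Icc ⌈N⌉₊ ⌊N'⌋₊, E (f n)‖ := by
  obtain ⟨c₁, hc₁, N₁, hN₁, h₁⟩ := class_main2 2 (by norm_num) s η hs hη
  obtain ⟨c₂, hc₂, N₂, hN₂, h₂⟩ := class_first 2 le_rfl s η (√N₁) hs hη (Real.one_le_sqrt.mpr (by linarith))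
  refine ⟨min c₁ c₂, lt_min hc₁ hc₂, max N₁ N₂, le_trans hN₁ (le_max_left _ _), ?_⟩
  intro N y hN hL
  have hNa : N₁ ≤ N := (le_max_left _ _).trans hN
  have hNb : N₂ ≤ N := (le_max_right _ _).trans hN
  have hN0 : 0 < N := by linarith
  have hL0 : 0 < y * N ^ (-s) := by
    have := (le_max_left N₁ N₂).trans hL
    linarith
  have hF0 : 0 < y * N ^ (-s) * N := by positivity
  have hm0 : 0 ≤ min (√(y * N ^ (-s) * N)) N := by positivity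
  by_cases hbig : N₁ * N ≤ y * N ^ (-s)
  · obtain ⟨f, hf, -, N', h1, h2, -, h4⟩ := h₁ N y hNa ((le_max_left _ _).trans hL)
    have h5 := h4 hbig
    rw [min_le_size_two hN0 hF0] at h5
    exact ⟨f, hf, N', h1, h2, (mul_le_mul_of_nonneg_right (min_le_left _ _) hm0).trans h5⟩
  · push Not at hbig
    obtain ⟨f, hf, N', h1, h2, h3⟩ := h₂ N y hNb ((le_max_right _ _).trans hL) (by
      have e1 : (1 : ℝ) - 1 / ((2 : ℕ) : ℝ) = 1 / 2 := by norm_num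
      rw [e1, ← Real.sqrt_eq_rpow]
      calc √(y * N ^ (-s) * N) ≤ √(N₁ * N * N) := by
            apply Real.sqrt_le_sqrt
            gcongr
        _ = √N₁ * N := by
            rw [mul_assoc, Real.sqrt_mul (by linarith), Real.sqrt_mul_self hN0.le])
    refine ⟨f, hf, N', h1, h2, le_trans ?_ h3⟩
    calc min c₁ c₂ * min (√(y * N ^ (-s) * N)) N ≤ c₂ * √(y * N ^ (-s) * N) :=
          mul_le_mul (min_le_right _ _) (min_le_left _ _) hm0 hc₂.le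
      _ = _ := rfl

lemma size_le_sqrt {P : ℕ} {N F : ℝ} : size P N F ≤ √F := (min_le_left _ _).trans (min_le_left _ _)

/-- **The lower bound without the logarithm, all `P ≥ 2`** -/
theorem lower_all (P : ℕ) (hP : 2 ≤ P) (s η : ℝ) (hs : 0 < s) (hη : 0 < η) :
    ∃ c : ℝ, 0 < c ∧ ∃ N₀ : ℝ, 16 ≤ N₀ ∧ ∀ N y : ℝ, N₀ ≤ N → N₀ ≤ y * N ^ (-s) →
      ((y * N ^ (-s) * N) ^ (1 - 1 / (P : ℝ)) ≤ N ∨
        N * Real.log N ^ 2 ≤ (y * N ^ (-s) * N) ^ (1 - 1 / (P : ℝ))) →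
      ∃ f : ℝ → ℝ, ClassP N P s y η f ∧ ∃ N' : ℝ, N ≤ N' ∧ N' ≤ 2 * N ∧
        c * size P N (y * N ^ (-s) * N) ≤ ‖∑ n ∈ Icc ⌈N⌉₊ ⌊N'⌋₊, E (f n)‖ := by
  obtain ⟨c₁, hc₁, N₁, hN₁, h₁⟩ := class_nolog P hP s η hs hη
  obtain ⟨c₂, hc₂, N₂, hN₂, h₂⟩ := class_first P hP s η 1 hs hη le_rfl
  refine ⟨min c₁ c₂, lt_min hc₁ hc₂, max N₁ N₂, le_trans hN₁ (le_max_left _ _), ?_⟩
  intro N y hN hL hcase
  have hNa : N₁ ≤ N := (le_max_left _ _).trans hN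
  have hNb : N₂ ≤ N := (le_max_right _ _).trans hN
  have hN0 : 0 < N := by linarith
  have hL0 : 0 < y * N ^ (-s) := by
    have := (le_max_left N₁ N₂).trans hL
    linarith
  have hF0 : 0 < y * N ^ (-s) * N := by positivity
  have hs0 : 0 ≤ size P N (y * N ^ (-s) * N) := (size_sq hN0 hF0).1
  rcases hcase with hc | hc
  · obtain ⟨f, hf, N', h1, h2, h3⟩ := h₂ N y hNb ((le_max_right _ _).trans hL) (by rwa [one_mul])
    refine ⟨f, hf, N', h1, h2, le_trans ?_ h3⟩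
    exact mul_le_mul (min_le_right _ _) size_le_sqrt hs0 hc₂.le
  · obtain ⟨f, hf, N', h1, h2, h3⟩ := h₁ N y hNa ((le_max_left _ _).trans hL) hc
    exact ⟨f, hf, N', h1, h2, (mul_le_mul_of_nonneg_right (min_le_left _ _) hs0).trans h3⟩

lemma pow_third {a b : ℝ} (ha : 0 < a) (hb : 0 < b) (h : a ^ 3 ≤ b ^ 2) : √a ≤ b ^ (1 / 3 : ℝ) := by
  have h1 : √a = (a ^ 3) ^ (1 / 6 : ℝ) := by
    rw [Real.sqrt_eq_rpow, ← Real.rpow_natCast, ← Real.rpow_mul ha.le]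
    norm_num
  have h2 : b ^ (1 / 3 : ℝ) = (b ^ 2) ^ (1 / 6 : ℝ) := by
    rw [← Real.rpow_natCast, ← Real.rpow_mul hb.le]
    norm_num
  rw [h1, h2]
  exact Real.rpow_le_rpow (by positivity) h (by norm_num)

lemma pow_third' {a b : ℝ} (ha : 0 < a) (hb : 0 < b) (h : b ^ 2 ≤ a ^ 3) : b ^ (1 / 3 : ℝ) ≤ √a := by
  have h1 : √a = (a ^ 3) ^ (1 / 6 : ℝ) := by
    rw [Real.sqrt_eq_rpow, ← Real.rpow_natCast, ← Real.rpow_mul ha.le]
    norm_num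
  have h2 : b ^ (1 / 3 : ℝ) = (b ^ 2) ^ (1 / 6 : ℝ) := by
    rw [← Real.rpow_natCast, ← Real.rpow_mul hb.le]
    norm_num
  rw [h1, h2]
  exact Real.rpow_le_rpow (by positivity) h (by norm_num)

lemma sqrt_split {F : ℝ} (hF : 0 < F) : √F = F ^ (1 / 3 : ℝ) * F ^ (1 / 6 : ℝ) := by
  rw [Real.sqrt_eq_rpow, ← Real.rpow_add hF]
  norm_num

lemma size_three {N F : ℝ} : size 3 N F = min (min (√F) (√N * F ^ (1 / 6 : ℝ))) N := by
  unfold size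
  norm_num

/-- **`P = 3`: the upper bound** -/
theorem upper_three (s : ℝ) (hs : 0 < s) : ∃ C : ℝ, 0 < C ∧ ∀ N y : ℝ, 1 ≤ N → 1 ≤ y * N ^ (-s) →
    ∀ P : ℕ, 3 ≤ P → ∀ η : ℝ, η ≤ 1 / 2 → ∀ f : ℝ → ℝ, ClassP N P s y η f →
      ∀ N' : ℝ, N ≤ N' → N' ≤ 2 * N →
        ‖∑ n ∈ Icc ⌈N⌉₊ ⌊N'⌋₊, E (f n)‖ ≤ C * size 3 N (y * N ^ (-s) * N) := by
  obtain ⟨C₁, hC₁, h₁⟩ := class_upper s hs
  obtain ⟨C₂, hC₂, h₂⟩ := class_upper3 s hs
  refine ⟨max C₁ C₂, lt_max_of_lt_left hC₁, ?_⟩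
  intro N y hN hL P hP η hη f hf N' hN' hN'2
  have hN0 : 0 < N := by linarith
  have hF0 : 0 < y * N ^ (-s) * N := by
    have : 0 < y * N ^ (-s) := by linarith
    positivity
  rw [size_three]
  have h6 : 0 < (y * N ^ (-s) * N) ^ (1 / 6 : ℝ) := Real.rpow_pos_of_pos hF0 _
  rcases le_total ((y * N ^ (-s) * N) ^ 2) (N ^ 3) with hc | hc
  · have e1 := pow_third' hN0 hF0 hc
    have e2 : √(y * N ^ (-s) * N) ≤ √N * (y * N ^ (-s) * N) ^ (1 / 6 : ℝ) := by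
      rw [sqrt_split hF0]
      exact mul_le_mul_of_nonneg_right e1 h6.le
    rw [min_eq_left e2]
    have h3 := h₁ N y hN hL P (by omega) η hη f hf N' hN' hN'2
    exact h3.trans (mul_le_mul_of_nonneg_right (le_max_left _ _) (by positivity))
  · have e1 := pow_third hN0 hF0 hc
    have e2 : √N * (y * N ^ (-s) * N) ^ (1 / 6 : ℝ) ≤ √(y * N ^ (-s) * N) := by
      rw [sqrt_split hF0]
      exact mul_le_mul_of_nonneg_right e1 h6.le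
    rw [min_eq_right e2]
    have h3 := h₂ N y hN hL hc P hP η hη f hf N' hN' hN'2
    exact h3.trans (mul_le_mul_of_nonneg_right (le_max_right _ _) (by positivity))

/-- **`P = 3`: the lower bound** -/
theorem lower_three (s η : ℝ) (hs : 0 < s) (hη : 0 < η) :
    ∃ c : ℝ, 0 < c ∧ ∃ N₀ : ℝ, 16 ≤ N₀ ∧ ∀ N y : ℝ, N₀ ≤ N → N₀ ≤ y * N ^ (-s) →
      ((y * N ^ (-s) * N) ^ 2 ≤ N ^ 3 ∨ N ^ 3 * Real.log N ^ 6 ≤ (y * N ^ (-s) * N) ^ 2) →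
      ∃ f : ℝ → ℝ, ClassP N 3 s y η f ∧ ∃ N' : ℝ, N ≤ N' ∧ N' ≤ 2 * N ∧
        c * size 3 N (y * N ^ (-s) * N) ≤ ‖∑ n ∈ Icc ⌈N⌉₊ ⌊N'⌋₊, E (f n)‖ := by
  obtain ⟨c, hc, N₀, hN₀, h⟩ := lower_all 3 (by norm_num) s η hs hη
  refine ⟨c, hc, N₀, hN₀, ?_⟩
  intro N y hN hL hcase
  have hN0 : 0 < N := by linarith
  have hF0 : 0 < y * N ^ (-s) * N := by
    have : 0 < y * N ^ (-s) := by linarith
    positivity
  apply h N y hN hL
  have e1 : (y * N ^ (-s) * N) ^ (1 - 1 / ((3 : ℕ) : ℝ)) = ((y * N ^ (-s) * N) ^ 2) ^ (1 / 3 : ℝ) := by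
    rw [← Real.rpow_natCast, ← Real.rpow_mul hF0.le]
    norm_num
  rw [e1]
  have e2 : (N ^ 3) ^ (1 / 3 : ℝ) = N := by
    rw [← Real.rpow_natCast, ← Real.rpow_mul hN0.le]
    norm_num
  have hlog : 0 ≤ Real.log N := Real.log_nonneg (by linarith)
  rcases hcase with hc | hc
  · left
    calc ((y * N ^ (-s) * N) ^ 2) ^ (1 / 3 : ℝ) ≤ (N ^ 3) ^ (1 / 3 : ℝ) :=
          Real.rpow_le_rpow (by positivity) hc (by norm_num)
      _ = N := e2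
  · right
    have e3 : (N ^ 3 * Real.log N ^ 6) ^ (1 / 3 : ℝ) = N * Real.log N ^ 2 := by
      rw [Real.mul_rpow (by positivity) (by positivity), e2]
      congr 1
      rw [show Real.log N ^ 6 = (Real.log N ^ 2) ^ 3 by ring, ← Real.rpow_natCast (Real.log N ^ 2) 3,
        ← Real.rpow_mul (by positivity)]
      norm_num
    rw [← e3]
    exact Real.rpow_le_rpow (by positivity) hc (by norm_num)

end Pool.Agent.H502.XR
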