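import Pool.Agent.H502.XR.E1

/-!
# The second derivative test for sequences: cells
-/

set_option autoImplicit false

open Finset

namespace Pool.Agent.H502.XR

open Pool.Agent.H502.XQ

/-- second differences between `l` and `u` -/
def SD (x : ℕ → ℝ) (n : ℕ) (l u : ℝ) : Prop :=
  ∀ k, k + 1 < n → l ≤ x (k + 2) - 2 * x (k + 1) + x k ∧ x (k + 2) - 2 * x (k + 1) + x k ≤ u

lemma SD.mono {x : ℕ → ℝ} {n : ℕ} {l u : ℝ} (h : SD x n l u) (hl : 0 ≤ l) :
    ∀ k, k + 1 < n → x (k + 1) - x k ≤ x (k + 2) - x (k + 1) := by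
  intro k hk
  have := (h k hk).1
  linarith

lemma SD.shift {x : ℕ → ℝ} {n p : ℕ} {l u : ℝ} (h : SD x n l u) (hp : p ≤ n) :
    SD (fun k => x (p + k)) (n - p) l u := by
  intro k hk
  have := h (p + k) (by omega)
  simpa only [add_assoc] using this

lemma SD.sub {x : ℕ → ℝ} {n p : ℕ} {l u : ℝ} (h : SD x n l u) (hp : p ≤ n) : SD x p l u :=
  fun k hk => h k (by omega)

lemma sum_split (x : ℕ → ℝ) {p n : ℕ} (hp : p ≤ n) :
    ‖∑ k ∈ range n, E (x k)‖ ≤ ‖∑ k ∈ range p, E (x k)‖ + ‖∑ k ∈ range (n - p), E (x (p + k))‖ := by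
  obtain ⟨q, rfl⟩ : ∃ q, n = p + q := ⟨n - p, by omega⟩
  rw [Finset.sum_range_add, Nat.add_sub_cancel_left]
  exact norm_add_le _ _

lemma half_left (x : ℕ → ℝ) (m : ℤ) (n : ℕ) {l u δ : ℝ} (hl : 0 < l) (hδ : 0 < δ) (h : SD x n l u)
    (h1 : ∀ k < n, (m : ℝ) ≤ x (k + 1) - x k) (h2 : ∀ k < n, x (k + 1) - x k ≤ m + 1 / 2) :
    ‖∑ k ∈ range n, E (x k)‖ ≤ (δ / l + 1) + (2 + 1 / (Real.pi * δ)) := by
  obtain ⟨p, hp, hA, hB⟩ := split_at (fun k => x (k + 1) - x k) n (fun k hk => h.mono hl.le k hk) (m + δ)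
  refine (sum_split x hp).trans (add_le_add ?_ ?_)
  · exact short_piece x hl hδ.le p (fun k hk => (h k (by omega)).1) (fun k hk => h1 k (by omega))
      (fun k hk => (hA k hk).le)
  · have hs := h.shift hp
    apply kl_right (fun k => x (p + k)) m (n - p) hδ (hs.mono hl.le)
    · intro k hk
      have := hB (p + k) (by omega) (by omega)
      simpa only [add_assoc] using this
    · intro k hk
      have := h2 (p + k) (by omega)
      rw [add_assoc] at this
      linarith

lemma half_right (x : ℕ → ℝ) (m : ℤ) (n : ℕ) {l u δ : ℝ} (hl : 0 < l) (hδ : 0 < δ) (h : SD x n l u)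
    (h1 : ∀ k < n, (m : ℝ) - 1 / 2 ≤ x (k + 1) - x k) (h2 : ∀ k < n, x (k + 1) - x k ≤ m) :
    ‖∑ k ∈ range n, E (x k)‖ ≤ (3 + 1 / (Real.pi * δ)) + (δ / l + 1) := by
  obtain ⟨p, hp, hA, hB⟩ := split_at (fun k => x (k + 1) - x k) n (fun k hk => h.mono hl.le k hk) (m - δ)
  refine (sum_split x hp).trans (add_le_add ?_ ?_)
  · apply kl_left x m p hδ ((h.sub hp).mono hl.le)
    · intro k hk
      have := h1 k (by omega)
      linarith
    · intro k hk
      exact (hA k hk).le
  · have hs := h.shift hp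
    apply short_piece (fun k => x (p + k)) hl hδ.le (n - p) (fun k hk => (hs k hk).1) (c := m - δ)
    · intro k hk
      have := hB (p + k) (by omega) (by omega)
      simpa only [add_assoc] using this
    · intro k hk
      have := h2 (p + k) (by omega)
      rw [add_assoc] at this
      linarith

/-- one cell -/
lemma cell (x : ℕ → ℝ) (m : ℤ) (n : ℕ) {l u : ℝ} (hl : 0 < l) (hl1 : l ≤ 1) (h : SD x n l u)
    (h1 : ∀ k < n, (m : ℝ) ≤ x (k + 1) - x k) (h2 : ∀ k < n, x (k + 1) - x k ≤ m + 1) :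
    ‖∑ k ∈ range n, E (x k)‖ ≤ 11 / √l := by
  have hs0 : 0 < √l := Real.sqrt_pos.mpr hl
  have hδ : 0 < √l / 4 := by positivity
  obtain ⟨p, hp, hA, hB⟩ := split_at (fun k => x (k + 1) - x k) n (fun k hk => h.mono hl.le k hk) (m + 1 / 2)
  have e1 := half_left x m p hl hδ (h.sub hp) (fun k hk => h1 k (by omega)) (fun k hk => (hA k hk).le)
  have e2 := half_right (fun k => x (p + k)) (m + 1) (n - p) hl hδ (h.shift hp) ?_ ?_
  · have hpi : 3 ≤ Real.pi := Real.pi_gt_three.le
    have k1 : √l / 4 / l = 1 / 4 * (1 / √l) := by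
      have : l = √l * √l := (Real.mul_self_sqrt hl.le).symm
      rw [div_div, div_eq_iff (by positivity)]
      field_simp
      nlinarith
    have k2 : 1 / (Real.pi * (√l / 4)) ≤ 4 / 3 * (1 / √l) := by
      rw [div_le_iff₀ (by positivity)]
      have : 4 / 3 * (1 / √l) * (Real.pi * (√l / 4)) = Real.pi / 3 := by
        field_simp
      rw [this]
      linarith
    have k3 : 1 ≤ 1 / √l := by
      rw [le_div_iff₀ hs0, one_mul]
      exact Real.sqrt_le_one.mpr hl1
    have k4 : 11 / √l = 11 * (1 / √l) := by ring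
    refine (sum_split x hp).trans ?_
    rw [k1] at e1 e2
    rw [k4]
    linarith
  · intro k hk
    have := hB (p + k) (by omega) (by omega)
    simp only [add_assoc] at this ⊢
    push_cast
    linarith
  · intro k hk
    have := h2 (p + k) (by omega)
    simp only [add_assoc] at this ⊢
    push_cast
    linarith

lemma cells {l u : ℝ} (hl : 0 < l) (hl1 : l ≤ 1) (M : ℕ) : ∀ (x : ℕ → ℝ) (m : ℤ) (n : ℕ), SD x n l u →
    (∀ k < n, (m : ℝ) ≤ x (k + 1) - x k) → (∀ k < n, x (k + 1) - x k < m + M) →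
    ‖∑ k ∈ range n, E (x k)‖ ≤ M * (11 / √l) := by
  induction M with
  | zero =>
    intro x m n _ h1 h2
    rcases n with _ | n
    · simp
    · have := h1 0 (by omega)
      have := h2 0 (by omega)
      simp only [Nat.cast_zero] at this
      linarith
  | succ M ih =>
    intro x m n h h1 h2
    obtain ⟨p, hp, hA, hB⟩ := split_at (fun k => x (k + 1) - x k) n (fun k hk => h.mono hl.le k hk) (m + 1)
    have e1 := cell x m p hl hl1 (h.sub hp) (fun k hk => h1 k (by omega)) (fun k hk => (hA k hk).le)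
    have e2 := ih (fun k => x (p + k)) (m + 1) (n - p) (h.shift hp) ?_ ?_
    · refine (sum_split x hp).trans ?_
      push_cast
      linarith
    · intro k hk
      have := hB (p + k) (by omega) (by omega)
      simp only [add_assoc] at this ⊢
      push_cast
      linarith
    · intro k hk
      have := h2 (p + k) (by omega)
      simp only [add_assoc] at this ⊢
      push_cast at this ⊢
      linarith

/-- **The second derivative test** -/
theorem second_test {l u : ℝ} (hl : 0 < l) (hl1 : l ≤ 1) (hu : 0 ≤ u) (x : ℕ → ℝ) (n : ℕ) (h : SD x n l u) :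
    ‖∑ k ∈ range n, E (x k)‖ ≤ (u * n + 2) * (11 / √l) := by
  have hs0 : 0 < √l := Real.sqrt_pos.mpr hl
  rcases n with _ | p
  · simp only [range_zero, sum_empty, norm_zero]
    positivity
  set d : ℕ → ℝ := fun k => x (k + 1) - x k with hd
  have hmon : ∀ k, k < p + 1 → d 0 ≤ d k ∧ d k ≤ d p := by
    have h0 : ∀ k, k < p + 1 → d 0 ≤ d k := by
      intro k hk
      have := growth x (p + 1) (fun k hk => (h k hk).1) k hk
      have h3 : 0 ≤ (k : ℝ) * l := by positivity
      simp only [hd, zero_add]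
      linarith
    have h1 : ∀ j, j ≤ p → d (p - j) ≤ d p := by
      intro j
      induction j with
      | zero => intro _; simp
      | succ j ih =>
        intro hj
        have e := ih (by omega)
        obtain ⟨i, hi⟩ : ∃ i, p = i + j + 1 := ⟨p - (j + 1), by omega⟩
        have e1 : p - j = i + 1 := by omega
        have e2 : p - (j + 1) = i := by omega
        rw [e1] at e
        rw [e2]
        have := h.mono hl.le i (by omega)
        have h3 : d i ≤ d (i + 1) := by simp only [hd]; linarith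
        linarith
    intro k hk
    refine ⟨h0 k hk, ?_⟩
    have := h1 (p - k) (by omega)
    rwa [Nat.sub_sub_self (by omega)] at this
  set m : ℤ := ⌊d 0⌋ with hm
  set M : ℕ := (⌊d p⌋ - m + 1).toNat with hM
  have hM0 : (0 : ℤ) ≤ ⌊d p⌋ - m + 1 := by
    have : m ≤ ⌊d p⌋ := Int.floor_le_floor (hmon 0 (by omega)).2
    omega
  have hMc : (M : ℝ) = ⌊d p⌋ - m + 1 := by
    have : ((M : ℤ) : ℝ) = ((⌊d p⌋ - m + 1 : ℤ) : ℝ) := by rw [hM, Int.toNat_of_nonneg hM0]
    push_cast at this
    exact this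
  have h1 := cells hl hl1 M x m (p + 1) h ?_ ?_
  · refine h1.trans ?_
    apply mul_le_mul_of_nonneg_right _ (by positivity)
    rw [hMc]
    have e1 := Int.floor_le (d p)
    have e2 := Int.lt_floor_add_one (d 0)
    have e3 := growth' x (p + 1) (fun k hk => (h k hk).2) p (by omega)
    have e4 : d p - d 0 ≤ p * u := by simp only [hd, zero_add]; exact e3
    push_cast
    have e5 : (m : ℝ) = ⌊d 0⌋ := rfl
    rw [e5]
    nlinarith
  · intro k hk
    have := (hmon k hk).1
    exact (Int.floor_le (d 0)).trans this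
  · intro k hk
    have := (hmon k hk).2
    have e1 := Int.lt_floor_add_one (d p)
    rw [hMc]
    have : x (k + 1) - x k = d k := rfl
    rw [this]
    linarith

end Pool.Agent.H502.XR
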