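import Pool.Agent.H502.XR.E2

/-!
# The second derivative test for functions
-/

set_option autoImplicit false

open Finset

namespace Pool.Agent.H502.XR

open Pool.Agent.H502.XQ

lemma second_diff {f : ℝ → ℝ} {a b l : ℝ} (hf : ContDiffOn ℝ 2 f (Set.Icc a b)) 
    (h : ∀ x ∈ Set.Ioo a b, l ≤ iteratedDerivWithin 2 f (Set.Icc a b) x) (x : ℝ) (hx : a ≤ x) (hx2 : x + 2 ≤ b) :
    l ≤ f (x + 2) - 2 * f (x + 1) + f x := by
  have hab : a < b := by linarith
  set q : ℝ → ℝ := fun x => -(l / 2) * x ^ 2 with hq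
  set g : ℝ → ℝ := fun x => f x + q x with hg
  have hqc : ContDiff ℝ 2 q := by
    rw [hq]
    fun_prop
  have hgc : ContDiffOn ℝ 2 g (Set.Icc a b) := hf.add hqc.contDiffOn
  have hint : interior (Set.Icc a b) = Set.Ioo a b := interior_Icc
  have hgo : ContDiffOn ℝ 2 g (Set.Ioo a b) := hgc.mono Set.Ioo_subset_Icc_self
  have hq2 : ∀ x, iteratedDeriv 2 q x = -l := by
    intro x
    rw [iteratedDeriv_succ, iteratedDeriv_one]
    have h1 : deriv q = fun x => -(l / 2) * (2 * x) := by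
      funext x
      rw [hq]
      simp
    rw [h1]
    have h2 : (fun x : ℝ => -(l / 2) * (2 * x)) = fun x => (-l) * x := by
      funext x; ring
    rw [h2]
    simp
  have hconv : ConvexOn ℝ (Set.Icc a b) g := by
    apply convexOn_of_deriv2_nonneg (convex_Icc a b) hgc.continuousOn
    · rw [hint]
      exact hgo.differentiableOn (by norm_num)
    · rw [hint]
      have := hgo.deriv_of_isOpen (m := 1) isOpen_Ioo (by norm_num)
      exact this.differentiableOn (by norm_num)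
    · intro z hz
      rw [hint] at hz
      have hfz : ContDiffAt ℝ 2 f z := hf.contDiffAt (Icc_mem_nhds hz.1 hz.2)
      have h1 : deriv^[2] g z = iteratedDeriv 2 g z := by
        rw [iteratedDeriv_eq_iterate]
      rw [h1, hg, iteratedDeriv_fun_add (n := 2) (by exact_mod_cast hfz) (by exact_mod_cast hqc.contDiffAt), hq2]
      have h2 := h z hz
      rw [iteratedDerivWithin_eq_iteratedDeriv (n := 2) (uniqueDiffOn_Icc hab) (by exact_mod_cast hfz)
        ⟨hz.1.le, hz.2.le⟩] at h2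
      linarith
  have hxm : x ∈ Set.Icc a b := ⟨hx, by linarith⟩
  have hxm2 : x + 2 ∈ Set.Icc a b := ⟨by linarith, hx2⟩
  have h3 := hconv.2 hxm hxm2 (show (0 : ℝ) ≤ 1 / 2 by norm_num) (show (0 : ℝ) ≤ 1 / 2 by norm_num)
    (by norm_num)
  simp only [smul_eq_mul] at h3
  rw [show (1 / 2 : ℝ) * x + 1 / 2 * (x + 2) = x + 1 by ring] at h3
  simp only [hg, hq] at h3
  nlinarith

/-- second differences of a function with `l ≤ f'' ≤ u` -/
lemma second_diff' {f : ℝ → ℝ} {a b l u : ℝ} (hf : ContDiffOn ℝ 2 f (Set.Icc a b)) 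
    (h : ∀ x ∈ Set.Ioo a b, l ≤ iteratedDerivWithin 2 f (Set.Icc a b) x ∧
      iteratedDerivWithin 2 f (Set.Icc a b) x ≤ u) (x : ℝ) (hx : a ≤ x) (hx2 : x + 2 ≤ b) :
    l ≤ f (x + 2) - 2 * f (x + 1) + f x ∧ f (x + 2) - 2 * f (x + 1) + f x ≤ u := by
  refine ⟨second_diff hf (fun z hz => (h z hz).1) x hx hx2, ?_⟩
  have hab : a < b := by linarith
  have h1 := second_diff (f := fun x => - f x) (a := a) (b := b) (l := -u) hf.neg ?_ x hx hx2
  · linarith
  · intro z hz
    have h2 := (h z hz).2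
    have e : iteratedDerivWithin 2 (fun x => - f x) (Set.Icc a b) z =
        - iteratedDerivWithin 2 f (Set.Icc a b) z := by
      have := iteratedDerivWithin_neg (n := 2) (f := f) (s := Set.Icc a b) (x := z)
      exact this
    rw [e]
    linarith

/-- **The second derivative test for a function** -/
theorem vdc {x : ℕ → ℝ} {l u : ℝ} (hl : 0 < l) (hl1 : l ≤ 1) (hu : 0 ≤ u) (n₀ n₁ : ℕ) (h01 : n₀ ≤ n₁)
    (h : ∀ k, n₀ ≤ k → k + 2 ≤ n₁ → l ≤ x (k + 2) - 2 * x (k + 1) + x k ∧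
      x (k + 2) - 2 * x (k + 1) + x k ≤ u) :
    ‖∑ n ∈ Icc n₀ n₁, E (x n)‖ ≤ (u * ((n₁ : ℝ) - n₀) + 2) * (11 / √l) + 1 := by
  obtain ⟨p, rfl⟩ : ∃ p, n₁ = n₀ + p := ⟨n₁ - n₀, by omega⟩
  have e1 : ∑ n ∈ Icc n₀ (n₀ + p), E (x n) = ∑ k ∈ range p, E (x (n₀ + k)) + E (x (n₀ + p)) := by
    rw [← sum_range_succ (fun k => E (x (n₀ + k)))]
    rw [← Finset.Ico_succ_right_eq_Icc, Finset.sum_Ico_eq_sum_range]
    congr 1
    rw [Nat.succ_eq_succ, Nat.succ_eq_add_one]
    congr 1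
    omega
  rw [e1]
  refine (norm_add_le _ _).trans ?_
  rw [norm_E]
  have h2 := second_test hl hl1 hu (fun k => x (n₀ + k)) p ?_
  · push_cast
    rw [add_sub_cancel_left]
    linarith
  · intro k hk
    have := h (n₀ + k) (by omega) (by omega)
    simpa only [add_assoc] using this

end Pool.Agent.H502.XR
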