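import Pool.Agent.H502.XR.E3

/-!
# The upper bound in the class
-/

set_option autoImplicit false

open Finset

namespace Pool.Agent.H502.XR

open Pool.Agent.H502.XQ

lemma norm_sum_neg {ι : Type*} (T : Finset ι) (x : ι → ℝ) :
    ‖∑ n ∈ T, E (x n)‖ = ‖∑ n ∈ T, E (-(x n))‖ := by
  have : ∑ n ∈ T, E (-(x n)) = (starRingEnd ℂ) (∑ n ∈ T, E (x n)) := by
    rw [map_sum]
    exact sum_congr rfl fun n _ => (conj_E (x n)).symm
  rw [this, Complex.norm_conj]

lemma card_Icc_le {N N' : ℝ} (hN : 1 ≤ N) (h2 : N' ≤ 2 * N) :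
    ((Icc ⌈N⌉₊ ⌊N'⌋₊).card : ℝ) ≤ 2 * N := by
  rw [Nat.card_Icc]
  by_cases h : ⌈N⌉₊ ≤ ⌊N'⌋₊ + 1
  · rw [Nat.cast_sub h]
    have h3 : N ≤ ⌈N⌉₊ := Nat.le_ceil N
    have h4 : (⌊N'⌋₊ : ℝ) ≤ 2 * N := by
      by_cases h5 : 0 ≤ N'
      · exact (Nat.floor_le h5).trans h2
      · rw [Nat.floor_of_nonpos (by linarith)]
        simp only [Nat.cast_zero]
        linarith
    push_cast
    linarith
  · rw [Nat.sub_eq_zero_of_le (by omega)]
    simp only [Nat.cast_zero]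
    linarith

lemma trivial_le {N N' : ℝ} (hN : 1 ≤ N) (h2 : N' ≤ 2 * N) (f : ℝ → ℝ) :
    ‖∑ n ∈ Icc ⌈N⌉₊ ⌊N'⌋₊, E (f n)‖ ≤ 2 * N := by
  refine (norm_sum_le _ _).trans ?_
  simp only [norm_E, sum_const, nsmul_eq_mul, mul_one]
  exact card_Icc_le hN h2

/-- the second derivative test in the range `f'' ≤ 0`, `Λ = F / N²` -/
lemma upper_core {A B : ℝ} (hA : 0 < A) (hB : 0 < B) :
    ∃ C : ℝ, 0 < C ∧ ∀ N F : ℝ, 1 ≤ N → N ≤ F → ∀ f : ℝ → ℝ, ContDiffOn ℝ 2 f (Set.Icc N (2 * N)) →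
      (∀ x ∈ Set.Ioo N (2 * N), A * (F / N ^ 2) ≤ -(iteratedDerivWithin 2 f (Set.Icc N (2 * N)) x) ∧
        -(iteratedDerivWithin 2 f (Set.Icc N (2 * N)) x) ≤ B * (F / N ^ 2)) →
      ∀ N' : ℝ, N ≤ N' → N' ≤ 2 * N → ‖∑ n ∈ Icc ⌈N⌉₊ ⌊N'⌋₊, E (f n)‖ ≤ C * min (√F) N := by
  set κ : ℝ := 1 / √A with hκ
  have hsA : 0 < √A := Real.sqrt_pos.mpr hA
  have hκ0 : 0 < κ := by positivity
  have hκA : κ * √A = 1 := by rw [hκ]; field_simp
  refine ⟨2 * (1 + √A) + (11 * κ * (B + 2) + 1) * (1 + κ), by positivity, ?_⟩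
  intro N F hN hNF f hf hd N' hN' hN'2
  have hN0 : 0 < N := by linarith
  have hF0 : 0 < F := by linarith
  have hsF : 0 < √F := Real.sqrt_pos.mpr hF0
  have hsF1 : 1 ≤ √F := Real.one_le_sqrt.mpr (by linarith)
  have hmin : 0 < min (√F) N := lt_min hsF hN0
  have hΛ : 0 < F / N ^ 2 := by positivity
  have hsΛ : √(F / N ^ 2) = √F / N := by
    rw [Real.sqrt_div hF0.le, Real.sqrt_sq hN0.le]
  by_cases hl1 : A * (F / N ^ 2) ≤ 1
  · -- the test
    have hκN : √F ≤ κ * N := by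
      have h1 : √(A * (F / N ^ 2)) ≤ 1 := Real.sqrt_le_one.mpr hl1
      rw [Real.sqrt_mul hA.le, hsΛ] at h1
      have h2 : √A * √F ≤ N := by
        have : √A * (√F / N) * N ≤ 1 * N := mul_le_mul_of_nonneg_right h1 hN0.le
        have e : √A * (√F / N) * N = √A * √F := by field_simp
        linarith
      calc √F = κ * (√A * √F) := by rw [← mul_assoc, hκA, one_mul]
        _ ≤ κ * N := mul_le_mul_of_nonneg_left h2 hκ0.le
    have hmain : ‖∑ n ∈ Icc ⌈N⌉₊ ⌊N'⌋₊, E (f n)‖ ≤ (11 * κ * (B + 2) + 1) * √F := by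
      by_cases h01 : ⌈N⌉₊ ≤ ⌊N'⌋₊
      · rw [norm_sum_neg]
        have hg : ContDiffOn ℝ 2 (fun x => -(f x)) (Set.Icc N (2 * N)) := hf.neg
        have h1 := vdc (x := fun n : ℕ => -(f n)) (l := A * (F / N ^ 2)) (u := B * (F / N ^ 2))
          (by positivity) hl1 (by positivity) ⌈N⌉₊ ⌊N'⌋₊ h01 ?_
        · refine h1.trans ?_
          have e1 : (⌊N'⌋₊ : ℝ) - ⌈N⌉₊ ≤ N := by
            have h3 : N ≤ ⌈N⌉₊ := Nat.le_ceil N
            have h4 : (⌊N'⌋₊ : ℝ) ≤ N' := Nat.floor_le (by linarith)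
            linarith
          have e2 : B * (F / N ^ 2) * ((⌊N'⌋₊ : ℝ) - ⌈N⌉₊) + 2 ≤ (B + 2) * (F / N) := by
            have h5 : B * (F / N ^ 2) * ((⌊N'⌋₊ : ℝ) - ⌈N⌉₊) ≤ B * (F / N ^ 2) * N :=
              mul_le_mul_of_nonneg_left e1 (by positivity)
            have h6 : B * (F / N ^ 2) * N = B * (F / N) := by field_simp
            have h7 : 1 ≤ F / N := by rw [le_div_iff₀ hN0]; linarith
            nlinarith
          have e3 : 11 / √(A * (F / N ^ 2)) = 11 * κ * (N / √F) := by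
            rw [Real.sqrt_mul hA.le, hsΛ, hκ]
            field_simp
          rw [e3]
          have e4 : (B + 2) * (F / N) * (11 * κ * (N / √F)) = 11 * κ * (B + 2) * √F := by
            have h8 : F = √F * √F := (Real.mul_self_sqrt hF0.le).symm
            have h9 : (B + 2) * (F / N) * (11 * κ * (N / √F)) = 11 * κ * (B + 2) * (F / √F) := by
              field_simp
            rw [h9]
            congr 1
            rw [div_eq_iff hsF.ne']
            exact h8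
          have e5 : 0 ≤ 11 * κ * (N / √F) := by positivity
          calc (B * (F / N ^ 2) * ((⌊N'⌋₊ : ℝ) - ⌈N⌉₊) + 2) * (11 * κ * (N / √F)) + 1
              ≤ (B + 2) * (F / N) * (11 * κ * (N / √F)) + 1 := by gcongr
            _ = 11 * κ * (B + 2) * √F + 1 := by rw [e4]
            _ ≤ (11 * κ * (B + 2) + 1) * √F := by nlinarith
        · intro k hk1 hk2
          have hk1' : N ≤ (k : ℝ) := (Nat.le_ceil N).trans (by exact_mod_cast hk1)
          have hk2' : (k : ℝ) + 2 ≤ 2 * N := by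
            have : ((k + 2 : ℕ) : ℝ) ≤ ⌊N'⌋₊ := by exact_mod_cast hk2
            have h4 : (⌊N'⌋₊ : ℝ) ≤ N' := Nat.floor_le (by linarith)
            push_cast at this
            linarith
          have h2 := second_diff' (f := fun x => -(f x)) (l := A * (F / N ^ 2)) (u := B * (F / N ^ 2)) hg ?_
            (k : ℝ) hk1' hk2'
          · push_cast
            exact h2
          · intro z hz
            have e : iteratedDerivWithin 2 (fun x => - f x) (Set.Icc N (2 * N)) z =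
                - iteratedDerivWithin 2 f (Set.Icc N (2 * N)) z :=
              iteratedDerivWithin_neg (n := 2) (f := f) (s := Set.Icc N (2 * N)) (x := z)
            rw [e]
            exact hd z hz
      · rw [Icc_eq_empty h01, sum_empty, norm_zero]
        positivity
    refine hmain.trans ?_
    have h10 : √F ≤ (1 + κ) * min (√F) N := by
      rcases le_total (√F) N with h | h
      · rw [min_eq_left h]
        nlinarith
      · rw [min_eq_right h]
        nlinarith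
    have h11 : 0 ≤ 2 * (1 + √A) * min (√F) N := by positivity
    calc (11 * κ * (B + 2) + 1) * √F ≤ (11 * κ * (B + 2) + 1) * ((1 + κ) * min (√F) N) := by gcongr
      _ ≤ _ := by nlinarith
  · -- trivial bound
    push Not at hl1
    have h1 : N ≤ √A * √F := by
      have h2 : 1 ≤ √(A * (F / N ^ 2)) := Real.one_le_sqrt.mpr hl1.le
      rw [Real.sqrt_mul hA.le, hsΛ] at h2
      have : 1 * N ≤ √A * (√F / N) * N := mul_le_mul_of_nonneg_right h2 hN0.le
      have e : √A * (√F / N) * N = √A * √F := by field_simp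
      linarith
    have h3 : N ≤ (1 + √A) * min (√F) N := by
      rcases le_total (√F) N with h | h
      · rw [min_eq_left h]
        nlinarith
      · rw [min_eq_right h]
        nlinarith
    have h4 := trivial_le hN hN'2 f
    have h5 : 0 ≤ (11 * κ * (B + 2) + 1) * (1 + κ) * min (√F) N := by positivity
    nlinarith

/-- **The upper bound in the class** -/
theorem class_upper (s : ℝ) (hs : 0 < s) : ∃ C : ℝ, 0 < C ∧ ∀ N y : ℝ, 1 ≤ N → 1 ≤ y * N ^ (-s) →
    ∀ P : ℕ, 2 ≤ P → ∀ η : ℝ, η ≤ 1 / 2 → ∀ f : ℝ → ℝ, ClassP N P s y η f →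
      ∀ N' : ℝ, N ≤ N' → N' ≤ 2 * N →
        ‖∑ n ∈ Icc ⌈N⌉₊ ⌊N'⌋₊, E (f n)‖ ≤ C * min (√(y * N ^ (-s) * N)) N := by
  have h2s : (0 : ℝ) < 2 ^ (-s - 1) := Real.rpow_pos_of_pos (by norm_num) _
  obtain ⟨C, hC, h⟩ := upper_core (A := s / 2 * 2 ^ (-s - 1)) (B := 3 / 2 * s) (by positivity) (by positivity)
  refine ⟨C, hC, ?_⟩
  intro N y hN hL P hP η hη f hf N' hN' hN'2
  have hN0 : 0 < N := by linarith
  have hNs : 0 < N ^ (-s) := Real.rpow_pos_of_pos hN0 _
  have hy : 0 < y := pos_of_mul_pos_left (by linarith : 0 < y * N ^ (-s)) hNs.le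
  have h2le : (2 : WithTop ℕ∞) ≤ ((⊤ : ℕ∞) : WithTop ℕ∞) := by
    have : ((2 : ℕ∞) : WithTop ℕ∞) ≤ ((⊤ : ℕ∞) : WithTop ℕ∞) := WithTop.coe_le_coe.mpr le_top
    exact this
  apply h N (y * N ^ (-s) * N) hN (by nlinarith) f (hf.1.of_le h2le) ?_ N' hN' hN'2
  intro x hx
  have hx0 : 0 < x := hN0.trans hx.1
  have h1 := hf.2 1 (by omega) x ⟨hx.1.le, hx.2.le⟩
  have hp : poch s 1 = s := by simp [poch]
  rw [hp, abs_le] at h1
  push_cast at h1
  have h3 : N ^ (-s - 1) = N ^ (-s) / N := by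
    rw [Real.rpow_sub hN0, Real.rpow_one]
  have h4 : y * N ^ (-s) * N / N ^ 2 = y * N ^ (-s - 1) := by
    rw [h3]; field_simp
  rw [h4]
  have h5 : x ^ (-s - 1) ≤ N ^ (-s - 1) := Real.rpow_le_rpow_of_nonpos hN0 hx.1.le (by linarith)
  have h6 : (2 * N) ^ (-s - 1) ≤ x ^ (-s - 1) := Real.rpow_le_rpow_of_nonpos hx0 hx.2.le (by linarith)
  rw [Real.mul_rpow (by norm_num) hN0.le] at h6
  have hX : 0 < x ^ (-s - 1) := Real.rpow_pos_of_pos hx0 _
  have hsy : 0 < s * y := by positivity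
  have h7 : η * (s * y * x ^ (-s - 1)) ≤ 1 / 2 * (s * y * x ^ (-s - 1)) :=
    mul_le_mul_of_nonneg_right hη (by positivity)
  have h8 : s * y * (2 ^ (-s - 1) * N ^ (-s - 1)) ≤ s * y * x ^ (-s - 1) := mul_le_mul_of_nonneg_left h6 hsy.le
  have h9 : s * y * x ^ (-s - 1) ≤ s * y * N ^ (-s - 1) := mul_le_mul_of_nonneg_left h5 hsy.le
  obtain ⟨h10, h11⟩ := h1
  norm_num at h10 h11 ⊢
  constructor
  · nlinarith
  · nlinarith

end Pool.Agent.H502.XR
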