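import Pool.Agent.H502.XR.E4
import Pool.Graph.R_seed8.H469R2.NK.Vdc

/-!
# The third derivative test
-/

set_option autoImplicit false

open Finset

namespace Pool.Agent.H502.XR

open Pool.Agent.H502.XQ

/-- third differences between `l` and `u` -/
def TD (x : ℕ → ℝ) (n : ℕ) (l u : ℝ) : Prop :=
  ∀ k, k + 2 < n → l ≤ x (k + 3) - 3 * x (k + 2) + 3 * x (k + 1) - x k ∧
    x (k + 3) - 3 * x (k + 2) + 3 * x (k + 1) - x k ≤ u

lemma TD.diff {x : ℕ → ℝ} {n : ℕ} {l u : ℝ} (h : TD x n l u) (q : ℕ) :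
    SD (fun k => x (k + q) - x k) (n - q) (q * l) (q * u) := by
  intro k hk
  have key : ∀ j, j ≤ q → (j : ℝ) * l ≤ (x (k + j + 2) - 2 * x (k + j + 1) + x (k + j)) -
      (x (k + 2) - 2 * x (k + 1) + x k) ∧
      (x (k + j + 2) - 2 * x (k + j + 1) + x (k + j)) - (x (k + 2) - 2 * x (k + 1) + x k) ≤ (j : ℝ) * u := by
    intro j
    induction j with
    | zero => intro _; simp
    | succ j ih =>
      intro hj
      obtain ⟨h1, h2⟩ := ih (by omega)
      obtain ⟨h3, h4⟩ := h (k + j) (by omega)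
      push_cast
      have e1 : k + (j + 1) + 2 = k + j + 3 := by ring
      have e2 : k + (j + 1) + 1 = k + j + 2 := by ring
      have e3 : k + (j + 1) = k + j + 1 := by ring
      rw [e1, e2, e3]
      constructor <;> linarith
  obtain ⟨h1, h2⟩ := key q le_rfl
  have e1 : k + 2 + q = k + q + 2 := by ring
  have e2 : k + 1 + q = k + q + 1 := by ring
  simp only [e1, e2]
  constructor <;> linarith

lemma sum_sqrt_le (H : ℕ) : ∑ q ∈ Ico 1 H, √(q : ℝ) ≤ H * √(H : ℝ) := by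
  calc ∑ q ∈ Ico 1 H, √(q : ℝ) ≤ ∑ _q ∈ Ico 1 H, √(H : ℝ) := by
        apply sum_le_sum
        intro q hq
        exact Real.sqrt_le_sqrt (by exact_mod_cast (mem_Ico.mp hq).2.le)
    _ = ((H - 1 : ℕ) : ℝ) * √(H : ℝ) := by rw [sum_const, Nat.card_Ico, nsmul_eq_mul]
    _ ≤ H * √(H : ℝ) := by
        apply mul_le_mul_of_nonneg_right _ (Real.sqrt_nonneg _)
        exact_mod_cast Nat.sub_le _ _

lemma sum_inv_sqrt_aux (m : ℕ) : ∑ q ∈ Ico 1 (m + 1), 1 / √(q : ℝ) ≤ 2 * √(m : ℝ) := by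
  induction m with
  | zero => simp
  | succ m ih =>
    rw [sum_Ico_succ_top (by omega)]
    have h1 : 0 < √((m + 1 : ℕ) : ℝ) := Real.sqrt_pos.mpr (by positivity)
    have h0 : 0 ≤ √(m : ℝ) := Real.sqrt_nonneg _
    have h2 : √(m : ℝ) ^ 2 = m := Real.sq_sqrt (Nat.cast_nonneg _)
    have h3 : √((m + 1 : ℕ) : ℝ) ^ 2 = m + 1 := by
      rw [Real.sq_sqrt (by positivity)]
      push_cast
      ring
    have h4 : 1 / √((m + 1 : ℕ) : ℝ) ≤ 2 * √((m + 1 : ℕ) : ℝ) - 2 * √(m : ℝ) := by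
      rw [div_le_iff₀ h1]
      nlinarith [sq_nonneg (√((m + 1 : ℕ) : ℝ) - √(m : ℝ))]
    linarith

lemma sum_inv_sqrt_le (H : ℕ) : ∑ q ∈ Ico 1 H, 1 / √(q : ℝ) ≤ 2 * √(H : ℝ) := by
  rcases H with _ | m
  · simp
  refine (sum_inv_sqrt_aux m).trans ?_
  have : √(m : ℝ) ≤ √((m + 1 : ℕ) : ℝ) := Real.sqrt_le_sqrt (by push_cast; linarith)
  linarith

/-- **The third derivative test for sequences** -/
theorem third_test {l u : ℝ} (hl : 0 < l) (hu : 0 ≤ u) (x : ℕ → ℝ) (L H : ℕ) (hHl : H * l ≤ 1)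
    (h : TD x L l u) :
    (H : ℝ) * ‖∑ n ∈ range L, E (x n)‖ ^ 2 ≤
      (L + H) * (L + 22 * (u / √l * L * (H * √H) + 4 * √H / √l)) := by
  have hsl : 0 < √l := Real.sqrt_pos.mpr hl
  have h0 := Pool.Agent.H469R2.NK.vdcH (fun n => E (x n)) (fun n => (norm_E _).le) L H
  refine h0.trans ?_
  apply mul_le_mul_of_nonneg_left _ (by positivity)
  have h1 : ∀ q ∈ Ico 1 H, ‖∑ n ∈ range (L - q), E (x (n + q)) * (starRingEnd ℂ) (E (x n))‖ ≤
      11 * (u / √l * L * √(q : ℝ) + 2 / √l * (1 / √(q : ℝ))) := by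
    intro q hq
    obtain ⟨hq1, hq2⟩ := mem_Ico.mp hq
    have hq0 : (0 : ℝ) < q := by exact_mod_cast hq1
    have hsq : 0 < √(q : ℝ) := Real.sqrt_pos.mpr hq0
    have e : ∀ n ∈ range (L - q), E (x (n + q)) * (starRingEnd ℂ) (E (x n)) = E (x (n + q) - x n) := by
      intro n _
      rw [conj_E, ← E_add]
      rfl
    rw [sum_congr rfl e]
    have hql1 : (q : ℝ) * l ≤ 1 := by
      have : (q : ℝ) * l ≤ H * l := mul_le_mul_of_nonneg_right (by exact_mod_cast hq2.le) hl.le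
      linarith
    have h2 := second_test (l := q * l) (u := q * u) (by positivity) hql1 (by positivity) _ _ (h.diff q)
    refine h2.trans ?_
    have h3 : (((L - q : ℕ) : ℝ)) ≤ L := by exact_mod_cast Nat.sub_le _ _
    rw [Real.sqrt_mul hq0.le]
    have h4 : (q * u * ((L - q : ℕ) : ℝ) + 2) * (11 / (√(q : ℝ) * √l)) ≤
        (q * u * L + 2) * (11 / (√(q : ℝ) * √l)) := by gcongr
    refine h4.trans (le_of_eq ?_)
    have h5 : (q : ℝ) = √(q : ℝ) * √(q : ℝ) := (Real.mul_self_sqrt hq0.le).symm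
    have h6 : (q * u * L + 2) * (11 / (√(q : ℝ) * √l)) =
        11 * (u / √l * L * (q / √(q : ℝ)) + 2 / √l * (1 / √(q : ℝ))) := by
      field_simp
    rw [h6]
    have h7 : (q : ℝ) / √(q : ℝ) = √(q : ℝ) := by
      rw [div_eq_iff hsq.ne']
      exact h5
    rw [h7]
  have h2 : ∑ q ∈ Ico 1 H, ‖∑ n ∈ range (L - q), E (x (n + q)) * (starRingEnd ℂ) (E (x n))‖ ≤
      11 * (u / √l * L * (H * √(H : ℝ)) + 2 / √l * (2 * √(H : ℝ))) := by
    refine (sum_le_sum h1).trans ?_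
    rw [← mul_sum, sum_add_distrib, ← mul_sum, ← mul_sum]
    have h3 := sum_sqrt_le H
    have h4 := sum_inv_sqrt_le H
    gcongr
  have h5 : 4 * √(H : ℝ) / √l = 2 / √l * (2 * √(H : ℝ)) := by ring
  rw [h5]
  linarith

end Pool.Agent.H502.XR
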