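import Pool.Agent.H502.XR.E5

/-!
# The third derivative test for functions; the upper bound in the class
-/

set_option autoImplicit false

open Finset

namespace Pool.Agent.H502.XR

open Pool.Agent.H502.XQ

lemma third_diff {f : ℝ → ℝ} {a b l u : ℝ} (hf : ContDiffOn ℝ 3 f (Set.Icc a b))
    (h : ∀ x ∈ Set.Ioo a b, l ≤ iteratedDerivWithin 3 f (Set.Icc a b) x ∧
      iteratedDerivWithin 3 f (Set.Icc a b) x ≤ u) (x : ℝ) (hx : a ≤ x) (hx3 : x + 3 ≤ b) :
    l ≤ f (x + 3) - 3 * f (x + 2) + 3 * f (x + 1) - f x ∧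
      f (x + 3) - 3 * f (x + 2) + 3 * f (x + 1) - f x ≤ u := by
  have hab : a < b := by linarith
  have hab1 : a < b - 1 := by linarith
  have hfo : ContDiffOn ℝ 3 f (Set.Ioo a b) := hf.mono Set.Ioo_subset_Icc_self
  have hd1 : ContDiffOn ℝ 2 (deriv f) (Set.Ioo a b) := hfo.deriv_of_isOpen isOpen_Ioo (by norm_num)
  have hd2 : ContDiffOn ℝ 1 (deriv (deriv f)) (Set.Ioo a b) := hd1.deriv_of_isOpen isOpen_Ioo (by norm_num)
  have hi2 : iteratedDeriv 2 f = deriv (deriv f) := by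
    rw [iteratedDeriv_succ, iteratedDeriv_one]
  have hdiff : DifferentiableOn ℝ (iteratedDeriv 2 f) (Set.Ioo a b) := by
    rw [hi2]
    exact hd2.differentiableOn (by norm_num)
  have hshift : ContDiff ℝ 2 (fun z : ℝ => z + 1) := by fun_prop
  have hmap : Set.MapsTo (fun z : ℝ => z + 1) (Set.Icc a (b - 1)) (Set.Icc a b) := by
    intro z hz
    exact ⟨by linarith [hz.1], by linarith [hz.2]⟩
  have hf2 : ContDiffOn ℝ 2 f (Set.Icc a b) := hf.of_le (by norm_num)
  have hs1 : ContDiffOn ℝ 2 (fun z => f (z + 1)) (Set.Icc a (b - 1)) := hf2.comp hshift.contDiffOn hmap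
  have hG : ContDiffOn ℝ 2 (fun z => f (z + 1) - f z) (Set.Icc a (b - 1)) :=
    hs1.sub (hf2.mono (Set.Icc_subset_Icc_right (by linarith)))
  have key := second_diff' (f := fun z => f (z + 1) - f z) (a := a) (b := b - 1) (l := l) (u := u) hG ?_ x hx
    (by linarith)
  · have e1 : x + 2 + 1 = x + 3 := by ring
    have e2 : x + 1 + 1 = x + 2 := by ring
    simp only [e1, e2] at key
    constructor <;> linarith [key.1, key.2]
  · intro z hz
    have hz1 : ContDiffAt ℝ 2 f z := hf2.contDiffAt (Icc_mem_nhds hz.1 (by linarith [hz.2]))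
    have hz2 : ContDiffAt ℝ 2 f (z + 1) := hf2.contDiffAt (Icc_mem_nhds (by linarith [hz.1]) (by linarith [hz.2]))
    have hz3 : ContDiffAt ℝ 2 (fun z => f (z + 1)) z := hz2.comp z hshift.contDiffAt
    have hz4 : ContDiffAt ℝ 2 (fun z => f (z + 1) - f z) z := hz3.sub hz1
    rw [iteratedDerivWithin_eq_iteratedDeriv (n := 2) (uniqueDiffOn_Icc hab1) (by exact_mod_cast hz4)
      ⟨hz.1.le, hz.2.le⟩]
    rw [iteratedDeriv_fun_sub (n := 2) (by exact_mod_cast hz3) (by exact_mod_cast hz1)]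
    have e1 : iteratedDeriv 2 (fun z => f (z + 1)) z = iteratedDeriv 2 f (z + 1) := by
      rw [iteratedDeriv_comp_add_const]
    rw [e1]
    have hsub : Set.Icc z (z + 1) ⊆ Set.Ioo a b := by
      intro w hw
      exact ⟨by linarith [hw.1, hz.1], by linarith [hw.2, hz.2]⟩
    obtain ⟨ξ, hξ, hξ2⟩ := exists_deriv_eq_slope (iteratedDeriv 2 f) (show z < z + 1 by linarith)
      (hdiff.continuousOn.mono hsub) (hdiff.mono (Set.Ioo_subset_Icc_self.trans hsub))
    have hξm := hsub ⟨hξ.1.le, hξ.2.le⟩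
    have e2 : deriv (iteratedDeriv 2 f) ξ = iteratedDeriv 3 f ξ := by
      rw [← iteratedDeriv_succ]
    have hξc : ContDiffAt ℝ 3 f ξ := hf.contDiffAt (Icc_mem_nhds hξm.1 hξm.2)
    have h3 := h ξ hξm
    rw [iteratedDerivWithin_eq_iteratedDeriv (n := 3) (uniqueDiffOn_Icc hab) (by exact_mod_cast hξc)
      ⟨hξm.1.le, hξm.2.le⟩] at h3
    rw [e2, add_sub_cancel_left, div_one] at hξ2
    rw [← hξ2]
    exact h3

end Pool.Agent.H502.XR
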