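import Pool.Agent.H502.XR.E6

/-!
# The third derivative test: the upper bound in the class
-/

set_option autoImplicit false

open Finset

namespace Pool.Agent.H502.XR

open Pool.Agent.H502.XQ

lemma core3 {A B r N : ℝ} (hA : 0 < A) (hA1 : A ≤ 1 / 2) (hB : 0 < B) (hr : 0 < r) (hr1 : r ≤ 1) (hN : 1 ≤ N)
    (hrN : 1 ≤ r ^ 2 * N) (x : ℕ → ℝ) (L : ℕ) (hL : (L : ℝ) ≤ N) (h : TD x L (A * r ^ 3) (B * r ^ 3)) :
    ‖∑ n ∈ range L, E (x n)‖ ^ 2 ≤ 2 * (1 + 22 * (3 * (B / √A) + 6 / √A)) * (r * N ^ 2) := by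
  set t : ℝ := √r with ht
  have ht0 : 0 < t := Real.sqrt_pos.mpr hr
  have hrt : r = t ^ 2 := (Real.sq_sqrt hr.le).symm
  have hsA : 0 < √A := Real.sqrt_pos.mpr hA
  have hN0 : 0 < N := by linarith
  have hr1' : 1 ≤ 1 / r := by rw [le_div_iff₀ hr]; linarith
  set H : ℕ := ⌈1 / r⌉₊ with hH
  have hH1 : 1 / r ≤ H := Nat.le_ceil _
  have hH2 : (H : ℝ) ≤ 2 / r := by
    have h1 : (H : ℝ) < 1 / r + 1 := Nat.ceil_lt_add_one (by positivity)
    have h2 : 2 / r = 1 / r + 1 / r := by ring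
    linarith
  have hH0 : (0 : ℝ) < H := by linarith
  have hl : √(A * r ^ 3) = √A * t ^ 3 := by
    rw [Real.sqrt_mul hA.le]
    congr 1
    rw [hrt, ← pow_mul, show 2 * 3 = 3 * 2 by norm_num, pow_mul, Real.sqrt_sq (by positivity)]
  have hHl : (H : ℝ) * (A * r ^ 3) ≤ 1 := by
    calc (H : ℝ) * (A * r ^ 3) ≤ 2 / r * (1 / 2 * r ^ 3) := by gcongr
      _ = r ^ 2 := by field_simp
      _ ≤ 1 := pow_le_one₀ hr.le hr1
  have hsH : √(H : ℝ) ≤ 3 / 2 / t := by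
    rw [Real.sqrt_le_left (by positivity)]
    refine hH2.trans ?_
    rw [hrt, div_pow]
    gcongr
    norm_num
  have hsH0 : 0 ≤ √(H : ℝ) := Real.sqrt_nonneg _
  have h0 := third_test (by positivity : 0 < A * r ^ 3) (by positivity : 0 ≤ B * r ^ 3) x L H hHl h
  rw [hl] at h0
  have h1 : B * r ^ 3 / (√A * t ^ 3) = B / √A * t ^ 3 := by
    rw [hrt]
    field_simp
  rw [h1] at h0
  have h2 : (H : ℝ) * √(H : ℝ) ≤ 3 / t ^ 3 := by
    calc (H : ℝ) * √(H : ℝ) ≤ 2 / r * (3 / 2 / t) := by gcongr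
      _ = 3 / t ^ 3 := by rw [hrt]; field_simp
  have h3 : B / √A * t ^ 3 * L * ((H : ℝ) * √(H : ℝ)) ≤ 3 * (B / √A) * N := by
    calc B / √A * t ^ 3 * L * ((H : ℝ) * √(H : ℝ)) ≤ B / √A * t ^ 3 * N * (3 / t ^ 3) := by gcongr
      _ = 3 * (B / √A) * N := by field_simp
  have h4 : 4 * √(H : ℝ) / (√A * t ^ 3) ≤ 6 / √A * N := by
    have h5 : 1 / t ^ 4 ≤ N := by
      rw [div_le_iff₀ (by positivity)]
      have : t ^ 4 = r ^ 2 := by rw [hrt]; ring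
      rw [this]
      linarith
    calc 4 * √(H : ℝ) / (√A * t ^ 3) ≤ 4 * (3 / 2 / t) / (√A * t ^ 3) := by gcongr
      _ = 6 / √A * (1 / t ^ 4) := by field_simp; ring
      _ ≤ 6 / √A * N := by gcongr
  have h6 : (L : ℝ) + 22 * (B / √A * t ^ 3 * L * (H * √(H : ℝ)) + 4 * √(H : ℝ) / (√A * t ^ 3)) ≤
      (1 + 22 * (3 * (B / √A) + 6 / √A)) * N := by nlinarith
  have h7 : (L : ℝ) + H ≤ 2 * (r * N) * H := by
    have h8 : 1 ≤ r * H := by
      have := mul_le_mul_of_nonneg_left hH1 hr.le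
      rwa [mul_one_div_cancel hr.ne'] at this
    have h9 : 1 ≤ r * N := by nlinarith
    have h10 : N ≤ r * N * H := by nlinarith
    have h11 : (H : ℝ) ≤ r * N * H := by nlinarith
    linarith
  have hK : 0 ≤ (1 + 22 * (3 * (B / √A) + 6 / √A)) * N := by positivity
  have h12 : (H : ℝ) * ‖∑ n ∈ range L, E (x n)‖ ^ 2 ≤
      H * (2 * (1 + 22 * (3 * (B / √A) + 6 / √A)) * (r * N ^ 2)) := by
    refine h0.trans ?_
    calc ((L : ℝ) + H) * (L + 22 * (B / √A * t ^ 3 * L * (H * √(H : ℝ)) + 4 * √(H : ℝ) / (√A * t ^ 3)))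
        ≤ (2 * (r * N) * H) * ((1 + 22 * (3 * (B / √A) + 6 / √A)) * N) := by gcongr
      _ = _ := by ring
  exact le_of_mul_le_mul_left h12 hH0

lemma upper3_core {A B : ℝ} (hA : 0 < A) (hB : 0 < B) :
    ∃ C : ℝ, 0 < C ∧ ∀ N F : ℝ, 1 ≤ N → 0 < F → N ^ 3 ≤ F ^ 2 → ∀ f : ℝ → ℝ,
      ContDiffOn ℝ 3 f (Set.Icc N (2 * N)) →
      (∀ x ∈ Set.Ioo N (2 * N), A * (F / N ^ 3) ≤ iteratedDerivWithin 3 f (Set.Icc N (2 * N)) x ∧
        iteratedDerivWithin 3 f (Set.Icc N (2 * N)) x ≤ B * (F / N ^ 3)) →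
      ∀ N' : ℝ, N ≤ N' → N' ≤ 2 * N →
        ‖∑ n ∈ Icc ⌈N⌉₊ ⌊N'⌋₊, E (f n)‖ ≤ C * min (√N * F ^ (1 / 6 : ℝ)) N := by
  set A' : ℝ := min A (1 / 2) with hA'
  have hA'0 : 0 < A' := lt_min hA (by norm_num)
  set K : ℝ := 2 * (1 + 22 * (3 * (B / √A') + 6 / √A')) with hK
  have hK0 : 0 < K := by positivity
  refine ⟨2 + √K + 1, by positivity, ?_⟩
  intro N F hN hF hNF f hf hd N' hN' hN'2
  have hN0 : 0 < N := by linarith
  set c : ℝ := F ^ (1 / 3 : ℝ) with hc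
  have hc0 : 0 < c := Real.rpow_pos_of_pos hF _
  have hc3 : c ^ 3 = F := by
    rw [hc, ← Real.rpow_natCast, ← Real.rpow_mul hF.le]
    norm_num
  have hsc : F ^ (1 / 6 : ℝ) = √c := by
    rw [hc, Real.sqrt_eq_rpow, ← Real.rpow_mul hF.le]
    norm_num
  have hNc : N ≤ c ^ 2 := by
    have h1 : N ^ 3 ≤ (c ^ 2) ^ 3 := by
      calc N ^ 3 ≤ F ^ 2 := hNF
        _ = (c ^ 2) ^ 3 := by rw [← hc3]; ring
    exact le_of_pow_le_pow_left₀ (by norm_num) (by positivity) h1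
  rw [hsc, ← Real.sqrt_mul hN0.le]
  by_cases hcN : N ≤ c
  · have h1 : N ≤ √(N * c) := by
      apply Real.le_sqrt_of_sq_le
      nlinarith
    rw [min_eq_right h1]
    have h2 := trivial_le hN hN'2 f
    have : 0 ≤ (√K + 1) * N := by positivity
    nlinarith
  · push Not at hcN
    have h1 : √(N * c) ≤ N := by
      rw [Real.sqrt_le_left hN0.le]
      nlinarith
    rw [min_eq_left h1]
    have hs1 : 1 ≤ √(N * c) := by
      rw [Real.one_le_sqrt]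
      have : 1 ≤ c := by nlinarith
      nlinarith
    have hmain : ‖∑ n ∈ Icc ⌈N⌉₊ ⌊N'⌋₊, E (f n)‖ ≤ √K * √(N * c) + 1 := by
      by_cases h01 : ⌈N⌉₊ ≤ ⌊N'⌋₊
      · obtain ⟨L, hL⟩ : ∃ L, ⌊N'⌋₊ = ⌈N⌉₊ + L := ⟨⌊N'⌋₊ - ⌈N⌉₊, by omega⟩
        rw [hL]
        have e1 : ∑ n ∈ Icc ⌈N⌉₊ (⌈N⌉₊ + L), E (f n) =
            ∑ k ∈ range L, E (f ((⌈N⌉₊ + k : ℕ) : ℝ)) + E (f ((⌈N⌉₊ + L : ℕ) : ℝ)) := by
          rw [← sum_range_succ (fun k => E (f ((⌈N⌉₊ + k : ℕ) : ℝ)))]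
          rw [← Finset.Ico_succ_right_eq_Icc, Finset.sum_Ico_eq_sum_range]
          congr 1
          rw [Nat.succ_eq_succ, Nat.succ_eq_add_one]
          congr 1
          omega
        rw [e1]
        refine (norm_add_le _ _).trans ?_
        rw [norm_E]
        have hceil : N ≤ ⌈N⌉₊ := Nat.le_ceil N
        have hfl : ((⌈N⌉₊ + L : ℕ) : ℝ) ≤ 2 * N := by
          rw [← hL]
          exact (Nat.floor_le (by linarith)).trans hN'2
        have hLN : (L : ℝ) ≤ N := by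
          push_cast at hfl
          linarith
        have h2 := core3 (A := A') (B := B) (r := c / N) (N := N) hA'0 (min_le_right _ _) hB (by positivity)
          (by rw [div_le_one hN0]; exact hcN.le) hN ?_ (fun k : ℕ => f ((⌈N⌉₊ + k : ℕ) : ℝ)) L hLN ?_
        · have h3 : ‖∑ k ∈ range L, E (f ((⌈N⌉₊ + k : ℕ) : ℝ))‖ ≤ √(K * (N * c)) := by
            apply Real.le_sqrt_of_sq_le
            refine h2.trans (le_of_eq ?_)
            rw [hK]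
            field_simp
          rw [Real.sqrt_mul hK0.le] at h3
          linarith
        · have : (c / N) ^ 2 * N = c ^ 2 / N := by field_simp
          rw [this, le_div_iff₀ hN0]
          linarith
        · intro k hk
          have hk2 : ((⌈N⌉₊ + k : ℕ) : ℝ) + 3 ≤ 2 * N := by
            have : ((⌈N⌉₊ + k + 3 : ℕ) : ℝ) ≤ ((⌈N⌉₊ + L : ℕ) : ℝ) := by
              exact_mod_cast (by omega : ⌈N⌉₊ + k + 3 ≤ ⌈N⌉₊ + L)
            push_cast at this hfl ⊢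
            linarith
          have hk1 : N ≤ ((⌈N⌉₊ + k : ℕ) : ℝ) := by
            push_cast
            have : (0 : ℝ) ≤ k := Nat.cast_nonneg _
            linarith
          have h4 := third_diff hf hd ((⌈N⌉₊ + k : ℕ) : ℝ) hk1 hk2
          have e2 : F / N ^ 3 = (c / N) ^ 3 := by rw [div_pow, hc3]
          rw [e2] at h4
          have e3 : ((⌈N⌉₊ + (k + 3) : ℕ) : ℝ) = ((⌈N⌉₊ + k : ℕ) : ℝ) + 3 := by push_cast; ring
          have e4 : ((⌈N⌉₊ + (k + 2) : ℕ) : ℝ) = ((⌈N⌉₊ + k : ℕ) : ℝ) + 2 := by push_cast; ring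
          have e5 : ((⌈N⌉₊ + (k + 1) : ℕ) : ℝ) = ((⌈N⌉₊ + k : ℕ) : ℝ) + 1 := by push_cast; ring
          simp only [e3, e4, e5]
          refine ⟨le_trans ?_ h4.1, h4.2⟩
          apply mul_le_mul_of_nonneg_right (min_le_left _ _) (by positivity)
      · rw [Icc_eq_empty h01, sum_empty, norm_zero]
        positivity
    refine hmain.trans ?_
    nlinarith [Real.sqrt_nonneg K]

/-- **The upper bound of the third derivative test in the class** -/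
theorem class_upper3 (s : ℝ) (hs : 0 < s) : ∃ C : ℝ, 0 < C ∧ ∀ N y : ℝ, 1 ≤ N → 1 ≤ y * N ^ (-s) →
    N ^ 3 ≤ (y * N ^ (-s) * N) ^ 2 →
    ∀ P : ℕ, 3 ≤ P → ∀ η : ℝ, η ≤ 1 / 2 → ∀ f : ℝ → ℝ, ClassP N P s y η f →
      ∀ N' : ℝ, N ≤ N' → N' ≤ 2 * N →
        ‖∑ n ∈ Icc ⌈N⌉₊ ⌊N'⌋₊, E (f n)‖ ≤ C * min (√N * (y * N ^ (-s) * N) ^ (1 / 6 : ℝ)) N := by
  have h2s : (0 : ℝ) < 2 ^ (-s - 2) := Real.rpow_pos_of_pos (by norm_num) _
  obtain ⟨C, hC, h⟩ := upper3_core (A := s * (s + 1) / 2 * 2 ^ (-s - 2)) (B := 3 / 2 * (s * (s + 1)))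
    (by positivity) (by positivity)
  refine ⟨C, hC, ?_⟩
  intro N y hN hL hNF P hP η hη f hf N' hN' hN'2
  have hN0 : 0 < N := by linarith
  have hNs : 0 < N ^ (-s) := Real.rpow_pos_of_pos hN0 _
  have hy : 0 < y := pos_of_mul_pos_left (by linarith : 0 < y * N ^ (-s)) hNs.le
  have h3le : (3 : WithTop ℕ∞) ≤ ((⊤ : ℕ∞) : WithTop ℕ∞) := by
    have : ((3 : ℕ∞) : WithTop ℕ∞) ≤ ((⊤ : ℕ∞) : WithTop ℕ∞) := WithTop.coe_le_coe.mpr le_top
    exact this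
  apply h N (y * N ^ (-s) * N) hN (by positivity) hNF f (hf.1.of_le h3le) ?_ N' hN' hN'2
  intro x hx
  have hx0 : 0 < x := hN0.trans hx.1
  have h1 := hf.2 2 (by omega) x ⟨hx.1.le, hx.2.le⟩
  have hp : poch s 2 = s * (s + 1) := by simp [poch, prod_range_succ]
  rw [hp, abs_le] at h1
  push_cast at h1
  have h3 : N ^ (-s - 2) = N ^ (-s) / N ^ 2 := by
    rw [Real.rpow_sub hN0]
    norm_num
  have h4 : y * N ^ (-s) * N / N ^ 3 = y * N ^ (-s - 2) := by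
    rw [h3]; field_simp
  rw [h4]
  have h5 : x ^ (-s - 2) ≤ N ^ (-s - 2) := Real.rpow_le_rpow_of_nonpos hN0 hx.1.le (by linarith)
  have h6 : (2 * N) ^ (-s - 2) ≤ x ^ (-s - 2) := Real.rpow_le_rpow_of_nonpos hx0 hx.2.le (by linarith)
  rw [Real.mul_rpow (by norm_num) hN0.le] at h6
  have hX : 0 < x ^ (-s - 2) := Real.rpow_pos_of_pos hx0 _
  have hsy : 0 < s * (s + 1) * y := by positivity
  have h7 : η * (s * (s + 1) * y * x ^ (-s - 2)) ≤ 1 / 2 * (s * (s + 1) * y * x ^ (-s - 2)) :=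
    mul_le_mul_of_nonneg_right hη (by positivity)
  have h8 : s * (s + 1) * y * (2 ^ (-s - 2) * N ^ (-s - 2)) ≤ s * (s + 1) * y * x ^ (-s - 2) :=
    mul_le_mul_of_nonneg_left h6 hsy.le
  have h9 : s * (s + 1) * y * x ^ (-s - 2) ≤ s * (s + 1) * y * N ^ (-s - 2) :=
    mul_le_mul_of_nonneg_left h5 hsy.le
  obtain ⟨h10, h11⟩ := h1
  norm_num at h10 h11 ⊢
  constructor
  · nlinarith
  · nlinarith

end Pool.Agent.H502.XR
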