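import Pool.Agent.H502.XR.E7

/-!
# The sum over all windows, for given twists
-/

set_option autoImplicit false

open Finset

namespace Pool.Agent.H502.XR

open Pool.Agent.H502.XQ

/-- Given a linear and a quadratic twist for which the sum of the differences is large, there is a set of
windows such that the sum is large. -/
lemma core_gen {V B : ℝ} {R h q : ℕ} (J m₀ : ℕ) (hh0 : 0 < h) (f₀ : ℝ → ℝ) (a b : ℕ)
    (hab : V ≤ ∑ j ∈ range J, ‖∑ i ∈ range h, ((E (psi ((i : ℝ) / h) / 2) - 1) * E (f₀ ((m₀ + (j * h + i) : ℕ) : ℝ)) *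
      E (b * (B / R * (((m₀ + j * h : ℕ) : ℝ) + i) ^ 2))) * E (a * ((i : ℝ) / q))‖) :
    ∃ S : Finset ℕ,
      (1 / 8) * V ≤
      ‖∑ n ∈ range (J * h), E (f₀ ((m₀ + n : ℕ) : ℝ) + (((a : ℝ) / q) * ((m₀ + n : ℕ) : ℝ) +
        (b * (B / R)) * ((m₀ + n : ℕ) : ℝ) ^ 2 + (1 / 2) * W h m₀ S ((m₀ + n : ℕ) : ℝ)))‖ := by
  set g : ℕ → ℂ := fun n => E (f₀ (n : ℝ) + (((a : ℝ) / q) * (n : ℝ) + (b * (B / R)) * (n : ℝ) ^ 2)) with hg
  set d : ℕ → ℂ := fun j => ∑ i ∈ range h, (E (psi ((i : ℝ) / h) / 2) - 1) * g (m₀ + (j * h + i)) with hd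
  have hdn : ∀ j ∈ range J, ‖∑ i ∈ range h, ((E (psi ((i : ℝ) / h) / 2) - 1) * E (f₀ ((m₀ + (j * h + i) : ℕ) : ℝ)) *
      E (b * (B / R * (((m₀ + j * h : ℕ) : ℝ) + i) ^ 2))) * E (a * ((i : ℝ) / q))‖ = ‖d j‖ := by
    intro j _
    have h1 : d j = E (((a : ℝ) / q) * ((m₀ + j * h : ℕ) : ℝ)) *
        ∑ i ∈ range h, ((E (psi ((i : ℝ) / h) / 2) - 1) * E (f₀ ((m₀ + (j * h + i) : ℕ) : ℝ)) *
        E (b * (B / R * (((m₀ + j * h : ℕ) : ℝ) + i) ^ 2))) * E (a * ((i : ℝ) / q)) := by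
      simp only [hd, hg]
      rw [mul_sum]
      apply sum_congr rfl
      intro i _
      have h2 : E (f₀ ((m₀ + (j * h + i) : ℕ) : ℝ) + (((a : ℝ) / q) * ((m₀ + (j * h + i) : ℕ) : ℝ) +
          (b * (B / R)) * ((m₀ + (j * h + i) : ℕ) : ℝ) ^ 2)) =
          E (((a : ℝ) / q) * ((m₀ + j * h : ℕ) : ℝ)) * (E (f₀ ((m₀ + (j * h + i) : ℕ) : ℝ)) *
            E (b * (B / R * (((m₀ + j * h : ℕ) : ℝ) + i) ^ 2)) * E (a * ((i : ℝ) / q))) := by
        rw [← E_add, ← E_add, ← E_add]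
        congr 1
        push_cast
        ring
      rw [h2]
      ring
    rw [h1, norm_mul, norm_E, one_mul]
  rw [sum_congr rfl hdn] at hab
  obtain ⟨S, hSJ, hS⟩ := subset_sum J d
  have hval : ∀ S' ⊆ range J, ∑ n ∈ range (J * h), E (f₀ ((m₀ + n : ℕ) : ℝ) + (((a : ℝ) / q) * ((m₀ + n : ℕ) : ℝ) +
        (b * (B / R)) * ((m₀ + n : ℕ) : ℝ) ^ 2 + (1 / 2) * W h m₀ S' ((m₀ + n : ℕ) : ℝ))) =
      ∑ j ∈ range J, ∑ i ∈ range h, g (m₀ + (j * h + i)) + ∑ j ∈ S', d j := by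
    intro S' hS'
    rw [sum_range_mul']
    have h1 : ∑ j ∈ S', d j = ∑ j ∈ range J, if j ∈ S' then d j else 0 := by
      rw [← sum_filter]
      congr 1
      ext j
      rw [mem_filter]
      exact ⟨fun h => ⟨hS' h, h⟩, fun h => h.2⟩
    rw [h1, ← sum_add_distrib]
    apply sum_congr rfl
    intro j _
    have h2 : ∀ i ∈ range h, E (f₀ ((m₀ + (j * h + i) : ℕ) : ℝ) + (((a : ℝ) / q) * ((m₀ + (j * h + i) : ℕ) : ℝ) +
        (b * (B / R)) * ((m₀ + (j * h + i) : ℕ) : ℝ) ^ 2 + (1 / 2) * W h m₀ S' ((m₀ + (j * h + i) : ℕ) : ℝ))) =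
        g (m₀ + (j * h + i)) + if j ∈ S' then (E (psi ((i : ℝ) / h) / 2) - 1) * g (m₀ + (j * h + i)) else 0 := by
      intro i hi
      have h3 := W_nat hh0 (m₀ : ℝ) S' (j := j) (i := i) (mem_range.mp hi)
      have h4 : ((m₀ + (j * h + i) : ℕ) : ℝ) = (m₀ : ℝ) + ((j * h + i : ℕ) : ℝ) := by push_cast; ring
      have h5 : W h m₀ S' ((m₀ + (j * h + i) : ℕ) : ℝ) = if j ∈ S' then psi ((i : ℝ) / h) else 0 := by
        rw [h4]; exact h3
      rw [h5]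
      split_ifs with hj
      · have h6 : E (f₀ ((m₀ + (j * h + i) : ℕ) : ℝ) + (((a : ℝ) / q) * ((m₀ + (j * h + i) : ℕ) : ℝ) +
          (b * (B / R)) * ((m₀ + (j * h + i) : ℕ) : ℝ) ^ 2 + (1 / 2) * psi ((i : ℝ) / h))) =
          g (m₀ + (j * h + i)) * E (psi ((i : ℝ) / h) / 2) := by
          simp only [hg]
          rw [← E_add]
          congr 1
          ring
        rw [h6]
        ring
      · simp only [hg]
        rw [add_zero]
        congr 1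
        ring
    rw [sum_congr rfl h2, sum_add_distrib]
    congr 1
    split_ifs with hj
    · rfl
    · simp
  have hS1 := hval S hSJ
  have hS2 := hval ∅ (empty_subset _)
  rw [sum_empty, add_zero] at hS2
  by_contra hcon
  push Not at hcon
  have c1 := hcon S
  have c2 := hcon ∅
  rw [hS1] at c1
  rw [hS2] at c2
  have h3 : ‖∑ j ∈ S, d j‖ ≤ ‖∑ j ∈ range J, ∑ i ∈ range h, g (m₀ + (j * h + i)) + ∑ j ∈ S, d j‖ +
      ‖∑ j ∈ range J, ∑ i ∈ range h, g (m₀ + (j * h + i))‖ := by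
    have h4 : ∑ j ∈ S, d j = (∑ j ∈ range J, ∑ i ∈ range h, g (m₀ + (j * h + i)) + ∑ j ∈ S, d j) -
      ∑ j ∈ range J, ∑ i ∈ range h, g (m₀ + (j * h + i)) := by ring
    calc ‖∑ j ∈ S, d j‖ = ‖(∑ j ∈ range J, ∑ i ∈ range h, g (m₀ + (j * h + i)) + ∑ j ∈ S, d j) -
      ∑ j ∈ range J, ∑ i ∈ range h, g (m₀ + (j * h + i))‖ := by rw [← h4]
      _ ≤ _ := norm_sub_le _ _
  linarith

end Pool.Agent.H502.XR
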