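import Pool.Agent.H502.XR.E8

/-!
# The perturbation
-/

set_option autoImplicit false

open Finset

namespace Pool.Agent.H502.XR

open Pool.Agent.H502.XQ

/-- The perturbation for given twists and windows -/
lemma build {P : ℕ} {η N F M B V : ℝ} {h J q R : ℕ} (hη : 0 < η) (hN16 : 16 ≤ N) (hF0 : 0 < F)
    (hFη : 16 / η * N ≤ F) (hM0 : 0 < M) (hM : ∀ p ≤ P, ∀ x, |iteratedDeriv p psi x| ≤ M) (hh4 : 4 ≤ h)
    (hder : ∀ p ≤ P, (h : ℝ)⁻¹ ^ p * M ≤ η * F / N ^ p) (hB0 : 0 < B) (hB1 : B ≤ η * F / (16 * N ^ 2))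
    (a b : ℕ) (hq : 0 < q) (ha : a < q) (hR0 : 0 < R) (hb : b < R) (S : Finset ℕ)
    (hJh1 : (J : ℝ) * h ≤ N / 2) (hJh3 : 1 ≤ J * h) (f₀ : ℝ → ℝ)
    (hS : V ≤ ‖∑ n ∈ range (J * h), E (f₀ ((⌈N⌉₊ + n : ℕ) : ℝ) + (((a : ℝ) / q) * ((⌈N⌉₊ + n : ℕ) : ℝ) +
        (b * (B / R)) * ((⌈N⌉₊ + n : ℕ) : ℝ) ^ 2 + (1 / 2) * W h ⌈N⌉₊ S ((⌈N⌉₊ + n : ℕ) : ℝ)))‖) :
    ∃ w : ℝ → ℝ, ContDiff ℝ ((⊤ : ℕ∞) : WithTop ℕ∞) w ∧
      (∀ p ≤ P, ∀ x ∈ Set.Icc N (2 * N), |iteratedDeriv p w x| ≤ η * F / N ^ p) ∧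
      ∃ N' : ℝ, N ≤ N' ∧ N' ≤ 2 * N ∧ V ≤ ‖∑ n ∈ Icc ⌈N⌉₊ ⌊N'⌋₊, E (f₀ n + w n)‖ := by
  have hN0 : 0 < N := by linarith
  have hh0 : (0 : ℝ) < h := by exact_mod_cast (by omega : 0 < h)
  have hR0' : (0 : ℝ) < R := by exact_mod_cast hR0
  have hα0 : 0 ≤ (a : ℝ) / (q : ℝ) := by positivity
  have hα1 : (a : ℝ) / (q : ℝ) ≤ 1 := by
    rw [div_le_one (by exact_mod_cast hq)]
    exact_mod_cast ha.le
  have hβ0 : 0 ≤ (b : ℝ) * (B / R) := by positivity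
  have hβ1 : (b : ℝ) * (B / R) ≤ B := by
    have : (b : ℝ) ≤ R := by exact_mod_cast hb.le
    calc (b : ℝ) * (B / R) ≤ R * (B / R) := by gcongr
      _ = B := by field_simp
  refine ⟨fun x => (((a : ℝ) / (q : ℝ)) * x + (b * (B / R)) * x ^ 2) + (1 / 2) * W h (⌈N⌉₊ : ℝ) S x, ?_, ?_, ?_⟩
  · have h1 : ContDiff ℝ ((⊤ : ℕ∞) : WithTop ℕ∞) (W h (⌈N⌉₊ : ℝ) S) := contDiff_W _ _ _ _ le_rfl
    exact (by fun_prop : ContDiff ℝ ((⊤ : ℕ∞) : WithTop ℕ∞)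
      (fun x : ℝ => ((a : ℝ) / (q : ℝ)) * x + (b * (B / R)) * x ^ 2)).add (contDiff_const.mul h1)
  · intro p hp x hx
    have hle : (p : WithTop ℕ∞) ≤ ((⊤ : ℕ∞) : WithTop ℕ∞) := by exact_mod_cast le_top
    have h1 : ContDiff ℝ (p : WithTop ℕ∞) (fun x => (1 / 2) * W h (⌈N⌉₊ : ℝ) S x) :=
      contDiff_const.mul (contDiff_W _ _ _ _ hle)
    have h2 : ContDiff ℝ (p : WithTop ℕ∞)
      (fun x : ℝ => ((a : ℝ) / (q : ℝ)) * x + (b * (B / R)) * x ^ 2) := by fun_prop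
    rw [iteratedDeriv_fun_add h2.contDiffAt h1.contDiffAt, iteratedDeriv_const_mul_field]
    refine (abs_add_le _ _).trans ?_
    have h3 := quad_le hη hN0 hF0 hFη hB1 hα0 hα1 hβ0 hβ1 p hx
    have h4 := deriv_W hh0 (⌈N⌉₊ : ℝ) S hM0.le (hM p hp) x
    have h5 := h4.trans (hder p hp)
    have h6 : |(1 / 2 : ℝ) * iteratedDeriv p (W h (⌈N⌉₊ : ℝ) S) x| ≤ (1 / 2) * (η * F / N ^ p) := by
      rw [abs_mul, abs_of_pos (by norm_num : (0 : ℝ) < 1 / 2)]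
      gcongr
    linarith
  · refine ⟨((⌈N⌉₊ + J * h - 1 : ℕ) : ℝ), ?_, ?_, ?_⟩
    · have h1 := Nat.le_ceil N
      have h2 : ⌈N⌉₊ ≤ ⌈N⌉₊ + J * h - 1 := by omega
      have h3 : (⌈N⌉₊ : ℝ) ≤ ((⌈N⌉₊ + J * h - 1 : ℕ) : ℝ) := by exact_mod_cast h2
      linarith
    · have h1 := Nat.ceil_lt_add_one hN0.le
      have h2 : ((⌈N⌉₊ + J * h - 1 : ℕ) : ℝ) + 1 = ⌈N⌉₊ + J * h := by
        have : ⌈N⌉₊ + J * h - 1 + 1 = ⌈N⌉₊ + J * h := by omega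
        exact_mod_cast this
      linarith
    · rw [Nat.floor_natCast]
      have h1 : Icc ⌈N⌉₊ (⌈N⌉₊ + J * h - 1) = Ico ⌈N⌉₊ (⌈N⌉₊ + J * h) := by
        ext n
        rw [mem_Icc, mem_Ico]
        omega
      rw [h1, sum_Ico_eq_sum_range, Nat.add_sub_cancel_left]
      exact hS

/-- the windows -/
lemma windows {N : ℝ} {h : ℕ} (hN : 0 < N) (hh : 0 < h) (hhN : (h : ℝ) ≤ N / 4) :
    ∃ J : ℕ, (J : ℝ) * h ≤ N / 2 ∧ 1 ≤ J * h ∧ N / (4 * h) ≤ J := by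
  have hh0 : (0 : ℝ) < h := by exact_mod_cast hh
  have hJ2 : N / (2 * h) < ⌊N / (2 * h)⌋₊ + 1 := Nat.lt_floor_add_one _
  have hJ1 : (⌊N / (2 * h)⌋₊ : ℝ) ≤ N / (2 * h) := Nat.floor_le (by positivity)
  have hN4h : 1 ≤ N / (4 * h) := by
    rw [one_le_div (by positivity)]
    linarith
  have hN42 : N / (2 * h) = 2 * (N / (4 * h)) := by
    field_simp
    ring
  have hJ3 : N / (4 * h) ≤ (⌊N / (2 * h)⌋₊ : ℝ) := by linarith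
  refine ⟨⌊N / (2 * h)⌋₊, ?_, ?_, hJ3⟩
  · calc (⌊N / (2 * h)⌋₊ : ℝ) * h ≤ N / (2 * h) * h := by gcongr
      _ = N / 2 := by field_simp
  · have h1 : (1 : ℝ) ≤ (⌊N / (2 * h)⌋₊ : ℝ) := by linarith
    have h2 : 1 ≤ ⌊N / (2 * h)⌋₊ := by exact_mod_cast h1
    exact Nat.mul_pos h2 hh

/-- the derivative condition -/
lemma der_cond {P : ℕ} (hP : 1 ≤ P) {η N F M : ℝ} {h : ℕ} (hη : 0 < η) (hN0 : 0 < N) (hF0 : 0 < F)
    (hM0 : 0 < M) (hh0 : (0 : ℝ) < h) (hhκ : N * (M / (η * F)) ^ (1 / (P : ℝ)) ≤ h) (hhN : (h : ℝ) ≤ N / 4) :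
    ∀ p ≤ P, (h : ℝ)⁻¹ ^ p * M ≤ η * F / N ^ p := by
  intro p hp
  have h1 : (h : ℝ) / N ≤ 1 := by rw [div_le_one hN0]; linarith
  have h2 : ((h : ℝ) / N) ^ P ≤ ((h : ℝ) / N) ^ p := pow_le_pow_of_le_one (by positivity) h1 hp
  have h3 : M / (η * F) ≤ ((h : ℝ) / N) ^ P := by
    calc M / (η * F) = ((M / (η * F)) ^ (1 / (P : ℝ))) ^ P := by
          rw [one_div]
          exact (Real.rpow_inv_natCast_pow (by positivity) (by omega)).symm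
      _ ≤ ((h : ℝ) / N) ^ P := by
          apply pow_le_pow_left₀ (by positivity)
          rw [le_div_iff₀ hN0]
          calc (M / (η * F)) ^ (1 / (P : ℝ)) * N = N * (M / (η * F)) ^ (1 / (P : ℝ)) := by ring
            _ ≤ h := hhκ
  have h4 := h3.trans h2
  rw [div_le_iff₀ (by positivity), div_pow] at h4
  rw [inv_pow, inv_mul_eq_div, div_le_div_iff₀ (by positivity) (by positivity)]
  have h5 : (h : ℝ) ^ p / N ^ p * (η * F) * N ^ p = η * F * h ^ p := by field_simp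
  have h6 : M * N ^ p ≤ (h : ℝ) ^ p / N ^ p * (η * F) * N ^ p := mul_le_mul_of_nonneg_right h4 (by positivity)
  linarith

end Pool.Agent.H502.XR
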