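import Pool.Agent.H502.XR.E14

/-!
# The fourth moment over the linear twists, on `ZMod q`
-/

set_option autoImplicit false

open Finset

namespace Pool.Agent.H502.XR

open Pool.Agent.H502.XQ

variable {q : ℕ} [NeZero q]

lemma sum_zmod {G : Type*} [AddCommMonoid G] (F : ℕ → G) : ∑ z : ZMod q, F z.val = ∑ s ∈ range q, F s := by
  apply sum_bij (fun z _ => z.val)
  · intro z _
    exact mem_range.mpr (ZMod.val_lt z)
  · intro z _ z' _ h
    exact ZMod.val_injective q h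
  · intro s hs
    exact ⟨(s : ZMod q), mem_univ _, ZMod.val_natCast_of_lt (mem_range.mp hs)⟩
  · intro z _
    rfl

/-- the character -/
noncomputable def chi (a : ℕ) (z : ZMod q) : ℂ := E (a * ((z.val : ℝ) / q))

lemma chi_add (a : ℕ) (z z' : ZMod q) : chi a (z + z') = chi a z * chi a z' := by
  unfold chi
  rw [← E_add, ZMod.val_add]
  have hq : (q : ℝ) ≠ 0 := by exact_mod_cast NeZero.ne q
  have h1 := Nat.div_add_mod (z.val + z'.val) q
  have h2 : (q : ℝ) * (((z.val + z'.val) / q : ℕ) : ℝ) + (((z.val + z'.val) % q : ℕ) : ℝ) = z.val + z'.val := by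
    exact_mod_cast h1
  have h3 : (a : ℝ) * ((z.val : ℝ) / q) + a * ((z'.val : ℝ) / q) =
      a * ((((z.val + z'.val) % q : ℕ) : ℝ) / q) + ((a * ((z.val + z'.val) / q) : ℕ) : ℤ) := by
    have h4 : (((z.val + z'.val) % q : ℕ) : ℝ) = z.val + z'.val - (q : ℝ) * (((z.val + z'.val) / q : ℕ) : ℝ) := by
      linarith
    rw [h4, Int.cast_natCast, Nat.cast_mul]
    field_simp
    ring
  rw [h3, E_add, E_int, mul_one]

lemma norm_chi (a : ℕ) (z : ZMod q) : ‖chi a z‖ = 1 := norm_E _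

/-- the autocorrelation -/
noncomputable def cor (g : ZMod q → ℂ) (u : ZMod q) : ℂ := ∑ z, g (z + u) * (starRingEnd ℂ) (g z)

/-- the box term -/
noncomputable def box (g : ZMod q → ℂ) (u w : ZMod q) : ℂ :=
  ∑ z, g (z + u + w) * (starRingEnd ℂ) (g (z + w)) * ((starRingEnd ℂ) (g (z + u)) * g z)

lemma box_comm (g : ZMod q → ℂ) (u w : ZMod q) : box g u w = box g w u := by
  unfold box
  apply sum_congr rfl
  intro z _
  rw [add_right_comm]
  ring

lemma cor_sq (g : ZMod q → ℂ) (u : ZMod q) : ((‖cor g u‖ : ℂ)) ^ 2 = ∑ w, box g u w := by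
  rw [← Complex.mul_conj']
  unfold cor box
  rw [map_sum, sum_mul_sum, sum_comm]
  rw [sum_comm (f := fun w z => g (z + u + w) * (starRingEnd ℂ) (g (z + w)) * ((starRingEnd ℂ) (g (z + u)) * g z))]
  apply sum_congr rfl
  intro z _
  refine (Fintype.sum_equiv (Equiv.addLeft z) _ _ ?_).symm
  intro w
  simp only [Equiv.coe_addLeft, map_mul, Complex.conj_conj]
  rw [add_right_comm]

lemma norm_sq_eq (g : ZMod q → ℂ) (a : ℕ) :
    ((‖∑ z, g z * chi a z‖ : ℂ)) ^ 2 = ∑ u, cor g u * chi a u := by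
  rw [← Complex.mul_conj']
  unfold cor
  rw [map_sum, sum_mul_sum, sum_comm]
  simp only [sum_mul]
  rw [sum_comm (f := fun u z => g (z + u) * (starRingEnd ℂ) (g z) * chi a u)]
  apply sum_congr rfl
  intro z _
  refine (Fintype.sum_equiv (Equiv.addLeft z) _ _ ?_).symm
  intro u
  simp only [Equiv.coe_addLeft, map_mul]
  rw [chi_add]
  have h1 : chi a z * (starRingEnd ℂ) (chi a z) = 1 := by
    rw [Complex.mul_conj', norm_chi]
    norm_num
  linear_combination (- g (z + u) * (starRingEnd ℂ) (g z) * chi a u) * h1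

/-- **The fourth moment** -/
lemma fourth_zmod (g : ZMod q → ℂ) :
    ∑ a ∈ range q, ‖∑ z, g z * chi a z‖ ^ 4 = q * ∑ u, ‖cor g u‖ ^ 2 := by
  have hq : 0 < q := Nat.pos_of_ne_zero (NeZero.ne q)
  have h1 := parseval hq le_rfl (fun s : ℕ => cor g (s : ZMod q))
  have h2 : ∑ i ∈ range q, ‖cor g (i : ZMod q)‖ ^ 2 = ∑ u, ‖cor g u‖ ^ 2 := by
    rw [← sum_zmod (q := q) (fun s : ℕ => ‖cor g (s : ZMod q)‖ ^ 2)]
    apply sum_congr rfl
    intro u _
    rw [ZMod.natCast_zmod_val]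
  rw [h2] at h1
  rw [← h1]
  apply sum_congr rfl
  intro a _
  have h3 : ∑ i ∈ range q, cor g (i : ZMod q) * E (a * ((i : ℝ) / q)) = ∑ u, cor g u * chi a u := by
    rw [← sum_zmod (q := q) (fun s : ℕ => cor g (s : ZMod q) * E (a * ((s : ℝ) / q)))]
    apply sum_congr rfl
    intro u _
    rw [ZMod.natCast_zmod_val]
    rfl
  rw [h3, ← norm_sq_eq]
  rw [norm_pow, Complex.norm_real, norm_norm]
  ring

/-- **The decomposition of the fourth moment** -/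
lemma decomp (g : ZMod q → ℂ) (U : Finset (ZMod q)) :
    ((∑ u, ‖cor g u‖ ^ 2 : ℝ) : ℂ) = 2 * ((∑ u ∈ U, ‖cor g u‖ ^ 2 : ℝ) : ℂ) -
      ∑ u ∈ U, ∑ w ∈ U, box g u w + ∑ u ∈ Uᶜ, ∑ w ∈ Uᶜ, box g u w := by
  have h1 : ∀ T : Finset (ZMod q), ((∑ u ∈ T, ‖cor g u‖ ^ 2 : ℝ) : ℂ) = ∑ u ∈ T, ∑ w, box g u w := by
    intro T
    push_cast
    exact sum_congr rfl fun u _ => cor_sq g u
  rw [h1, h1]
  have h2 : ∑ u, ∑ w, box g u w = ∑ u ∈ U, ∑ w, box g u w + ∑ u ∈ Uᶜ, ∑ w, box g u w :=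
    (sum_add_sum_compl U _).symm
  have h3 : ∀ u, ∑ w, box g u w = ∑ w ∈ U, box g u w + ∑ w ∈ Uᶜ, box g u w := fun u =>
    (sum_add_sum_compl U _).symm
  have h4 : ∑ u ∈ Uᶜ, ∑ w ∈ U, box g u w = ∑ w ∈ U, ∑ u ∈ Uᶜ, box g w u := by
    rw [sum_comm]
    exact sum_congr rfl fun w _ => sum_congr rfl fun u _ => box_comm g u w
  have h5 : ∑ u ∈ Uᶜ, ∑ w, box g u w = ∑ u ∈ Uᶜ, ∑ w ∈ U, box g u w + ∑ u ∈ Uᶜ, ∑ w ∈ Uᶜ, box g u w := by
    rw [← sum_add_distrib]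
    exact sum_congr rfl fun u _ => h3 u
  have h6 : ∑ u ∈ U, ∑ w, box g u w = ∑ u ∈ U, ∑ w ∈ U, box g u w + ∑ u ∈ U, ∑ w ∈ Uᶜ, box g u w := by
    rw [← sum_add_distrib]
    exact sum_congr rfl fun u _ => h3 u
  rw [h2, h5, h4, h6]
  ring

end Pool.Agent.H502.XR
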