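import Pool.Agent.H502.XR.F1

/-!
# The autocorrelation for small shifts
-/

set_option autoImplicit false

open Finset

namespace Pool.Agent.H502.XR

open Pool.Agent.H502.XQ

lemma diff_sum {φ : ℕ → ℝ} {h : ℕ} {lo hi : ℝ}
    (h2 : ∀ k, k + 2 ≤ h → -hi ≤ φ (k + 2) - 2 * φ (k + 1) + φ k ∧ φ (k + 2) - 2 * φ (k + 1) + φ k ≤ -lo)
    (k : ℕ) : ∀ j, k + 1 + j ≤ h → -(hi * j) ≤ (φ (k + 1 + j) - φ (k + j)) - (φ (k + 1) - φ k) ∧
      (φ (k + 1 + j) - φ (k + j)) - (φ (k + 1) - φ k) ≤ -(lo * j) := by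
  intro j
  induction j with
  | zero => intro _; simp
  | succ j ih =>
    intro hj
    obtain ⟨i1, i2⟩ := ih (by omega)
    obtain ⟨i3, i4⟩ := h2 (k + j) (by omega)
    have e1 : k + 1 + (j + 1) = k + j + 2 := by ring
    have e2 : k + (j + 1) = k + j + 1 := by ring
    have e3 : k + 1 + j = k + j + 1 := by ring
    rw [e3] at i1 i2
    rw [e1, e2]
    push_cast
    constructor <;> linarith

lemma second_mono {φ : ℕ → ℝ} {h : ℕ}
    (h3 : ∀ k, k + 3 ≤ h → 0 ≤ φ (k + 3) - 3 * φ (k + 2) + 3 * φ (k + 1) - φ k)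
    (k : ℕ) : ∀ j, k + 2 + j ≤ h → φ (k + 2) - 2 * φ (k + 1) + φ k ≤
      φ (k + j + 2) - 2 * φ (k + j + 1) + φ (k + j) := by
  intro j
  induction j with
  | zero => intro _; simp
  | succ j ih =>
    intro hj
    have i1 := ih (by omega)
    have i3 := h3 (k + j) (by omega)
    have e1 : k + (j + 1) + 2 = k + j + 3 := by ring
    have e2 : k + (j + 1) + 1 = k + j + 2 := by ring
    have e3 : k + (j + 1) = k + j + 1 := by ring
    rw [e1, e2, e3]
    linarith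

lemma kl_theta {φ : ℕ → ℝ} {h t n : ℕ} {lo hi : ℝ} (hlo : 0 < lo) (ht : 1 ≤ t) (hn : n + t ≤ h)
    (h2 : ∀ k, k + 2 ≤ h → -hi ≤ φ (k + 2) - 2 * φ (k + 1) + φ k ∧ φ (k + 2) - 2 * φ (k + 1) + φ k ≤ -lo)
    (h3 : ∀ k, k + 3 ≤ h → 0 ≤ φ (k + 3) - 3 * φ (k + 2) + 3 * φ (k + 1) - φ k)
    (hhi : hi * t ≤ 3 / 4) :
    ‖∑ x ∈ range n, E (φ (x + t) - φ x)‖ ≤ 3 + 1 / (Real.pi * (lo * t)) := by
  have ht0 : (0 : ℝ) < t := by exact_mod_cast ht
  have hd : ∀ k < n, -(hi * t) ≤ (φ (k + 1 + t) - φ (k + t)) - (φ (k + 1) - φ k) ∧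
      (φ (k + 1 + t) - φ (k + t)) - (φ (k + 1) - φ k) ≤ -(lo * t) := fun k hk => diff_sum h2 k t (by omega)
  apply kl_left (fun x => φ (x + t) - φ x) 0 n (by positivity)
  · intro k hk
    have i1 := second_mono h3 k t (by omega)
    have e1 : k + 2 + t = k + t + 2 := by ring
    have e2 : k + 1 + t = k + t + 1 := by ring
    simp only [e1, e2]
    linarith
  · intro k hk
    have := (hd k hk).1
    push_cast
    linarith
  · intro k hk
    have := (hd k hk).2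
    push_cast
    linarith

lemma abel_eq (g e : ℕ → ℂ) (n : ℕ) : ∑ x ∈ range n, g x * e x =
    g n * ∑ x ∈ range n, e x - ∑ x ∈ range n, (g (x + 1) - g x) * ∑ y ∈ range (x + 1), e y := by
  induction n with
  | zero => simp
  | succ n ih =>
    rw [sum_range_succ, ih, sum_range_succ (fun x => (g (x + 1) - g x) * ∑ y ∈ range (x + 1), e y),
      sum_range_succ e]
    ring

lemma abel_le {g e : ℕ → ℂ} {n : ℕ} {G V Mx : ℝ} (hMx : 0 ≤ Mx) (hM : ∀ m ≤ n, ‖∑ x ∈ range m, e x‖ ≤ Mx)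
    (hG : ‖g n‖ ≤ G) (hV : ∑ x ∈ range n, ‖g (x + 1) - g x‖ ≤ V) :
    ‖∑ x ∈ range n, g x * e x‖ ≤ (G + V) * Mx := by
  rw [abel_eq, add_mul]
  refine (norm_sub_le _ _).trans (add_le_add ?_ ?_)
  · rw [norm_mul]
    exact mul_le_mul hG (hM n le_rfl) (norm_nonneg _) ((norm_nonneg _).trans hG)
  · refine (norm_sum_le _ _).trans ?_
    refine le_trans ?_ (mul_le_mul_of_nonneg_right hV hMx)
    rw [sum_mul]
    apply sum_le_sum
    intro x hx
    rw [norm_mul]
    exact mul_le_mul_of_nonneg_left (hM (x + 1) (by have := mem_range.mp hx; omega)) (norm_nonneg _)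

lemma norm_E_sub_le (x y : ℝ) : ‖E x - E y‖ ≤ 2 * Real.pi * |x - y| := by
  have h1 : E x - E y = E y * (E (x - y) - 1) := by
    rw [mul_sub, ← E_add, mul_one]
    congr 2
    ring
  rw [h1, norm_mul, norm_E, one_mul]
  have h2 := Real.norm_exp_I_mul_ofReal_sub_one_le (x := 2 * Real.pi * (x - y))
  have h3 : E (x - y) = Complex.exp (Complex.I * ((2 * Real.pi * (x - y) : ℝ) : ℂ)) := by
    unfold E
    congr 1
    push_cast
    ring
  rw [h3]
  refine h2.trans ?_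
  have := Real.pi_pos
  rw [Real.norm_eq_abs, abs_mul, abs_of_pos (by positivity)]

/-- the amplitude -/
noncomputable def amp (h i : ℕ) : ℂ := E (psi ((i : ℝ) / h) / 2) - 1

lemma amp_diff {M : ℝ} (hM : ∀ x, |iteratedDeriv 1 psi x| ≤ M) {h : ℕ} (hh : 0 < h) (i : ℕ) :
    ‖amp h (i + 1) - amp h i‖ ≤ Real.pi * M / h := by
  have hh0 : (0 : ℝ) < h := by exact_mod_cast hh
  unfold amp
  rw [sub_sub_sub_cancel_right]
  refine (norm_E_sub_le _ _).trans ?_
  have h1 : |psi (((i + 1 : ℕ) : ℝ) / h) - psi ((i : ℝ) / h)| ≤ M * |((i + 1 : ℕ) : ℝ) / h - (i : ℝ) / h| := by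
    have hdiff : Differentiable ℝ (psi : ℝ → ℝ) := (psi.contDiff (n := 1)).differentiable (by norm_num)
    have := Convex.norm_image_sub_le_of_norm_deriv_le (f := (psi : ℝ → ℝ)) (C := M) (s := Set.univ)
      (x := (i : ℝ) / h) (y := ((i + 1 : ℕ) : ℝ) / h) (fun x _ => hdiff x) (fun x _ => by
        have h2 := hM x
        rw [iteratedDeriv_one] at h2
        exact h2) convex_univ (Set.mem_univ _) (Set.mem_univ _)
    simpa [Real.norm_eq_abs] using this
  have h2 : |((i + 1 : ℕ) : ℝ) / h - (i : ℝ) / h| = 1 / h := by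
    have : ((i + 1 : ℕ) : ℝ) / h - (i : ℝ) / h = 1 / h := by push_cast; ring
    rw [this, abs_of_pos (by positivity)]
  rw [h2] at h1
  have h3 : |psi (((i + 1 : ℕ) : ℝ) / h) / 2 - psi ((i : ℝ) / h) / 2| =
      |psi (((i + 1 : ℕ) : ℝ) / h) - psi ((i : ℝ) / h)| / 2 := by
    rw [← sub_div, abs_div, abs_two]
  rw [h3]
  have hpi := Real.pi_pos
  calc 2 * Real.pi * (|psi (((i + 1 : ℕ) : ℝ) / h) - psi ((i : ℝ) / h)| / 2) ≤
      2 * Real.pi * (M * (1 / h) / 2) := by gcongr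
    _ = Real.pi * M / h := by ring

lemma amp_le (h i : ℕ) : ‖amp h i‖ ≤ 2 := u_le h i

/-- the correlation sum for the shift `t` -/
lemma cor_sum_le {M : ℝ} (hM0 : 0 ≤ M) (hM : ∀ x, |iteratedDeriv 1 psi x| ≤ M) {φ : ℕ → ℝ} {h t : ℕ} {lo hi : ℝ}
    (hlo : 0 < lo) (hlohi : lo ≤ hi) (ht : 1 ≤ t) (hth : t ≤ h)
    (h2 : ∀ k, k + 2 ≤ h → -hi ≤ φ (k + 2) - 2 * φ (k + 1) + φ k ∧ φ (k + 2) - 2 * φ (k + 1) + φ k ≤ -lo)
    (h3 : ∀ k, k + 3 ≤ h → 0 ≤ φ (k + 3) - 3 * φ (k + 2) + 3 * φ (k + 1) - φ k)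
    (hhi : hi * t ≤ 3 / 4) :
    ‖∑ x ∈ range (h - t), (amp h (x + t) * E (φ (x + t))) * (starRingEnd ℂ) (amp h x * E (φ x))‖ ≤
      (4 + 4 * Real.pi * M) * (3 / (lo * t)) := by
  have hh : 0 < h := by omega
  have hh0 : (0 : ℝ) < h := by exact_mod_cast hh
  have ht0 : (0 : ℝ) < t := by exact_mod_cast ht
  have hpi := Real.pi_pos
  have hpi3 := Real.pi_gt_three
  have e1 : ∀ x ∈ range (h - t), (amp h (x + t) * E (φ (x + t))) * (starRingEnd ℂ) (amp h x * E (φ x)) =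
      (amp h (x + t) * (starRingEnd ℂ) (amp h x)) * E (φ (x + t) - φ x) := by
    intro x _
    rw [map_mul, conj_E, sub_eq_add_neg, E_add]
    ring
  rw [sum_congr rfl e1]
  have hlot : lo * t ≤ 3 / 4 := le_trans (by gcongr) hhi
  have hMx : ∀ m ≤ h - t, ‖∑ x ∈ range m, E (φ (x + t) - φ x)‖ ≤ 3 / (lo * t) := by
    intro m hm
    refine (kl_theta hlo ht (by omega) h2 h3 hhi).trans ?_
    have hlt : 0 < lo * t := by positivity
    have k1 : 1 / (Real.pi * (lo * t)) ≤ (1 / 3) / (lo * t) := by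
      rw [div_le_div_iff₀ (by positivity) hlt]
      nlinarith
    have k2 : (3 : ℝ) ≤ (9 / 4) / (lo * t) := by
      rw [le_div_iff₀ hlt]
      linarith
    calc 3 + 1 / (Real.pi * (lo * t)) ≤ (9 / 4) / (lo * t) + (1 / 3) / (lo * t) := add_le_add k2 k1
      _ ≤ 3 / (lo * t) := by
          rw [← add_div]
          gcongr
          norm_num
  refine abel_le (g := fun x => amp h (x + t) * (starRingEnd ℂ) (amp h x)) (by positivity) hMx ?_ ?_
  · rw [norm_mul, Complex.norm_conj]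
    have := amp_le h (h - t + t)
    have := amp_le h (h - t)
    nlinarith [norm_nonneg (amp h (h - t + t)), norm_nonneg (amp h (h - t))]
  · have k3 : ∀ x ∈ range (h - t), ‖amp h (x + 1 + t) * (starRingEnd ℂ) (amp h (x + 1)) -
        amp h (x + t) * (starRingEnd ℂ) (amp h x)‖ ≤ 4 * (Real.pi * M / h) := by
      intro x _
      have k4 : amp h (x + 1 + t) * (starRingEnd ℂ) (amp h (x + 1)) -
        amp h (x + t) * (starRingEnd ℂ) (amp h x) = (amp h (x + t + 1) - amp h (x + t)) *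
          (starRingEnd ℂ) (amp h (x + 1)) + amp h (x + t) * (starRingEnd ℂ) (amp h (x + 1) - amp h x) := by
        rw [map_sub, show x + 1 + t = x + t + 1 by ring]
        ring
      rw [k4]
      refine (norm_add_le _ _).trans ?_
      rw [norm_mul, norm_mul, Complex.norm_conj, Complex.norm_conj]
      have a1 := amp_diff hM hh (x + t)
      have a2 := amp_diff hM hh x
      have a3 := amp_le h (x + 1)
      have a4 := amp_le h (x + t)
      have a5 : ‖amp h (x + t + 1) - amp h (x + t)‖ * ‖amp h (x + 1)‖ ≤ (Real.pi * M / h) * 2 :=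
        mul_le_mul a1 a3 (norm_nonneg _) (by positivity)
      have a6 : ‖amp h (x + t)‖ * ‖amp h (x + 1) - amp h x‖ ≤ 2 * (Real.pi * M / h) :=
        mul_le_mul a4 a2 (norm_nonneg _) (by norm_num)
      linarith
    refine (sum_le_sum k3).trans ?_
    rw [sum_const, card_range, nsmul_eq_mul]
    have k5 : ((h - t : ℕ) : ℝ) ≤ h := by exact_mod_cast Nat.sub_le h t
    calc ((h - t : ℕ) : ℝ) * (4 * (Real.pi * M / h)) ≤ h * (4 * (Real.pi * M / h)) := by gcongr
      _ = 4 * Real.pi * M := by field_simp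

end Pool.Agent.H502.XR
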