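import Pool.Agent.H502.XR.F2

/-!
# Small shifts and large shifts in `ZMod q`
-/

set_option autoImplicit false

open Finset

namespace Pool.Agent.H502.XR

open Pool.Agent.H502.XQ

variable {q : ℕ} [NeZero q]

/-- the size of a residue class -/
def mm (u : ZMod q) : ℕ := u.valMinAbs.natAbs

/-- extension by zero -/
noncomputable def ext (h : ℕ) (v : ℕ → ℂ) (z : ZMod q) : ℂ := if z.val < h then v z.val else 0

lemma cor_neg (g : ZMod q → ℂ) (u : ZMod q) : ‖cor g (-u)‖ = ‖cor g u‖ := by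
  have h1 : cor g (-u) = (starRingEnd ℂ) (cor g u) := by
    unfold cor
    rw [map_sum]
    refine (Fintype.sum_equiv (Equiv.addRight u) _ _ ?_).symm
    intro z
    simp only [Equiv.coe_addRight, map_mul, Complex.conj_conj]
    rw [add_neg_cancel_right]
    ring
  rw [h1, Complex.norm_conj]

lemma cor_eq_mm (g : ZMod q → ℂ) (u : ZMod q) : ‖cor g u‖ = ‖cor g ((mm u : ℕ) : ZMod q)‖ := by
  have h0 : ((u.valMinAbs : ℤ) : ZMod q) = u := ZMod.coe_valMinAbs u
  unfold mm
  rcases Int.natAbs_eq u.valMinAbs with h1 | h1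
  · nth_rewrite 1 [← h0]
    rw [h1, Int.cast_natCast]
    simp
  · nth_rewrite 1 [← h0]
    rw [h1, Int.cast_neg, Int.cast_natCast, cor_neg]
    simp

lemma mm_lt (u : ZMod q) : mm u < q := by
  have h1 := ZMod.natAbs_valMinAbs_le u
  have h2 : 0 < q := Nat.pos_of_ne_zero (NeZero.ne q)
  unfold mm
  omega

lemma fiber_card (m : ℕ) : (univ.filter fun u : ZMod q => mm u = m).card ≤ 2 := by
  have h1 : (univ.filter fun u : ZMod q => mm u = m) ⊆ {((m : ℕ) : ZMod q), -((m : ℕ) : ZMod q)} := by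
    intro u hu
    rw [mem_filter] at hu
    have h0 : ((u.valMinAbs : ℤ) : ZMod q) = u := ZMod.coe_valMinAbs u
    have h2 := hu.2
    unfold mm at h2
    rw [mem_insert, mem_singleton]
    rcases Int.natAbs_eq u.valMinAbs with h3 | h3
    · left
      rw [← h0, h3, h2, Int.cast_natCast]
    · right
      rw [← h0, h3, h2, Int.cast_neg, Int.cast_natCast]
  exact (card_le_card h1).trans card_le_two

lemma sum_mm_le (f : ℕ → ℝ) (hf : ∀ m, 0 ≤ f m) : ∑ u : ZMod q, f (mm u) ≤ 2 * ∑ m ∈ range q, f m := by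
  have h1 := sum_fiberwise_of_maps_to (s := (univ : Finset (ZMod q))) (t := range q) (g := fun u => mm u)
    (fun u _ => mem_range.mpr (mm_lt u)) (fun u => f (mm u))
  rw [← h1, mul_sum]
  apply sum_le_sum
  intro m _
  have h2 : ∑ u ∈ univ.filter (fun u : ZMod q => mm u = m), f (mm u) =
      (univ.filter fun u : ZMod q => mm u = m).card * f m := by
    rw [sum_congr rfl (fun u hu => by rw [(mem_filter.mp hu).2] : ∀ u ∈ univ.filter (fun u : ZMod q => mm u = m),
      f (mm u) = f m), sum_const, nsmul_eq_mul]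
  rw [h2]
  have h3 : ((univ.filter fun u : ZMod q => mm u = m).card : ℝ) ≤ 2 := by exact_mod_cast fiber_card m
  exact mul_le_mul_of_nonneg_right h3 (hf m)

lemma sum_inv_sq (τ : ℕ) : ∑ u ∈ univ.filter (fun u : ZMod q => τ < mm u), ((mm u : ℝ) ^ 2)⁻¹ ≤ 4 / (τ + 1) := by
  rw [sum_filter]
  have h1 := sum_mm_le (q := q) (fun m => if τ < m then ((m : ℝ) ^ 2)⁻¹ else 0) (fun m => by positivity)
  refine h1.trans ?_
  rw [← sum_filter]
  have h2 : (range q).filter (fun m => τ < m) = Ioo τ q := by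
    ext m
    rw [mem_filter, mem_range, mem_Ioo]
    tauto
  rw [h2]
  have h3 := sum_Ioo_inv_sq_le (α := ℝ) τ q
  calc 2 * ∑ i ∈ Ioo τ q, ((i : ℝ) ^ 2)⁻¹ ≤ 2 * (2 / ((τ : ℝ) + 1)) := by gcongr
    _ = 4 / (τ + 1) := by ring

lemma card_small (τ : ℕ) : ((univ.filter (fun u : ZMod q => mm u ≤ τ)).card : ℝ) ≤ 2 * (τ + 1) := by
  have h1 := sum_mm_le (q := q) (fun m => if m ≤ τ then (1 : ℝ) else 0) (fun m => by positivity)
  rw [← sum_filter, sum_const, nsmul_eq_mul, mul_one] at h1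
  refine h1.trans ?_
  rw [← sum_filter, sum_const, nsmul_eq_mul, mul_one]
  have h2 : (range q).filter (fun m => m ≤ τ) ⊆ range (τ + 1) := by
    intro m hm
    rw [mem_filter] at hm
    rw [mem_range]
    omega
  have h3 := card_le_card h2
  rw [card_range] at h3
  have h4 : (((range q).filter (fun m => m ≤ τ)).card : ℝ) ≤ τ + 1 := by exact_mod_cast h3
  linarith

lemma sum_ext_norm {h : ℕ} (hq : h ≤ q) (c : ℝ) :
    ∑ z : ZMod q, (if z.val < h then c else 0) = h * c := by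
  rw [sum_zmod (fun s => if s < h then c else 0), ← sum_filter]
  have : (range q).filter (fun s => s < h) = range h := by
    ext s
    rw [mem_filter, mem_range, mem_range]
    omega
  rw [this, sum_const, card_range, nsmul_eq_mul]

/-- the correlation of the extension -/
lemma cor_ext {h t : ℕ} (v : ℕ → ℂ) (hq : 2 * h ≤ q) (ht : t ≤ h) :
    cor (ext h v : ZMod q → ℂ) ((t : ℕ) : ZMod q) =
      ∑ x ∈ range (h - t), v (x + t) * (starRingEnd ℂ) (v x) := by
  unfold cor
  have h1 : ∀ z : ZMod q, ext h v (z + (t : ZMod q)) * (starRingEnd ℂ) (ext h v z) =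
      if z.val < h - t then v (z.val + t) * (starRingEnd ℂ) (v z.val) else 0 := by
    intro z
    by_cases hz : z.val < h
    · have h2 : (z + (t : ZMod q)).val = z.val + t := by
        by_cases hh : h = 0
        · omega
        · have ht2 : ((t : ℕ) : ZMod q).val = t := ZMod.val_natCast_of_lt (by omega)
          rw [ZMod.val_add_of_lt (by rw [ht2]; omega), ht2]
      unfold ext
      rw [h2, if_pos hz]
      by_cases h3 : z.val + t < h
      · rw [if_pos h3, if_pos (by omega)]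
      · rw [if_neg h3, if_neg (by omega), zero_mul]
    · unfold ext
      rw [if_neg hz, map_zero, mul_zero, if_neg (by omega)]
  rw [sum_congr rfl (fun z _ => h1 z), sum_zmod (fun s => if s < h - t then v (s + t) * (starRingEnd ℂ) (v s) else 0),
    ← sum_filter]
  congr 1
  ext s
  rw [mem_filter, mem_range, mem_range]
  omega

lemma cor_large {h t : ℕ} (v : ℕ → ℂ) (hq : 2 * h ≤ q) (ht : h < t) (htq : 2 * t ≤ q) :
    cor (ext h v : ZMod q → ℂ) ((t : ℕ) : ZMod q) = 0 := by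
  unfold cor
  apply sum_eq_zero
  intro z _
  unfold ext
  by_cases hz : z.val < h
  · have hq0 : 0 < q := Nat.pos_of_ne_zero (NeZero.ne q)
    have ht2 : ((t : ℕ) : ZMod q).val = t := ZMod.val_natCast_of_lt (by omega)
    have h2 : (z + (t : ZMod q)).val = z.val + t := by
      rw [ZMod.val_add_of_lt (by rw [ht2]; omega), ht2]
    rw [h2, if_neg (by omega), zero_mul]
  · rw [if_neg hz, map_zero, mul_zero]

/-- **Small shifts** -/
lemma small_shifts {M : ℝ} (hM0 : 0 ≤ M) (hM : ∀ x, |iteratedDeriv 1 psi x| ≤ M) {φ : ℕ → ℝ} {h τ : ℕ} {lo hi : ℝ}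
    (hlo : 0 < lo) (hlohi : lo ≤ hi) (hq : 2 * h ≤ q) (hτ : hi * τ ≤ 3 / 4)
    (h2 : ∀ k, k + 2 ≤ h → -hi ≤ φ (k + 2) - 2 * φ (k + 1) + φ k ∧ φ (k + 2) - 2 * φ (k + 1) + φ k ≤ -lo)
    (h3 : ∀ k, k + 3 ≤ h → 0 ≤ φ (k + 3) - 3 * φ (k + 2) + 3 * φ (k + 1) - φ k) :
    ∑ u ∈ univ.filter (fun u : ZMod q => mm u ≤ τ), ‖cor (ext h (fun i => amp h i * E (φ i))) u‖ ^ 2 ≤
      16 * (h : ℝ) ^ 2 + 4 * ((4 + 4 * Real.pi * M) * 3) ^ 2 / lo ^ 2 := by
  set K : ℝ := (4 + 4 * Real.pi * M) * 3 with hK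
  have hpi := Real.pi_pos
  have hK0 : 0 < K := by positivity
  set f : ℕ → ℝ := fun m => if m = 0 then 16 * (h : ℝ) ^ 2 else (K / lo) ^ 2 * ((m : ℝ) ^ 2)⁻¹ with hf
  have hb : ∀ u ∈ univ.filter (fun u : ZMod q => mm u ≤ τ),
      ‖cor (ext h (fun i => amp h i * E (φ i))) u‖ ^ 2 ≤ (if u = 0 then 16 * (h : ℝ) ^ 2 else 0) +
        (K / lo) ^ 2 * (if 0 < mm u then ((mm u : ℝ) ^ 2)⁻¹ else 0) := by
    intro u hu
    have hu1 : mm u ≤ τ := (mem_filter.mp hu).2
    by_cases h0 : u = 0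
    · have hm : mm u = 0 := by
        rw [h0]
        unfold mm
        simp
      rw [if_pos h0, hm, if_neg (lt_irrefl 0), mul_zero, add_zero, h0]
      have e0 : (0 : ZMod q) = ((0 : ℕ) : ZMod q) := by simp
      rw [e0, cor_ext _ hq (Nat.zero_le _)]
      have e1 : ‖∑ x ∈ range (h - 0), amp h (x + 0) * E (φ (x + 0)) * (starRingEnd ℂ) (amp h x * E (φ x))‖ ≤ 4 * h := by
        refine (norm_sum_le _ _).trans ?_
        have e2 : ∀ x ∈ range (h - 0), ‖amp h (x + 0) * E (φ (x + 0)) * (starRingEnd ℂ) (amp h x * E (φ x))‖ ≤ 4 := by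
          intro x _
          rw [norm_mul, norm_mul, Complex.norm_conj, norm_mul, norm_E, norm_E, mul_one, mul_one]
          have := amp_le h (x + 0)
          have := amp_le h x
          nlinarith [norm_nonneg (amp h (x + 0)), norm_nonneg (amp h x)]
        refine (sum_le_sum e2).trans ?_
        rw [sum_const, card_range, nsmul_eq_mul, Nat.sub_zero]
        linarith
      calc _ ≤ (4 * (h : ℝ)) ^ 2 := pow_le_pow_left₀ (norm_nonneg _) e1 2
        _ = 16 * (h : ℝ) ^ 2 := by ring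
    · have hm : 0 < mm u := by
        rcases Nat.eq_zero_or_pos (mm u) with h4 | h4
        · exfalso
          apply h0
          have h5 : u.valMinAbs = 0 := Int.natAbs_eq_zero.mp h4
          exact (ZMod.valMinAbs_eq_zero u).mp h5
        · exact h4
      rw [if_neg h0, if_pos hm, zero_add, cor_eq_mm]
      have hm0 : (0 : ℝ) < mm u := by exact_mod_cast hm
      by_cases hmh : mm u ≤ h
      · rw [cor_ext _ hq hmh]
        have hhi : hi * mm u ≤ 3 / 4 := by
          refine le_trans ?_ hτ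
          have : (mm u : ℝ) ≤ τ := by exact_mod_cast hu1
          exact mul_le_mul_of_nonneg_left this (hlo.le.trans hlohi)
        have e1 := cor_sum_le hM0 hM hlo hlohi hm hmh h2 h3 hhi
        calc _ ≤ ((4 + 4 * Real.pi * M) * (3 / (lo * mm u))) ^ 2 := pow_le_pow_left₀ (norm_nonneg _) e1 2
          _ = (K / lo) ^ 2 * ((mm u : ℝ) ^ 2)⁻¹ := by
              rw [hK]
              field_simp
      · have hmq : 2 * mm u ≤ q := by
          have := ZMod.natAbs_valMinAbs_le u
          unfold mm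
          omega
        rw [cor_large _ hq (by omega) hmq, norm_zero, zero_pow (by norm_num)]
        positivity
  refine (sum_le_sum hb).trans ?_
  rw [sum_add_distrib]
  have s1 : ∑ u ∈ univ.filter (fun u : ZMod q => mm u ≤ τ), (if u = 0 then 16 * (h : ℝ) ^ 2 else 0) ≤
      16 * (h : ℝ) ^ 2 := by
    rw [sum_ite_eq']
    split_ifs
    · exact le_rfl
    · positivity
  have s2 : ∑ u ∈ univ.filter (fun u : ZMod q => mm u ≤ τ), (K / lo) ^ 2 * (if 0 < mm u then ((mm u : ℝ) ^ 2)⁻¹ else 0) ≤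
      4 * K ^ 2 / lo ^ 2 := by
    rw [← mul_sum]
    have s3 : ∑ u ∈ univ.filter (fun u : ZMod q => mm u ≤ τ), (if 0 < mm u then ((mm u : ℝ) ^ 2)⁻¹ else 0) ≤
        ∑ u : ZMod q, (if 0 < mm u then ((mm u : ℝ) ^ 2)⁻¹ else 0) :=
      sum_le_sum_of_subset_of_nonneg (filter_subset _ _) fun _ _ _ => by positivity
    have s4 := sum_inv_sq (q := q) 0
    rw [sum_filter] at s4
    have s5 : ∑ u ∈ univ.filter (fun u : ZMod q => mm u ≤ τ), (if 0 < mm u then ((mm u : ℝ) ^ 2)⁻¹ else 0) ≤ 4 := by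
      refine s3.trans (s4.trans ?_)
      norm_num
    calc (K / lo) ^ 2 * ∑ u ∈ univ.filter (fun u : ZMod q => mm u ≤ τ), (if 0 < mm u then ((mm u : ℝ) ^ 2)⁻¹ else 0) ≤
        (K / lo) ^ 2 * 4 := by gcongr
      _ = 4 * K ^ 2 / lo ^ 2 := by ring
  linarith

end Pool.Agent.H502.XR
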