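import Pool.Agent.H502.XR.F3

/-!
# Large shifts and the fourth moment
-/

set_option autoImplicit false

open Finset

namespace Pool.Agent.H502.XR

open Pool.Agent.H502.XQ

variable {q : ℕ} [NeZero q]

lemma box_term_le {h : ℕ} {v : ℕ → ℂ} (hv : ∀ i, ‖v i‖ ≤ 2) (u w z : ZMod q) :
    ‖ext h v (z + u + w) * (starRingEnd ℂ) (ext h v (z + w)) *
      ((starRingEnd ℂ) (ext h v (z + u)) * ext h v z)‖ ≤ if z.val < h then 16 else 0 := by
  have h1 : ∀ z : ZMod q, ‖ext h v z‖ ≤ 2 := by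
    intro z
    unfold ext
    split_ifs
    · exact hv _
    · rw [norm_zero]; norm_num
  have a1 := h1 (z + u + w)
  have a2 := h1 (z + w)
  have a3 := h1 (z + u)
  have a4 := h1 z
  rw [norm_mul, norm_mul, norm_mul, Complex.norm_conj, Complex.norm_conj]
  split_ifs with hz
  · calc ‖ext h v (z + u + w)‖ * ‖ext h v (z + w)‖ * (‖ext h v (z + u)‖ * ‖ext h v z‖) ≤ 2 * 2 * (2 * 2) := by gcongr
      _ = 16 := by norm_num
  · have : ext h v z = 0 := by unfold ext; rw [if_neg hz]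
    rw [this, norm_zero, mul_zero, mul_zero]

lemma box_le {h : ℕ} (hq : h ≤ q) {v : ℕ → ℂ} (hv : ∀ i, ‖v i‖ ≤ 2) (u w : ZMod q) :
    ‖box (ext h v) u w‖ ≤ 16 * h := by
  unfold box
  refine (norm_sum_le _ _).trans ((sum_le_sum fun z _ => box_term_le hv u w z).trans ?_)
  rw [sum_ext_norm hq]
  linarith

lemma val_diff {h : ℕ} (hq : 2 * h ≤ q) {z u : ZMod q} (h1 : (z + u).val < h) (h2 : z.val < h) :
    ((mm u : ℕ) : ℤ) = |((z + u).val : ℤ) - (z.val : ℤ)| := by
  have hd : u.valMinAbs = ((z + u).val : ℤ) - (z.val : ℤ) := by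
    rw [ZMod.valMinAbs_spec]
    refine ⟨?_, ?_⟩
    · push_cast
      rw [ZMod.natCast_zmod_val, ZMod.natCast_zmod_val]
      ring
    · rw [Set.mem_Ioc]
      constructor <;> omega
  unfold mm
  rw [hd, Int.natCast_natAbs]

/-- **Large shifts**: the average over the quadratic twists -/
lemma large_avg {h R : ℕ} {B A : ℝ} (hB : 0 < B) (hq : 2 * h ≤ q) (hRh : 4 * B * (h : ℝ) ^ 2 ≤ R) (hR : 0 < R)
    {V : ℕ → ℂ} (hV : ∀ i, ‖V i‖ ≤ 2) (u w : ZMod q) (hu : 0 < mm u) (hw : 0 < mm w) :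
    ‖∑ b ∈ range R ×ˢ range R,
      box (ext h (fun i => V i * E (((b.1 : ℝ) + b.2) * (B / R * (A + i) ^ 2)))) u w‖ ≤
      h * ((R / B) ^ 2 * (((mm u : ℝ) ^ 2)⁻¹ * ((mm w : ℝ) ^ 2)⁻¹)) := by
  have hR0 : (0 : ℝ) < R := by exact_mod_cast hR
  have hu0 : (0 : ℝ) < mm u := by exact_mod_cast hu
  have hw0 : (0 : ℝ) < mm w := by exact_mod_cast hw
  unfold box
  rw [sum_comm]
  refine (norm_sum_le _ _).trans ?_
  have key : ∀ z : ZMod q, ‖∑ b ∈ range R ×ˢ range R,
      ext h (fun i => V i * E (((b.1 : ℝ) + b.2) * (B / R * (A + i) ^ 2))) (z + u + w) *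
      (starRingEnd ℂ) (ext h (fun i => V i * E (((b.1 : ℝ) + b.2) * (B / R * (A + i) ^ 2))) (z + w)) *
      ((starRingEnd ℂ) (ext h (fun i => V i * E (((b.1 : ℝ) + b.2) * (B / R * (A + i) ^ 2))) (z + u)) *
        ext h (fun i => V i * E (((b.1 : ℝ) + b.2) * (B / R * (A + i) ^ 2))) z)‖ ≤
      if z.val < h then (R / B) ^ 2 * (((mm u : ℝ) ^ 2)⁻¹ * ((mm w : ℝ) ^ 2)⁻¹) else 0 := by
    intro z
    by_cases h4 : z.val < h
    swap
    · rw [if_neg h4, sum_eq_zero, norm_zero]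
      intro b _
      have : ext h (fun i => V i * E (((b.1 : ℝ) + b.2) * (B / R * (A + i) ^ 2))) z = 0 := by
        unfold ext; rw [if_neg h4]
      rw [this, mul_zero, mul_zero]
    rw [if_pos h4]
    by_cases h3 : (z + u).val < h
    swap
    · rw [sum_eq_zero, norm_zero]
      · positivity
      intro b _
      have : ext h (fun i => V i * E (((b.1 : ℝ) + b.2) * (B / R * (A + i) ^ 2))) (z + u) = 0 := by
        unfold ext; rw [if_neg h3]
      rw [this, map_zero, zero_mul, mul_zero]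
    by_cases h2 : (z + w).val < h
    swap
    · rw [sum_eq_zero, norm_zero]
      · positivity
      intro b _
      have : ext h (fun i => V i * E (((b.1 : ℝ) + b.2) * (B / R * (A + i) ^ 2))) (z + w) = 0 := by
        unfold ext; rw [if_neg h2]
      rw [this, map_zero, mul_zero, zero_mul]
    by_cases h1 : (z + u + w).val < h
    swap
    · rw [sum_eq_zero, norm_zero]
      · positivity
      intro b _
      have : ext h (fun i => V i * E (((b.1 : ℝ) + b.2) * (B / R * (A + i) ^ 2))) (z + u + w) = 0 := by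
        unfold ext; rw [if_neg h1]
      rw [this, zero_mul, zero_mul]
    have d3 := val_diff hq h3 h4
    have d2 := val_diff hq h2 h4
    have hsum : (z + u + w).val + z.val = (z + u).val + (z + w).val := by
      have c1 : (((z + u + w).val + z.val : ℕ) : ZMod q) = (((z + u).val + (z + w).val : ℕ) : ZMod q) := by
        push_cast
        rw [ZMod.natCast_zmod_val, ZMod.natCast_zmod_val, ZMod.natCast_zmod_val, ZMod.natCast_zmod_val]
        ring
      have c2 := (ZMod.natCast_eq_natCast_iff' _ _ _).mp c1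
      rwa [Nat.mod_eq_of_lt (by omega), Nat.mod_eq_of_lt (by omega)] at c2
    set i₁ := (z + u + w).val with hi₁
    set i₂ := (z + w).val with hi₂
    set i₃ := (z + u).val with hi₃
    set i₄ := z.val with hi₄
    set x : ℝ := B / R * (2 * ((i₂ : ℝ) - i₄) * ((i₃ : ℝ) - i₄)) with hx
    have hi : (i₁ : ℝ) = i₃ + i₂ - i₄ := by
      have : (i₁ : ℝ) + i₄ = i₃ + i₂ := by exact_mod_cast hsum
      linarith
    have hterm : ∀ b ∈ range R ×ˢ range R,
        ext h (fun i => V i * E (((b.1 : ℝ) + b.2) * (B / R * (A + i) ^ 2))) (z + u + w) *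
        (starRingEnd ℂ) (ext h (fun i => V i * E (((b.1 : ℝ) + b.2) * (B / R * (A + i) ^ 2))) (z + w)) *
        ((starRingEnd ℂ) (ext h (fun i => V i * E (((b.1 : ℝ) + b.2) * (B / R * (A + i) ^ 2))) (z + u)) *
        ext h (fun i => V i * E (((b.1 : ℝ) + b.2) * (B / R * (A + i) ^ 2))) z) =
        (V i₁ * (starRingEnd ℂ) (V i₂) * ((starRingEnd ℂ) (V i₃) * V i₄)) * (E (b.1 * x) * E (b.2 * x)) := by
      intro b _
      unfold ext
      rw [← hi₁, ← hi₂, ← hi₃, ← hi₄, if_pos h1, if_pos h2, if_pos h3, if_pos h4, map_mul, map_mul, conj_E, conj_E,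
        ← E_add]
      have e1 : (b.1 : ℝ) * x + b.2 * x = ((b.1 : ℝ) + b.2) * (B / R * (A + i₁) ^ 2) +
          -(((b.1 : ℝ) + b.2) * (B / R * (A + i₂) ^ 2)) + (-(((b.1 : ℝ) + b.2) * (B / R * (A + i₃) ^ 2)) +
          ((b.1 : ℝ) + b.2) * (B / R * (A + i₄) ^ 2)) := by
        rw [hx, hi]
        ring
      rw [e1, E_add, E_add, E_add]
      ring
    rw [sum_congr rfl hterm, ← mul_sum, sum_product]
    simp only [← mul_sum]
    rw [← sum_mul]
    have habs : |x| = 2 * (B / R) * (mm u * mm w) := by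
      have a2 : (mm w : ℝ) = |(i₂ : ℝ) - i₄| := by exact_mod_cast congrArg (fun t : ℤ => (t : ℝ)) d2
      have a3 : (mm u : ℝ) = |(i₃ : ℝ) - i₄| := by exact_mod_cast congrArg (fun t : ℤ => (t : ℝ)) d3
      rw [hx, abs_mul, abs_mul, abs_mul, ← a2, ← a3, abs_two, abs_of_pos (by positivity : 0 < B / R)]
      ring
    have hx0 : x ≠ 0 := by
      intro h0
      rw [h0, abs_zero] at habs
      have : 0 < 2 * (B / R) * ((mm u : ℝ) * mm w) := by positivity
      linarith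
    have hmu : (mm u : ℝ) ≤ h := by
      have : mm u ≤ h := by
        have : ((mm u : ℕ) : ℤ) ≤ h := by
          rw [d3, abs_le]
          constructor <;> omega
        omega
      exact_mod_cast this
    have hmw : (mm w : ℝ) ≤ h := by
      have : mm w ≤ h := by
        have : ((mm w : ℕ) : ℤ) ≤ h := by
          rw [d2, abs_le]
          constructor <;> omega
        omega
      exact_mod_cast this
    have hx1 : |x| ≤ 1 / 2 := by
      rw [habs]
      calc 2 * (B / R) * ((mm u : ℝ) * mm w) ≤ 2 * (B / R) * ((h : ℝ) * h) := by gcongr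
        _ = (4 * B * (h : ℝ) ^ 2) / (2 * R) := by
            field_simp
            ring
        _ ≤ R / (2 * R) := by gcongr
        _ = 1 / 2 := by field_simp
    have hg := geom_le hx0 hx1 R
    have hx00 : 0 < |x| := abs_pos.mpr hx0
    rw [norm_mul _ ((∑ i ∈ range R, E ((i : ℝ) * x)) * ∑ i ∈ range R, E ((i : ℝ) * x)),
      norm_mul (∑ i ∈ range R, E ((i : ℝ) * x))]
    have hVn : ‖V i₁ * (starRingEnd ℂ) (V i₂) * ((starRingEnd ℂ) (V i₃) * V i₄)‖ ≤ 16 := by
      rw [norm_mul, norm_mul, norm_mul, Complex.norm_conj, Complex.norm_conj]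
      calc ‖V i₁‖ * ‖V i₂‖ * (‖V i₃‖ * ‖V i₄‖) ≤ 2 * 2 * (2 * 2) := by
            have := hV i₁
            have := hV i₂
            have := hV i₃
            have := hV i₄
            gcongr
        _ = 16 := by norm_num
    calc ‖V i₁ * (starRingEnd ℂ) (V i₂) * ((starRingEnd ℂ) (V i₃) * V i₄)‖ *
          (‖∑ b ∈ range R, E (b * x)‖ * ‖∑ b ∈ range R, E (b * x)‖) ≤
          16 * ((1 / (2 * |x|)) * (1 / (2 * |x|))) := by gcongr
      _ = (R / B) ^ 2 * (((mm u : ℝ) ^ 2)⁻¹ * ((mm w : ℝ) ^ 2)⁻¹) := by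
          rw [habs]
          field_simp
          norm_num
  refine (sum_le_sum fun z _ => key z).trans ?_
  rw [sum_ext_norm (by omega)]

/-- **The moment, abstractly** -/
lemma moment_gen {ι : Type} (g : ι → ZMod q → ℂ) (S : Finset ι) (U : Finset (ZMod q)) {X₁ X₂ : ℝ}
    {X₃ : ZMod q → ZMod q → ℝ} (h1 : ∀ b ∈ S, ∑ u ∈ U, ‖cor (g b) u‖ ^ 2 ≤ X₁)
    (h2 : ∀ b ∈ S, ∀ u w, ‖box (g b) u w‖ ≤ X₂)
    (h3 : ∀ u ∈ Uᶜ, ∀ w ∈ Uᶜ, ‖∑ b ∈ S, box (g b) u w‖ ≤ X₃ u w) :
    ∑ b ∈ S, ∑ u, ‖cor (g b) u‖ ^ 2 ≤ S.card * (2 * X₁ + (U.card : ℝ) ^ 2 * X₂) +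
      ∑ u ∈ Uᶜ, ∑ w ∈ Uᶜ, X₃ u w := by
  have e : ((∑ b ∈ S, ∑ u, ‖cor (g b) u‖ ^ 2 : ℝ) : ℂ) =
      ∑ b ∈ S, (2 * ((∑ u ∈ U, ‖cor (g b) u‖ ^ 2 : ℝ) : ℂ) - ∑ u ∈ U, ∑ w ∈ U, box (g b) u w) +
      ∑ u ∈ Uᶜ, ∑ w ∈ Uᶜ, ∑ b ∈ S, box (g b) u w := by
    rw [Complex.ofReal_sum, sum_congr rfl (fun b _ => decomp (g b) U), sum_add_distrib]
    congr 1
    rw [sum_comm]
    apply sum_congr rfl
    intro u _
    rw [sum_comm]
  have h0 : 0 ≤ ∑ b ∈ S, ∑ u, ‖cor (g b) u‖ ^ 2 := sum_nonneg fun _ _ => sum_nonneg fun _ _ => by positivity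
  have h4 : ∑ b ∈ S, ∑ u, ‖cor (g b) u‖ ^ 2 = ‖((∑ b ∈ S, ∑ u, ‖cor (g b) u‖ ^ 2 : ℝ) : ℂ)‖ := by
    rw [Complex.norm_real, Real.norm_eq_abs, abs_of_nonneg h0]
  rw [h4, e]
  refine (norm_add_le _ _).trans (add_le_add ?_ ?_)
  · refine (norm_sum_le _ _).trans ?_
    rw [← nsmul_eq_mul]
    apply sum_le_card_nsmul
    intro b hb
    refine (norm_sub_le _ _).trans (add_le_add ?_ ?_)
    · rw [norm_mul, Complex.norm_real, Real.norm_eq_abs, abs_of_nonneg (sum_nonneg fun _ _ => by positivity)]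
      have := h1 b hb
      norm_num
      linarith
    · refine (norm_sum_le _ _).trans ?_
      have s1 : ∀ u ∈ U, ‖∑ w ∈ U, box (g b) u w‖ ≤ U.card * X₂ := by
        intro u _
        refine (norm_sum_le _ _).trans ?_
        rw [← nsmul_eq_mul]
        exact sum_le_card_nsmul _ _ _ fun w _ => h2 b hb u w
      refine (sum_le_sum s1).trans ?_
      rw [sum_const, nsmul_eq_mul]
      apply le_of_eq
      ring
  · refine (norm_sum_le _ _).trans (sum_le_sum fun u hu => ?_)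
    exact (norm_sum_le _ _).trans (sum_le_sum fun w hw => h3 u hu w hw)

end Pool.Agent.H502.XR
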