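import Pool.Agent.H502.XR.F4

/-!
# The fourth moment in a window and the choice of the twists
-/

set_option autoImplicit false

open Finset

namespace Pool.Agent.H502.XR

open Pool.Agent.H502.XQ

lemma sum_to_zmod {q : ℕ} [NeZero q] {h : ℕ} (hq : h ≤ q) (v : ℕ → ℂ) (a : ℕ) :
    ∑ i ∈ range h, v i * E (a * ((i : ℝ) / q)) = ∑ z : ZMod q, ext h v z * chi a z := by
  have h1 : ∀ z : ZMod q, ext h v z * chi a z =
      if z.val < h then v z.val * E (a * ((z.val : ℝ) / q)) else 0 := by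
    intro z
    unfold ext chi
    split_ifs
    · rfl
    · rw [zero_mul]
  rw [sum_congr rfl (fun z _ => h1 z), sum_zmod (fun s => if s < h then v s * E (a * ((s : ℝ) / q)) else 0),
    ← sum_filter]
  congr 1
  ext s
  rw [mem_filter, mem_range, mem_range]
  omega

/-- **The fourth moment in a window** -/
lemma moment_le {q : ℕ} [NeZero q] {M : ℝ} (hM0 : 0 ≤ M) (hM : ∀ x, |iteratedDeriv 1 psi x| ≤ M) {φ : ℕ → ℝ}
    {h τ R : ℕ} {lo hi B A : ℝ} (hlo : 0 < lo) (hB : 0 < B) (hlohi : lo + 4 * B ≤ hi)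
    (hq : 2 * h ≤ q) (hτ : hi * τ ≤ 3 / 4) (hRh : 4 * B * (h : ℝ) ^ 2 ≤ R) (hR : 0 < R)
    (h2 : ∀ k, k + 2 ≤ h → -hi ≤ φ (k + 2) - 2 * φ (k + 1) + φ k ∧
      φ (k + 2) - 2 * φ (k + 1) + φ k ≤ -(lo + 4 * B))
    (h3 : ∀ k, k + 3 ≤ h → 0 ≤ φ (k + 3) - 3 * φ (k + 2) + 3 * φ (k + 1) - φ k) :
    ∑ b ∈ range R ×ˢ range R, ∑ a ∈ range q,
      ‖∑ i ∈ range h, (amp h i * E (φ i) * E (((b.1 : ℝ) + b.2) * (B / R * (A + i) ^ 2))) * E (a * ((i : ℝ) / q))‖ ^ 4 ≤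
      q * ((R : ℝ) ^ 2 * (2 * (16 * (h : ℝ) ^ 2 + 4 * ((4 + 4 * Real.pi * M) * 3) ^ 2 / lo ^ 2) +
        (2 * ((τ : ℝ) + 1)) ^ 2 * (16 * h)) + h * (R / B) ^ 2 * (4 / ((τ : ℝ) + 1)) ^ 2) := by
  have hR0 : (0 : ℝ) < R := by exact_mod_cast hR
  set V : ℕ → ℂ := fun i => amp h i * E (φ i) with hV
  have hVn : ∀ i, ‖V i‖ ≤ 2 := by
    intro i
    rw [hV, norm_mul, norm_E, mul_one]
    exact amp_le h i
  set g : ℕ × ℕ → ZMod q → ℂ := fun b =>
    ext h (fun i => V i * E (((b.1 : ℝ) + b.2) * (B / R * (A + i) ^ 2))) with hg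
  have e1 : ∀ b ∈ range R ×ˢ range R, ∑ a ∈ range q,
      ‖∑ i ∈ range h, (amp h i * E (φ i) * E (((b.1 : ℝ) + b.2) * (B / R * (A + i) ^ 2))) * E (a * ((i : ℝ) / q))‖ ^ 4 =
      q * ∑ u, ‖cor (g b) u‖ ^ 2 := by
    intro b _
    rw [← fourth_zmod]
    apply sum_congr rfl
    intro a _
    rw [sum_to_zmod (by omega : h ≤ q) (fun i => V i * E (((b.1 : ℝ) + b.2) * (B / R * (A + i) ^ 2)))]
  rw [sum_congr rfl e1, ← mul_sum]
  have hq0 : (0 : ℝ) ≤ q := Nat.cast_nonneg _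
  apply mul_le_mul_of_nonneg_left _ hq0
  set U : Finset (ZMod q) := univ.filter (fun u : ZMod q => mm u ≤ τ) with hU
  have hUc : Uᶜ = univ.filter (fun u : ZMod q => τ < mm u) := by
    ext u
    rw [hU, mem_compl, mem_filter, mem_filter]
    simp
  have m1 := moment_gen g (range R ×ˢ range R) U
    (X₁ := 16 * (h : ℝ) ^ 2 + 4 * ((4 + 4 * Real.pi * M) * 3) ^ 2 / lo ^ 2) (X₂ := 16 * h)
    (X₃ := fun u w => h * ((R / B) ^ 2 * (((mm u : ℝ) ^ 2)⁻¹ * ((mm w : ℝ) ^ 2)⁻¹))) ?_ ?_ ?_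
  · refine m1.trans (add_le_add ?_ ?_)
    · rw [card_product, card_range]
      push_cast
      have c1 : (U.card : ℝ) ≤ 2 * (τ + 1) := card_small τ
      have c2 : (U.card : ℝ) ^ 2 ≤ (2 * ((τ : ℝ) + 1)) ^ 2 := pow_le_pow_left₀ (Nat.cast_nonneg _) c1 2
      rw [← sq]
      gcongr
    · have c3 : ∑ u ∈ Uᶜ, ∑ w ∈ Uᶜ, (h : ℝ) * ((R / B) ^ 2 * (((mm u : ℝ) ^ 2)⁻¹ * ((mm w : ℝ) ^ 2)⁻¹)) =
          h * (R / B) ^ 2 * (∑ u ∈ Uᶜ, ((mm u : ℝ) ^ 2)⁻¹) ^ 2 := by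
        rw [sq (∑ u ∈ Uᶜ, ((mm u : ℝ) ^ 2)⁻¹), sum_mul_sum, mul_sum]
        apply sum_congr rfl
        intro u _
        rw [mul_sum]
        apply sum_congr rfl
        intro w _
        ring
      rw [c3]
      have c4 : ∑ u ∈ Uᶜ, ((mm u : ℝ) ^ 2)⁻¹ ≤ 4 / ((τ : ℝ) + 1) := by
        rw [hUc]
        exact sum_inv_sq τ
      have c5 : 0 ≤ ∑ u ∈ Uᶜ, ((mm u : ℝ) ^ 2)⁻¹ := sum_nonneg fun _ _ => by positivity
      gcongr
  · intro b hb
    rw [mem_product, mem_range, mem_range] at hb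
    have hb1 : ((b.1 : ℝ) + b.2) ≤ 2 * R := by
      have : (b.1 : ℝ) ≤ R := by exact_mod_cast hb.1.le
      have : (b.2 : ℝ) ≤ R := by exact_mod_cast hb.2.le
      linarith
    have hb0 : 0 ≤ ((b.1 : ℝ) + b.2) := by positivity
    have hβ0 : 0 ≤ ((b.1 : ℝ) + b.2) * (B / R) := by positivity
    have hβ1 : ((b.1 : ℝ) + b.2) * (B / R) ≤ 2 * B := by
      calc ((b.1 : ℝ) + b.2) * (B / R) ≤ 2 * R * (B / R) := by gcongr
        _ = 2 * B := by field_simp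
    have s1 := small_shifts (q := q) hM0 hM (φ := fun i => φ i + ((b.1 : ℝ) + b.2) * (B / R * (A + i) ^ 2))
      (h := h) (τ := τ) hlo (by linarith : lo ≤ hi) hq hτ ?_ ?_
    · have e2 : g b = ext h (fun i => amp h i * E (φ i + ((b.1 : ℝ) + b.2) * (B / R * (A + i) ^ 2))) := by
        rw [hg]
        simp only [hV]
        congr 1
        funext i
        rw [E_add]
        ring
      rw [e2]
      exact s1
    · intro k hk
      obtain ⟨i1, i2⟩ := h2 k hk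
      have e3 : (φ (k + 2) + ((b.1 : ℝ) + b.2) * (B / R * (A + ((k + 2 : ℕ) : ℝ)) ^ 2)) -
          2 * (φ (k + 1) + ((b.1 : ℝ) + b.2) * (B / R * (A + ((k + 1 : ℕ) : ℝ)) ^ 2)) +
          (φ k + ((b.1 : ℝ) + b.2) * (B / R * (A + (k : ℝ)) ^ 2)) =
          (φ (k + 2) - 2 * φ (k + 1) + φ k) + 2 * (((b.1 : ℝ) + b.2) * (B / R)) := by
        push_cast
        ring
      rw [e3]
      constructor <;> linarith
    · intro k hk
      have i1 := h3 k hk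
      have e3 : (φ (k + 3) + ((b.1 : ℝ) + b.2) * (B / R * (A + ((k + 3 : ℕ) : ℝ)) ^ 2)) -
          3 * (φ (k + 2) + ((b.1 : ℝ) + b.2) * (B / R * (A + ((k + 2 : ℕ) : ℝ)) ^ 2)) +
          3 * (φ (k + 1) + ((b.1 : ℝ) + b.2) * (B / R * (A + ((k + 1 : ℕ) : ℝ)) ^ 2)) -
          (φ k + ((b.1 : ℝ) + b.2) * (B / R * (A + (k : ℝ)) ^ 2)) =
          φ (k + 3) - 3 * φ (k + 2) + 3 * φ (k + 1) - φ k := by
        push_cast
        ring
      rw [e3]
      exact i1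
  · intro b _ u w
    apply box_le (by omega)
    intro i
    rw [norm_mul, norm_E, mul_one]
    exact hVn i
  · intro u hu w hw
    rw [hUc, mem_filter] at hu hw
    exact large_avg hB hq hRh hR hVn u w (by omega) (by omega)

/-- One choice of the parameters for all windows -/
lemma choose_gen {ι : Type} (S : Finset ι) (hS : S.Nonempty) (J : ℕ) (D : ℕ → ι → ℝ) (hD0 : ∀ j s, 0 ≤ D j s)
    {H X : ℝ} (hX : 0 < X) (h2 : ∀ j < J, S.card * H ≤ ∑ s ∈ S, D j s ^ 2)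
    (h4 : ∀ j < J, ∑ s ∈ S, D j s ^ 4 ≤ S.card * (16 * (H * X))) :
    ∃ s ∈ S, J * (H / (2 * √(32 * X))) ≤ ∑ j ∈ range J, D j s := by
  by_contra hcon
  push Not at hcon
  set μ : ℝ := √(32 * X) with hμ
  have hμ0 : 0 < μ := by positivity
  have hμ2 : μ ^ 2 = 32 * X := Real.sq_sqrt (by positivity)
  have h5 : ∀ j ∈ range J, (S.card : ℝ) * (H / (2 * μ)) ≤ ∑ s ∈ S, D j s := by
    intro j hj
    have hj := mem_range.mp hj
    have e1 : ∑ s ∈ S, ((D j s ^ 2 - D j s ^ 4 / μ ^ 2) / μ) ≤ ∑ s ∈ S, D j s :=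
      sum_le_sum fun s _ => ptwise (hD0 j s) hμ0
    refine le_trans ?_ e1
    have e2 : ∑ s ∈ S, ((D j s ^ 2 - D j s ^ 4 / μ ^ 2) / μ) =
        (∑ s ∈ S, D j s ^ 2 - (∑ s ∈ S, D j s ^ 4) / μ ^ 2) / μ := by
      simp only [sum_div, sum_sub_distrib, sub_div]
    rw [e2]
    have e3 : (∑ s ∈ S, D j s ^ 4) / μ ^ 2 ≤ S.card * (16 * (H * X)) / (32 * X) := by
      rw [hμ2]
      exact div_le_div_of_nonneg_right (h4 j hj) (by positivity)
    have e4 : (S.card : ℝ) * (16 * (H * X)) / (32 * X) = S.card * H / 2 := by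
      field_simp
      ring
    rw [e4] at e3
    rw [le_div_iff₀ hμ0]
    have e5 : (S.card : ℝ) * (H / (2 * μ)) * μ = S.card * H / 2 := by
      field_simp
    rw [e5]
    have := h2 j hj
    linarith
  have h6 : (J : ℝ) * (S.card * (H / (2 * μ))) ≤ ∑ s ∈ S, ∑ j ∈ range J, D j s := by
    calc (J : ℝ) * (S.card * (H / (2 * μ))) = ∑ _j ∈ range J, (S.card : ℝ) * (H / (2 * μ)) := by
          rw [sum_const, card_range, nsmul_eq_mul]
      _ ≤ ∑ j ∈ range J, ∑ s ∈ S, D j s := sum_le_sum h5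
      _ = _ := sum_comm
  have h7 : ∑ s ∈ S, ∑ j ∈ range J, D j s < ∑ _s ∈ S, J * (H / (2 * μ)) :=
    sum_lt_sum_of_nonempty hS fun s hs => hcon s hs
  rw [sum_const, nsmul_eq_mul] at h7
  have h8 : (S.card : ℝ) * (J * (H / (2 * μ))) = J * (S.card * (H / (2 * μ))) := by ring
  linarith

end Pool.Agent.H502.XR
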