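import Pool.Agent.H502.XR.F5

/-!
# The second range near the model, without the logarithm
-/

set_option autoImplicit false

open Finset

namespace Pool.Agent.H502.XR

open Pool.Agent.H502.XQ

/-- **The second range near the model without the logarithm** -/
theorem mid_range (P : ℕ) (hP : 2 ≤ P) (A B' η : ℝ) (hA : 0 < A) (hAB : A ≤ B') (hη : 0 < η) :
    ∃ c : ℝ, 0 < c ∧ ∃ ε₀ : ℝ, 0 < ε₀ ∧ ∃ N₀ : ℝ, 16 ≤ N₀ ∧ ∀ N F : ℝ, N₀ ≤ N → N₀ * N ≤ F →
      F ≤ ε₀ * N ^ 2 → ∀ f₀ : ℝ → ℝ, ContDiffOn ℝ 3 f₀ (Set.Icc N (2 * N)) →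
      (∀ x ∈ Set.Ioo N (2 * N), A * (F / N ^ 2) ≤ -(iteratedDerivWithin 2 f₀ (Set.Icc N (2 * N)) x) ∧
        -(iteratedDerivWithin 2 f₀ (Set.Icc N (2 * N)) x) ≤ B' * (F / N ^ 2)) →
      (∃ T : ℝ, ∀ x ∈ Set.Ioo N (2 * N), 0 ≤ iteratedDerivWithin 3 f₀ (Set.Icc N (2 * N)) x ∧
        iteratedDerivWithin 3 f₀ (Set.Icc N (2 * N)) x ≤ T) →
      ∃ w : ℝ → ℝ, ContDiff ℝ ((⊤ : ℕ∞) : WithTop ℕ∞) w ∧
        (∀ p ≤ P, ∀ x ∈ Set.Icc N (2 * N), |iteratedDeriv p w x| ≤ η * F / N ^ p) ∧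
        ∃ N' : ℝ, N ≤ N' ∧ N' ≤ 2 * N ∧
          c * size P N F ≤ ‖∑ n ∈ Icc ⌈N⌉₊ ⌊N'⌋₊, E (f₀ n + w n)‖ := by
  obtain ⟨M, hM1, hM⟩ := psi_bound P
  have hM0 : 0 < M := by linarith
  have hP0 : (0 : ℝ) < P := by exact_mod_cast (by omega : 0 < P)
  have hB'0 : 0 < B' := by linarith
  set KD : ℝ := (4 + 4 * Real.pi * M) * 3 with hKD
  have hpi := Real.pi_pos
  have hKD0 : 0 < KD := by positivity
  set cB : ℝ := min (A / 8) (η / 32) with hcB
  have hcB0 : 0 < cB := by positivity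
  set CT : ℝ := 32 + 32 * KD ^ 2 / A ^ 2 + 256 + 16 / cB ^ 2 with hCT
  have hCT0 : 0 < CT := by positivity
  set K₂ : ℝ := 7 + (M / η) ^ (1 / (P : ℝ)) with hK₂
  have hK₂0 : 0 < K₂ := by positivity
  refine ⟨√(1 / (8192 * CT * K₂)), by positivity, min 1 ((3 / (4 * B')) ^ 2), by positivity,
    16 + 16 / η + 16 ^ P * (M / η), by
    have : 0 < 16 / η + 16 ^ P * (M / η) := by positivity
    linarith, ?_⟩
  intro N F hN hF hFε f₀ hf₀ hd2 hd3
  obtain ⟨T, hd3⟩ := hd3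
  have hpos1 : 0 < 16 / η := by positivity
  have hpos2 : 0 < 16 ^ P * (M / η) := by positivity
  have hN16 : 16 ≤ N := by linarith
  have hN0 : 0 < N := by linarith
  have hF16 : 16 * N ≤ F := le_trans (mul_le_mul_of_nonneg_right (by linarith) hN0.le) hF
  have hFη : 16 / η * N ≤ F := le_trans (mul_le_mul_of_nonneg_right (by linarith) hN0.le) hF
  have hFM : 16 ^ P * (M / η) * N ≤ F := le_trans (mul_le_mul_of_nonneg_right (by linarith) hN0.le) hF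
  have hF0 : 0 < F := by linarith
  have hFM' : 16 ^ P * (M / η) ≤ F := by
    refine le_trans ?_ hFM
    exact le_mul_of_one_le_right hpos2.le (by linarith)
  set κ : ℝ := N * (M / (η * F)) ^ (1 / (P : ℝ)) with hκ
  have hκ0 : 0 < κ := by positivity
  set h : ℕ := max 4 (max ⌈κ⌉₊ ⌈N ^ 2 / F⌉₊) with hh
  have hh4 : 4 ≤ h := le_max_left _ _
  have hh0' : 0 < h := by omega
  have hh0 : (0 : ℝ) < h := by exact_mod_cast hh0'
  have hhκ : κ ≤ h := (Nat.le_ceil κ).trans (by exact_mod_cast (le_max_left _ _).trans (le_max_right _ _))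
  have hhF : N ^ 2 / F ≤ h :=
    (Nat.le_ceil _).trans (by exact_mod_cast (le_max_right _ _).trans (le_max_right _ _))
  have hq1 : (⌈κ⌉₊ : ℝ) < κ + 1 := Nat.ceil_lt_add_one hκ0.le
  have hq2 : (⌈N ^ 2 / F⌉₊ : ℝ) < N ^ 2 / F + 1 := Nat.ceil_lt_add_one (by positivity)
  have hnf0 : 0 < N ^ 2 / F := by positivity
  have hhle : (h : ℝ) ≤ 6 + κ + N ^ 2 / F := by
    rw [hh]
    push_cast
    refine max_le (by linarith) (max_le (by linarith) (by linarith))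
  have hκN : (M / (η * F)) ^ (1 / (P : ℝ)) ≤ 1 / 16 := by
    have h1 : M / (η * F) ≤ (1 / 16) ^ P := by
      rw [div_le_iff₀ (by positivity), one_div, inv_pow]
      rw [inv_mul_eq_div, le_div_iff₀ (by positivity)]
      have h2 : 16 ^ P * (M / η) * η ≤ F * η := mul_le_mul_of_nonneg_right hFM' hη.le
      have h3 : 16 ^ P * (M / η) * η = M * 16 ^ P := by field_simp
      linarith
    calc (M / (η * F)) ^ (1 / (P : ℝ)) ≤ ((1 / 16 : ℝ) ^ P) ^ (1 / (P : ℝ)) := by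
          apply Real.rpow_le_rpow (by positivity) h1 (by positivity)
      _ = 1 / 16 := by
          rw [one_div (P : ℝ)]
          exact Real.pow_rpow_inv_natCast (by norm_num) (by omega)
  have hκN2 : κ ≤ N / 16 := by
    rw [hκ]
    nlinarith
  have hFN2 : N ^ 2 / F ≤ N / 16 := by
    rw [div_le_div_iff₀ hF0 (by norm_num)]
    nlinarith
  have hhN : (h : ℝ) ≤ N / 4 := by
    rw [hh]
    push_cast
    refine max_le (by linarith) (max_le (by linarith) (by linarith))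
  have hder := der_cond (by omega : 1 ≤ P) hη hN0 hF0 hM0 hh0 hhκ hhN
  obtain ⟨J, hJh1, hJh3, hJ3⟩ := windows hN0 hh0' hhN
  set L : ℝ := F / N ^ 2 with hL
  have hL0 : 0 < L := by positivity
  have hLinv : 1 / L = N ^ 2 / F := by rw [hL, one_div_div]
  have hLh : 1 / L ≤ h := by rw [hLinv]; exact hhF
  have hLε : L ≤ min 1 ((3 / (4 * B')) ^ 2) := by
    rw [hL, div_le_iff₀ (by positivity)]
    exact hFε
  have hL1 : L ≤ 1 := hLε.trans (min_le_left _ _)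
  have hLB : √L ≤ 3 / (4 * B') := by
    rw [Real.sqrt_le_left (by positivity)]
    exact hLε.trans (min_le_right _ _)
  have hsL0 : 0 < √L := Real.sqrt_pos.mpr hL0
  have hsL1 : √L ≤ 1 := Real.sqrt_le_one.mpr hL1
  have hsL2 : √L ^ 2 = L := Real.sq_sqrt hL0.le
  have hone : 1 ≤ 1 / √L := by rw [le_div_iff₀ hsL0]; linarith
  -- the parameter τ
  obtain ⟨τ, hτ⟩ : ∃ τ : ℕ, τ + 1 = ⌈1 / √L⌉₊ := by
    have : 1 ≤ ⌈1 / √L⌉₊ := Nat.one_le_ceil_iff.mpr (by positivity)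
    exact ⟨⌈1 / √L⌉₊ - 1, by omega⟩
  have hτ1 : 1 / √L ≤ (τ : ℝ) + 1 := by
    have : (1 / √L) ≤ (⌈1 / √L⌉₊ : ℝ) := Nat.le_ceil _
    rw [← hτ] at this
    push_cast at this
    exact this
  have hτ2 : (τ : ℝ) + 1 ≤ 1 / √L + 1 := by
    have : (⌈1 / √L⌉₊ : ℝ) < 1 / √L + 1 := Nat.ceil_lt_add_one (by positivity)
    rw [← hτ] at this
    push_cast at this
    exact this.le
  have hτ3 : (τ : ℝ) ≤ 1 / √L := by linarith
  set B : ℝ := cB * L with hB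
  have hB0 : 0 < B := by positivity
  set R : ℕ := ⌈4 * B * (h : ℝ) ^ 2⌉₊ + 1 with hR
  have hR0 : 0 < R := by omega
  have hR0' : (0 : ℝ) < R := by exact_mod_cast hR0
  have hRh : 4 * B * (h : ℝ) ^ 2 ≤ R := by
    rw [hR]
    push_cast
    have := Nat.le_ceil (4 * B * (h : ℝ) ^ 2)
    linarith
  have hB4 : 4 * B ≤ A * L / 2 := by
    have : cB ≤ A / 8 := min_le_left _ _
    rw [hB]
    nlinarith
  have hlo : 0 < A * L / 2 := by positivity
  haveI : NeZero (2 * h) := ⟨by omega⟩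
  have hM1' : ∀ x, |iteratedDeriv 1 psi x| ≤ M := fun x => hM 1 (by omega) x
  have hN1 : (⌈N⌉₊ : ℝ) < N + 1 := Nat.ceil_lt_add_one hN0.le
  have hf2 : ContDiffOn ℝ 2 f₀ (Set.Icc N (2 * N)) := hf₀.of_le (by norm_num)
  have hmom : ∀ j < J, ∑ b ∈ range R ×ˢ range R, ∑ a ∈ range (2 * h),
      ‖∑ i ∈ range h, (amp h i * E (f₀ ((⌈N⌉₊ + (j * h + i) : ℕ) : ℝ)) *
        E (((b.1 : ℝ) + b.2) * (B / R * (((⌈N⌉₊ + j * h : ℕ) : ℝ) + i) ^ 2))) * E (a * ((i : ℝ) / (2 * h : ℕ)))‖ ^ 4 ≤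
      (2 * h : ℕ) * ((R : ℝ) ^ 2 * (2 * (16 * (h : ℝ) ^ 2 + 4 * ((4 + 4 * Real.pi * M) * 3) ^ 2 / (A * L / 2) ^ 2) +
        (2 * ((τ : ℝ) + 1)) ^ 2 * (16 * h)) + h * (R / B) ^ 2 * (4 / ((τ : ℝ) + 1)) ^ 2) := by
    intro j hj
    have hm1 : N ≤ ((⌈N⌉₊ + j * h : ℕ) : ℝ) := by
      push_cast
      have := Nat.le_ceil N
      have : (0 : ℝ) ≤ (j : ℝ) * h := by positivity
      linarith
    have hm2 : ((⌈N⌉₊ + j * h : ℕ) : ℝ) + h ≤ 2 * N := by
      push_cast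
      have e1 : ((j : ℝ) + 1) * h ≤ J * h := by
        have : (j : ℝ) + 1 ≤ J := by exact_mod_cast hj
        gcongr
      linarith
    have hc : ∀ k t : ℕ, ((⌈N⌉₊ + (j * h + (k + t)) : ℕ) : ℝ) = ((⌈N⌉₊ + (j * h + k) : ℕ) : ℝ) + t := by
      intro k t
      push_cast
      ring
    have hc0 : ∀ k : ℕ, ((⌈N⌉₊ + (j * h + k) : ℕ) : ℝ) = ((⌈N⌉₊ + j * h : ℕ) : ℝ) + k := by
      intro k
      push_cast
      ring
    apply moment_le hM0.le hM1' (φ := fun i => f₀ ((⌈N⌉₊ + (j * h + i) : ℕ) : ℝ)) (hi := B' * L) hlo hB0 ?_ le_rfl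
      ?_ hRh hR0
    · intro k hk
      have hk2 : (k : ℝ) + 2 ≤ h := by exact_mod_cast hk
      have hk0 : (0 : ℝ) ≤ k := Nat.cast_nonneg _
      have d1 := second_diff' (f := fun x => -(f₀ x)) (l := A * L) (u := B' * L) hf2.neg ?_
        ((⌈N⌉₊ + (j * h + k) : ℕ) : ℝ) (by rw [hc0]; linarith) (by rw [hc0]; linarith)
      · simp only [hc]
        push_cast at d1 ⊢
        constructor <;> linarith [d1.1, d1.2]
      · intro z hz
        have e : iteratedDerivWithin 2 (fun x => - f₀ x) (Set.Icc N (2 * N)) z =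
            - iteratedDerivWithin 2 f₀ (Set.Icc N (2 * N)) z :=
          iteratedDerivWithin_neg (n := 2) (f := f₀) (s := Set.Icc N (2 * N)) (x := z)
        rw [e]
        exact hd2 z hz
    · intro k hk
      have hk2 : (k : ℝ) + 3 ≤ h := by exact_mod_cast hk
      have hk0 : (0 : ℝ) ≤ k := Nat.cast_nonneg _
      have d1 := third_diff (f := f₀) (l := 0) (u := T) hf₀ hd3
        ((⌈N⌉₊ + (j * h + k) : ℕ) : ℝ) (by rw [hc0]; linarith) (by rw [hc0]; linarith)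
      simp only [hc]
      push_cast at d1 ⊢
      linarith [d1.1]
    · have : A * L ≤ B' * L := by gcongr
      linarith
    · calc B' * L * τ ≤ B' * L * (1 / √L) := by gcongr
        _ = B' * √L := by
            nth_rewrite 1 [← hsL2]
            field_simp
        _ ≤ B' * (3 / (4 * B')) := by gcongr
        _ = 3 / 4 := by field_simp
  have hCTb : ((R : ℝ) ^ 2 * (2 * (16 * (h : ℝ) ^ 2 + 4 * ((4 + 4 * Real.pi * M) * 3) ^ 2 / (A * L / 2) ^ 2) +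
        (2 * ((τ : ℝ) + 1)) ^ 2 * (16 * h)) + h * (R / B) ^ 2 * (4 / ((τ : ℝ) + 1)) ^ 2) ≤
        (R : ℝ) ^ 2 * (CT * (h : ℝ) ^ 2) := by
    have t1 : (1 / L) ^ 2 ≤ (h : ℝ) ^ 2 := pow_le_pow_left₀ (by positivity) hLh 2
    have t2 : 2 * (16 * (h : ℝ) ^ 2 + 4 * ((4 + 4 * Real.pi * M) * 3) ^ 2 / (A * L / 2) ^ 2) ≤
        (32 + 32 * KD ^ 2 / A ^ 2) * (h : ℝ) ^ 2 := by
      have e1 : 4 * ((4 + 4 * Real.pi * M) * 3) ^ 2 / (A * L / 2) ^ 2 = 16 * KD ^ 2 / A ^ 2 * (1 / L) ^ 2 := by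
        rw [← hKD]
        field_simp
        norm_num
      rw [e1]
      have e2 : 16 * KD ^ 2 / A ^ 2 * (1 / L) ^ 2 ≤ 16 * KD ^ 2 / A ^ 2 * (h : ℝ) ^ 2 := by gcongr
      have e3 : (32 + 32 * KD ^ 2 / A ^ 2) * (h : ℝ) ^ 2 = 2 * (16 * (h : ℝ) ^ 2 + 16 * KD ^ 2 / A ^ 2 * (h : ℝ) ^ 2) := by
        ring
      linarith
    have t3 : (2 * ((τ : ℝ) + 1)) ^ 2 * (16 * h) ≤ 256 * (h : ℝ) ^ 2 := by
      have e1 : (τ : ℝ) + 1 ≤ 2 / √L := by
        have : 2 / √L = 1 / √L + 1 / √L := by ring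
        linarith
      have e2 : (2 * ((τ : ℝ) + 1)) ^ 2 ≤ (2 * (2 / √L)) ^ 2 := by gcongr
      have e3 : (2 * (2 / √L)) ^ 2 = 16 * (1 / L) := by
        rw [← hsL2]
        field_simp
        norm_num
        ring
      calc (2 * ((τ : ℝ) + 1)) ^ 2 * (16 * h) ≤ 16 * (1 / L) * (16 * h) := by
            rw [← e3]
            gcongr
        _ ≤ 16 * h * (16 * h) := by gcongr
        _ = 256 * (h : ℝ) ^ 2 := by ring
    have t4 : h * (R / B) ^ 2 * (4 / ((τ : ℝ) + 1)) ^ 2 ≤ (R : ℝ) ^ 2 * (16 / cB ^ 2 * (h : ℝ) ^ 2) := by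
      have e1 : 4 / ((τ : ℝ) + 1) ≤ 4 * √L := by
        calc 4 / ((τ : ℝ) + 1) ≤ 4 / (1 / √L) := by gcongr
          _ = 4 * √L := by field_simp
      have e2 : (4 / ((τ : ℝ) + 1)) ^ 2 ≤ 16 * L := by
        calc (4 / ((τ : ℝ) + 1)) ^ 2 ≤ (4 * √L) ^ 2 := by gcongr
          _ = 16 * L := by rw [mul_pow, hsL2]; norm_num
      calc h * (R / B) ^ 2 * (4 / ((τ : ℝ) + 1)) ^ 2 ≤ h * (R / B) ^ 2 * (16 * L) := by gcongr
        _ = (R : ℝ) ^ 2 * (16 / cB ^ 2 * ((1 / L) * h)) := by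
            rw [hB]
            field_simp
        _ ≤ (R : ℝ) ^ 2 * (16 / cB ^ 2 * (h * h)) := by gcongr
        _ = (R : ℝ) ^ 2 * (16 / cB ^ 2 * (h : ℝ) ^ 2) := by ring
    have t5 : (R : ℝ) ^ 2 * (CT * (h : ℝ) ^ 2) = (R : ℝ) ^ 2 * ((32 + 32 * KD ^ 2 / A ^ 2) * (h : ℝ) ^ 2 +
        256 * (h : ℝ) ^ 2) + (R : ℝ) ^ 2 * (16 / cB ^ 2 * (h : ℝ) ^ 2) := by
      rw [hCT]
      ring
    rw [t5]
    refine add_le_add ?_ t4
    apply mul_le_mul_of_nonneg_left _ (by positivity)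
    exact add_le_add t2 t3
  set S₀ : Finset ((ℕ × ℕ) × ℕ) := (range R ×ˢ range R) ×ˢ range (2 * h) with hS₀
  have hcard : (S₀.card : ℝ) = (R : ℝ) ^ 2 * ((2 * h : ℕ) : ℝ) := by
    rw [hS₀, card_product, card_product, card_range, card_range]
    push_cast
    ring
  set D : ℕ → (ℕ × ℕ) × ℕ → ℝ := fun j s =>
    ‖∑ i ∈ range h, (amp h i * E (f₀ ((⌈N⌉₊ + (j * h + i) : ℕ) : ℝ)) *
        E (((s.1.1 : ℝ) + s.1.2) * (B / R * (((⌈N⌉₊ + j * h : ℕ) : ℝ) + i) ^ 2))) *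
        E (s.2 * ((i : ℝ) / (2 * h : ℕ)))‖ with hD
  obtain ⟨⟨⟨b₁, b₂⟩, a⟩, hs, hsum⟩ := choose_gen S₀ (by
      refine ⟨((0, 0), 0), ?_⟩
      rw [hS₀, mem_product, mem_product, mem_range, mem_range]
      exact ⟨⟨hR0, hR0⟩, by omega⟩) J D (fun j s => norm_nonneg _) (H := h) (X := CT / 16 * h) (by positivity) (by
      intro j _
      rw [hcard, hS₀, sum_product, hD]
      have e1 : ∀ b ∈ range R ×ˢ range R, (((2 * h : ℕ) : ℝ) * h) ≤ ∑ a ∈ range (2 * h),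
          ‖∑ i ∈ range h, (amp h i * E (f₀ ((⌈N⌉₊ + (j * h + i) : ℕ) : ℝ)) *
          E (((b.1 : ℝ) + b.2) * (B / R * (((⌈N⌉₊ + j * h : ℕ) : ℝ) + i) ^ 2))) *
          E (a * ((i : ℝ) / (2 * h : ℕ)))‖ ^ 2 := by
        intro b _
        rw [parseval (by omega : 0 < 2 * h) (by omega : h ≤ 2 * h)]
        apply mul_le_mul_of_nonneg_left _ (Nat.cast_nonneg _)
        refine (sum_u hh4).trans (le_of_eq ?_)
        apply sum_congr rfl
        intro i _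
        rw [norm_mul, norm_mul, norm_E, norm_E, mul_one, mul_one]
        rfl
      have e2 := sum_le_sum e1
      rw [sum_const, card_product, card_range, nsmul_eq_mul] at e2
      refine le_trans (le_of_eq ?_) e2
      push_cast
      ring) (by
      intro j hj
      rw [hcard, hS₀, sum_product, hD]
      refine (hmom j hj).trans ?_
      refine (mul_le_mul_of_nonneg_left hCTb (Nat.cast_nonneg _)).trans (le_of_eq ?_)
      ring)
  rw [hS₀, mem_product, mem_product, mem_range, mem_range, mem_range] at hs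
  obtain ⟨⟨hb₁, hb₂⟩, ha⟩ := hs
  simp only at hb₁ hb₂ ha
  obtain ⟨S, hS⟩ := core_gen (V := J * (h / (2 * √(32 * (CT / 16 * h))))) (B := 2 * B) (R := 2 * R) (h := h)
    (q := 2 * h) J ⌈N⌉₊ hh0' f₀ a (b₁ + b₂) (by
      refine hsum.trans (le_of_eq ?_)
      simp only [hD]
      apply sum_congr rfl
      intro j _
      congr 1
      apply sum_congr rfl
      intro i _
      have e1 : 2 * B / ((2 * R : ℕ) : ℝ) = B / R := by
        push_cast
        field_simp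
      rw [e1]
      push_cast
      rfl)
  have hB2 : 2 * B ≤ η * F / (16 * N ^ 2) := by
    have e1 : cB ≤ η / 32 := min_le_right _ _
    calc 2 * B = 2 * cB * L := by rw [hB]; ring
      _ ≤ 2 * (η / 32) * L := by gcongr
      _ = η * F / (16 * N ^ 2) := by rw [hL]; field_simp; norm_num
  apply build hη hN16 hF0 hFη hM0 hM hh4 hder (by positivity : 0 < 2 * B) hB2 a (b₁ + b₂)
    (by omega : 0 < 2 * h) ha (by omega : 0 < 2 * R) (by omega : b₁ + b₂ < 2 * R) S hJh1 hJh3 f₀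
  refine le_trans ?_ hS
  -- the size
  set s : ℝ := √(32 * (CT / 16 * h)) with hs'
  have hs0 : 0 < s := by positivity
  have hs2 : s ^ 2 = 32 * (CT / 16 * h) := Real.sq_sqrt (by positivity)
  obtain ⟨m0, m1, m2, m3⟩ := size_sq (P := P) hN0 hF0
  set m : ℝ := size P N F with hm
  have hmh : m ^ 2 * h ≤ N ^ 2 * K₂ := by
    have e1 : m ^ 2 * κ ≤ N ^ 2 * (M / η) ^ (1 / (P : ℝ)) := by
      calc m ^ 2 * κ ≤ (N * F ^ (1 / (P : ℝ))) * κ := by gcongr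
        _ = N ^ 2 * (F ^ (1 / (P : ℝ)) * (M / (η * F)) ^ (1 / (P : ℝ))) := by rw [hκ]; ring
        _ = N ^ 2 * (M / η) ^ (1 / (P : ℝ)) := by
            rw [← Real.mul_rpow hF0.le (by positivity)]
            congr 2
            field_simp
    have e2 : m ^ 2 * (N ^ 2 / F) ≤ N ^ 2 := by
      calc m ^ 2 * (N ^ 2 / F) ≤ F * (N ^ 2 / F) := by gcongr
        _ = N ^ 2 := by field_simp
    calc m ^ 2 * h ≤ m ^ 2 * (6 + κ + N ^ 2 / F) := by gcongr
      _ = 6 * m ^ 2 + m ^ 2 * κ + m ^ 2 * (N ^ 2 / F) := by ring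
      _ ≤ 6 * N ^ 2 + N ^ 2 * (M / η) ^ (1 / (P : ℝ)) + N ^ 2 := by linarith
      _ = N ^ 2 * K₂ := by rw [hK₂]; ring
  set c : ℝ := √(1 / (8192 * CT * K₂)) with hc
  have hc0 : 0 < c := by positivity
  have hc2 : c ^ 2 = 1 / (8192 * CT * K₂) := Real.sq_sqrt (by positivity)
  have hfin : c * m * (64 * s) ≤ N := by
    rw [← sq_le_sq₀ (by positivity) (by positivity)]
    calc (c * m * (64 * s)) ^ 2 = c ^ 2 * m ^ 2 * (4096 * s ^ 2) := by ring
      _ = c ^ 2 * m ^ 2 * (4096 * (32 * (CT / 16 * h))) := by rw [hs2]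
      _ = c ^ 2 * (8192 * CT) * (m ^ 2 * h) := by ring
      _ ≤ c ^ 2 * (8192 * CT) * (N ^ 2 * K₂) := by gcongr
      _ = N ^ 2 := by
          rw [hc2]
          field_simp
  calc c * m ≤ N / (64 * s) := by
        rw [le_div_iff₀ (by positivity)]
        exact hfin
    _ = (1 / 8) * ((N / (4 * h)) * ((h : ℝ) / (2 * s))) := by
        field_simp
        ring
    _ ≤ (1 / 8) * (J * ((h : ℝ) / (2 * s))) := by gcongr

end Pool.Agent.H502.XR
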