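import Pool.Agent.H502.XR.F6

/-!
# The exact order: final form
-/

set_option autoImplicit false

open Finset

namespace Pool.Agent.H502.XR

open Pool.Agent.H502.XQ

/-- the third derivative of the model -/
lemma model_third {s : ℝ} (hs : 0 < s) {N y : ℝ} (hN0 : 0 < N) (hy : 0 < y) :
    ∃ T : ℝ, ∀ x ∈ Set.Ioo N (2 * N),
      0 ≤ iteratedDerivWithin 3 (model s y) (Set.Icc N (2 * N)) x ∧
        iteratedDerivWithin 3 (model s y) (Set.Icc N (2 * N)) x ≤ T := by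
  refine ⟨s * (s + 1) * y * N ^ (-s - 2), ?_⟩
  intro x hx
  have hx0 : 0 < x := hN0.trans hx.1
  have hcm : ContDiffAt ℝ (3 : WithTop ℕ∞) (model s y) x := model_contDiffAt s y hx0 _
  rw [iteratedDerivWithin_eq_iteratedDeriv (n := 3) (uniqueDiffOn_Icc (by linarith)) (by exact_mod_cast hcm)
    ⟨hx.1.le, hx.2.le⟩, model_iter s y 2 x hx0]
  have hp : poch s 2 = s * (s + 1) := by simp [poch, prod_range_succ]
  rw [hp]
  have h5 : x ^ (-s - 2) ≤ N ^ (-s - 2) := Real.rpow_le_rpow_of_nonpos hN0 hx.1.le (by linarith)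
  have hX : 0 < x ^ (-s - 2) := Real.rpow_pos_of_pos hx0 _
  have hsy : 0 < s * (s + 1) * y := by positivity
  have h9 : s * (s + 1) * y * x ^ (-s - 2) ≤ s * (s + 1) * y * N ^ (-s - 2) := mul_le_mul_of_nonneg_left h5 hsy.le
  have h10 : 0 < s * (s + 1) * y * x ^ (-s - 2) := by positivity
  norm_num
  constructor
  · exact h10.le
  · exact h9

theorem class_mid (P : ℕ) (hP : 2 ≤ P) (s η : ℝ) (hs : 0 < s) (hη : 0 < η) :
    ∃ c : ℝ, 0 < c ∧ ∃ ε₀ : ℝ, 0 < ε₀ ∧ ∃ N₀ : ℝ, 16 ≤ N₀ ∧ ∀ N y : ℝ, N₀ ≤ N → N₀ ≤ y * N ^ (-s) →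
      y * N ^ (-s) * N ≤ ε₀ * N ^ 2 →
      ∃ f : ℝ → ℝ, ClassP N P s y η f ∧ ∃ N' : ℝ, N ≤ N' ∧ N' ≤ 2 * N ∧
        c * size P N (y * N ^ (-s) * N) ≤ ‖∑ n ∈ Icc ⌈N⌉₊ ⌊N'⌋₊, E (f n)‖ := by
  have hm0 : 0 < min s 1 := by positivity
  have h2s : (2 : ℝ) ^ (-s - 1) ≤ 1 := Real.rpow_le_one_of_one_le_of_nonpos (by norm_num) (by linarith)
  obtain ⟨c, hc, ε₀, hε₀, N₀, hN₀, h⟩ := mid_range P hP (s * 2 ^ (-s - 1)) s
    (η * ((min s 1) ^ P * 2 ^ (-s - (P : ℝ)))) (by positivity) (by nlinarith) (by positivity)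
  refine ⟨c, hc, ε₀, hε₀, N₀, hN₀, ?_⟩
  intro N y hN hL hF
  have hN0 : 0 < N := by linarith
  have hNs : 0 < N ^ (-s) := Real.rpow_pos_of_pos hN0 _
  have hy : 0 < y := pos_of_mul_pos_left (by linarith : 0 < y * N ^ (-s)) hNs.le
  have hmc : ContDiffOn ℝ 3 (model s y) (Set.Icc N (2 * N)) := by
    intro x hx
    exact (model_contDiffAt s y (hN0.trans_le hx.1) _).contDiffWithinAt
  obtain ⟨w, hw, hwd, N', h1, h2, h3⟩ := h N (y * N ^ (-s) * N) hN (mul_le_mul_of_nonneg_right hL hN0.le) hF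
    (model s y) hmc (model_second hs hN0 hy) (model_third hs hN0 hy)
  exact ⟨_, class_of hs hη hN0 hy le_rfl hw hwd, N', h1, h2, h3⟩

/-- for `F > ε N²` and `P ≥ 3` the second range condition holds -/
lemma log_small {ε : ℝ} (hε : 0 < ε) : ∃ N₁ : ℝ, ∀ N F : ℝ, N₁ ≤ N → 1 ≤ N → 1 ≤ F → ε * N ^ 2 ≤ F →
    ∀ P : ℕ, 3 ≤ P → N * Real.log N ^ 2 ≤ F ^ (1 - 1 / (P : ℝ)) := by
  have hlo := isLittleO_log_rpow_atTop (r := 1 / 6) (by norm_num)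
  have h2 := hlo.def (c := ε ^ (1 / 3 : ℝ)) (by positivity)
  obtain ⟨N₁, hN₁⟩ := Filter.eventually_atTop.mp h2
  refine ⟨N₁, fun N F hN hN1 hF1 hF P hP => ?_⟩
  have hN0 : 0 < N := by linarith
  have hF0 : 0 < F := by linarith
  have h3 := hN₁ N hN
  rw [Real.norm_eq_abs, Real.norm_eq_abs, abs_of_nonneg (Real.log_nonneg hN1),
    abs_of_pos (Real.rpow_pos_of_pos hN0 _)] at h3
  have h4 : Real.log N ^ 2 ≤ (ε ^ (1 / 3 : ℝ) * N ^ (1 / 6 : ℝ)) ^ 2 :=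
    pow_le_pow_left₀ (Real.log_nonneg hN1) h3 2
  have h5 : N * (ε ^ (1 / 3 : ℝ) * N ^ (1 / 6 : ℝ)) ^ 2 = (ε * N ^ 2) ^ (2 / 3 : ℝ) := by
    rw [Real.mul_rpow hε.le (by positivity), mul_pow, ← Real.rpow_natCast (ε ^ (1 / 3 : ℝ)),
      ← Real.rpow_natCast (N ^ (1 / 6 : ℝ)), ← Real.rpow_mul hε.le, ← Real.rpow_mul hN0.le,
      ← Real.rpow_natCast N 2, ← Real.rpow_mul hN0.le]
    have e1 : N * (ε ^ ((1 / 3 : ℝ) * ((2 : ℕ) : ℝ)) * N ^ ((1 / 6 : ℝ) * ((2 : ℕ) : ℝ))) =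
        ε ^ ((1 / 3 : ℝ) * ((2 : ℕ) : ℝ)) * (N ^ (1 : ℝ) * N ^ ((1 / 6 : ℝ) * ((2 : ℕ) : ℝ))) := by
      rw [Real.rpow_one]
      ring
    rw [e1, ← Real.rpow_add hN0]
    norm_num
  calc N * Real.log N ^ 2 ≤ N * (ε ^ (1 / 3 : ℝ) * N ^ (1 / 6 : ℝ)) ^ 2 := by gcongr
    _ = (ε * N ^ 2) ^ (2 / 3 : ℝ) := h5
    _ ≤ F ^ (2 / 3 : ℝ) := Real.rpow_le_rpow (by positivity) hF (by norm_num)
    _ ≤ F ^ (1 - 1 / (P : ℝ)) := by
        apply Real.rpow_le_rpow_of_exponent_le hF1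
        have : (3 : ℝ) ≤ P := by exact_mod_cast hP
        have : 1 / (P : ℝ) ≤ 1 / 3 := one_div_le_one_div_of_le (by norm_num) this
        linarith

/-- **The lower bound without the logarithm, for all `P ≥ 2` and all `F`** -/
theorem lower_final (P : ℕ) (hP : 2 ≤ P) (s η : ℝ) (hs : 0 < s) (hη : 0 < η) :
    ∃ c : ℝ, 0 < c ∧ ∃ N₀ : ℝ, 16 ≤ N₀ ∧ ∀ N y : ℝ, N₀ ≤ N → N₀ ≤ y * N ^ (-s) →
      ∃ f : ℝ → ℝ, ClassP N P s y η f ∧ ∃ N' : ℝ, N ≤ N' ∧ N' ≤ 2 * N ∧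
        c * size P N (y * N ^ (-s) * N) ≤ ‖∑ n ∈ Icc ⌈N⌉₊ ⌊N'⌋₊, E (f n)‖ := by
  rcases Nat.lt_or_ge 2 P with hP3 | hP2
  swap
  · have hP2' : P = 2 := le_antisymm hP2 hP
    subst hP2'
    obtain ⟨c, hc, N₀, hN₀, h⟩ := lower_two s η hs hη
    refine ⟨c, hc, N₀, hN₀, fun N y hN hL => ?_⟩
    have hN0 : 0 < N := by linarith
    have hF0 : 0 < y * N ^ (-s) * N := by
      have : 0 < y * N ^ (-s) := by linarith
      positivity
    rw [min_le_size_two hN0 hF0]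
    exact h N y hN hL
  · obtain ⟨c₁, hc₁, ε₀, hε₀, N₁, hN₁, h₁⟩ := class_mid P hP s η hs hη
    obtain ⟨c₂, hc₂, N₂, hN₂, h₂⟩ := class_nolog P hP s η hs hη
    obtain ⟨N₃, h₃⟩ := log_small hε₀
    refine ⟨min c₁ c₂, lt_min hc₁ hc₂, max N₁ (max N₂ N₃), le_trans hN₁ (le_max_left _ _), ?_⟩
    intro N y hN hL
    have hNa : N₁ ≤ N := (le_max_left _ _).trans hN
    have hNb : N₂ ≤ N := ((le_max_left _ _).trans (le_max_right _ _)).trans hN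
    have hNc : N₃ ≤ N := ((le_max_right _ _).trans (le_max_right _ _)).trans hN
    have hLa : N₁ ≤ y * N ^ (-s) := (le_max_left _ _).trans hL
    have hLb : N₂ ≤ y * N ^ (-s) := ((le_max_left _ _).trans (le_max_right _ _)).trans hL
    have hN0 : 0 < N := by linarith
    have hF0 : 0 < y * N ^ (-s) * N := by
      have : 0 < y * N ^ (-s) := by linarith
      positivity
    have hF1 : 1 ≤ y * N ^ (-s) * N := by nlinarith
    have hs0 : 0 ≤ size P N (y * N ^ (-s) * N) := (size_sq hN0 hF0).1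
    rcases le_total (y * N ^ (-s) * N) (ε₀ * N ^ 2) with hc | hc
    · obtain ⟨f, hf, N', a1, a2, a3⟩ := h₁ N y hNa hLa hc
      exact ⟨f, hf, N', a1, a2, (mul_le_mul_of_nonneg_right (min_le_left _ _) hs0).trans a3⟩
    · obtain ⟨f, hf, N', a1, a2, a3⟩ := h₂ N y hNb hLb (h₃ N _ hNc (by linarith) hF1 hc P hP3)
      exact ⟨f, hf, N', a1, a2, (mul_le_mul_of_nonneg_right (min_le_right _ _) hs0).trans a3⟩

lemma size_first {P : ℕ} (hP : 2 ≤ P) {N F : ℝ} (hN : 0 < N) (hF : 1 ≤ F)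
    (h : F ^ (1 - 1 / (P : ℝ)) ≤ N) : size P N F = √F := by
  have hF0 : 0 < F := by linarith
  have hP2 : (2 : ℝ) ≤ P := by exact_mod_cast hP
  have h1 : √F ≤ N := by
    refine le_trans ?_ h
    rw [Real.sqrt_eq_rpow]
    apply Real.rpow_le_rpow_of_exponent_le hF
    have : 1 / (P : ℝ) ≤ 1 / 2 := one_div_le_one_div_of_le (by norm_num) hP2
    linarith
  have h2 : √F ≤ √N * F ^ (1 / (2 * (P : ℝ))) := by
    have e1 : √F = √(F ^ (1 - 1 / (P : ℝ))) * F ^ (1 / (2 * (P : ℝ))) := by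
      rw [Real.sqrt_eq_rpow, Real.sqrt_eq_rpow, ← Real.rpow_mul hF0.le, ← Real.rpow_add hF0]
      congr 1
      field_simp
      ring
    rw [e1]
    gcongr
  unfold size
  rw [min_eq_left h2, min_eq_left h1]

/-- **The upper bounds** -/
theorem upper_final (P : ℕ) (hP : 2 ≤ P) (s : ℝ) (hs : 0 < s) :
    ∃ C : ℝ, 0 < C ∧ ∀ N y : ℝ, 1 ≤ N → 1 ≤ y * N ^ (-s) →
    (P ≤ 3 ∨ (y * N ^ (-s) * N) ^ (1 - 1 / (P : ℝ)) ≤ N) → ∀ η : ℝ, η ≤ 1 / 2 → ∀ f : ℝ → ℝ, ClassP N P s y η f →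
      ∀ N' : ℝ, N ≤ N' → N' ≤ 2 * N →
        ‖∑ n ∈ Icc ⌈N⌉₊ ⌊N'⌋₊, E (f n)‖ ≤ C * size P N (y * N ^ (-s) * N) := by
  obtain ⟨C₁, hC₁, h₁⟩ := class_upper s hs
  obtain ⟨C₂, hC₂, h₂⟩ := upper_three s hs
  refine ⟨max C₁ C₂, lt_max_of_lt_left hC₁, ?_⟩
  intro N y hN hL hcase η hη f hf N' hN' hN'2
  have hN0 : 0 < N := by linarith
  have hF0 : 0 < y * N ^ (-s) * N := by
    have : 0 < y * N ^ (-s) := by linarith
    positivity
  have hF1 : 1 ≤ y * N ^ (-s) * N := by nlinarith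
  have hs0 : 0 ≤ size P N (y * N ^ (-s) * N) := (size_sq hN0 hF0).1
  have hu1 := h₁ N y hN hL P hP η hη f hf N' hN' hN'2
  rcases hcase with hc | hc
  · rcases Nat.lt_or_ge 2 P with hP3 | hP2
    · have hP3' : P = 3 := by omega
      subst hP3'
      exact (h₂ N y hN hL 3 le_rfl η hη f hf N' hN' hN'2).trans
        (mul_le_mul_of_nonneg_right (le_max_right _ _) hs0)
    · have hP2' : P = 2 := le_antisymm hP2 hP
      subst hP2'
      rw [← min_le_size_two hN0 hF0] at hu1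
      exact hu1.trans (mul_le_mul_of_nonneg_right (le_max_left _ _) hs0)
  · rw [size_first hP hN0 hF1 hc]
    calc _ ≤ C₁ * min (√(y * N ^ (-s) * N)) N := hu1
      _ ≤ C₁ * √(y * N ^ (-s) * N) := mul_le_mul_of_nonneg_left (min_le_left _ _) hC₁.le
      _ ≤ _ := mul_le_mul_of_nonneg_right (le_max_left _ _) (Real.sqrt_nonneg _)

end Pool.Agent.H502.XR
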